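import Pool.Agent.S2T.TreeMk

set_option autoImplicit false

namespace S2T

open HNNExtension HNNExtension.NormalWord

variable {G : Type*} [Group G] {A B : Subgroup G} (φ : A ≃* B)

/-- number of `t`-letters. -/
noncomputable def len (γ : HNNExtension G A B φ) : ℕ :=
  ((NormalWord.equiv φ (Classical.choice (TransversalPair.nonempty G A B))) γ).toList.length

theorem len_prod (w : ReducedWord G A B) : len φ (w.prod φ) = w.toList.length := by
  unfold len
  set d := Classical.choice (TransversalPair.nonempty G A B)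
  set w' := (NormalWord.equiv φ d) (w.prod φ)
  have h : w'.toReducedWord.prod φ = w.prod φ := by
    have := (NormalWord.equiv φ d).symm_apply_apply (w.prod φ)
    exact this
  have h2 := (HNNExtension.ReducedWord.map_fst_eq_and_of_prod_eq φ h).1
  have h3 := congrArg List.length h2
  simpa using h3

theorem exists_word (γ : HNNExtension G A B φ) : ∃ w : ReducedWord G A B, w.prod φ = γ := by
  set d := Classical.choice (TransversalPair.nonempty G A B)
  exact ⟨((NormalWord.equiv φ d) γ).toReducedWord, (NormalWord.equiv φ d).symm_apply_apply γ⟩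

theorem len_of (g : G) : len φ (of g) = 0 := by
  have := len_prod φ ⟨g, [], List.isChain_nil⟩
  simpa [ReducedWord.prod] using this

theorem len_one : len φ 1 = 0 := by
  have := len_of φ 1
  simpa using this

theorem of_of_len {γ : HNNExtension G A B φ} (h : len φ γ = 0) : ∃ g, γ = of g := by
  obtain ⟨w, rfl⟩ := exists_word φ γ
  rw [len_prod] at h
  have := List.length_eq_zero_iff.1 h
  refine ⟨w.head, ?_⟩
  simp [ReducedWord.prod, this]

theorem len_of_mul (g : G) (γ : HNNExtension G A B φ) : len φ (of g * γ) = len φ γ := by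
  obtain ⟨w, rfl⟩ := exists_word φ γ
  have := len_prod φ ⟨g * w.head, w.toList, w.chain⟩
  rw [len_prod]
  simp only at this
  rw [← this]
  congr 1
  simp [ReducedWord.prod, mul_assoc]

theorem t_conj (u : ℤˣ) (a : toSubgroup A B u) :
    (t ^ (u : ℤ) * of (a : G) : HNNExtension G A B φ) =
      of (toSubgroupEquiv φ u a : G) * t ^ (u : ℤ) := by
  rcases Int.units_eq_one_or u with rfl | rfl
  · change t ^ (1 : ℤ) * of (a : G) = of (φ ⟨a.1, a.2⟩ : G) * t ^ (1 : ℤ)
    rw [zpow_one]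
    exact t_mul_of (φ := φ) ⟨a.1, a.2⟩
  · change t ^ (-1 : ℤ) * of (a : G) = of (φ.symm ⟨a.1, a.2⟩ : G) * t ^ (-1 : ℤ)
    rw [zpow_neg_one]
    exact inv_t_mul_of (φ := φ) ⟨a.1, a.2⟩

/-- non cancelling case -/
theorem len_cons (w : ReducedWord G A B) (u : ℤˣ)
    (h : ∀ p ∈ w.toList.head?, w.head ∈ toSubgroup A B u → u = p.1) :
    len φ (t ^ (u : ℤ) * w.prod φ) = w.toList.length + 1 := by
  have hc : List.IsChain (fun a b : ℤˣ × G => a.2 ∈ toSubgroup A B a.1 → a.1 = b.1)
      ((u, w.head) :: w.toList) := by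
    rw [List.isChain_cons]
    refine ⟨?_, w.chain⟩
    intro p hp
    exact h p hp
  have := len_prod φ ⟨1, (u, w.head) :: w.toList, hc⟩
  simp only [List.length_cons] at this
  rw [← this]
  congr 1
  simp [ReducedWord.prod, mul_assoc]

/-- cancelling case -/
theorem len_cancel (w : ReducedWord G A B) (u : ℤˣ) (g₁ : G) (l : List (ℤˣ × G))
    (h : w.toList = (-u, g₁) :: l) (hh : w.head ∈ toSubgroup A B u) :
    len φ (t ^ (u : ℤ) * w.prod φ) + 1 = w.toList.length := by
  have hc : List.IsChain (fun a b : ℤˣ × G => a.2 ∈ toSubgroup A B a.1 → a.1 = b.1) l := by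
    have := w.chain
    rw [h, List.isChain_cons] at this
    exact this.2
  have := len_prod φ ⟨(toSubgroupEquiv φ u ⟨w.head, hh⟩ : G) * g₁, l, hc⟩
  simp only at this
  rw [h, List.length_cons, ← this]
  congr 2
  have e := t_conj φ u ⟨w.head, hh⟩
  simp only at e
  simp only [ReducedWord.prod, h, List.map_cons, List.prod_cons]
  rw [← mul_assoc, e]
  simp [mul_assoc]

/-- step lemma, with a dichotomy -/
theorem len_step (γ : HNNExtension G A B φ) (u : ℤˣ) :
    len φ (t ^ (u : ℤ) * γ) = len φ γ + 1 ∨ len φ (t ^ (u : ℤ) * γ) + 1 = len φ γ := by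
  obtain ⟨w, rfl⟩ := exists_word φ γ
  rw [len_prod]
  by_cases h : ∀ p ∈ w.toList.head?, w.head ∈ toSubgroup A B u → u = p.1
  · left; exact len_cons φ w u h
  · right
    push Not at h
    obtain ⟨p, hp, hw, hne⟩ := h
    obtain ⟨u', g₁⟩ := p
    have hl : ∃ l, w.toList = (u', g₁) :: l := by
      cases hw2 : w.toList with
      | nil => rw [hw2] at hp; simp at hp
      | cons a l =>
        rw [hw2] at hp
        simp at hp
        exact ⟨l, by rw [hp]⟩
    obtain ⟨l, hl⟩ := hl
    have hu : u' = -u := by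
      rcases Int.units_eq_one_or u with rfl | rfl <;> rcases Int.units_eq_one_or u' with rfl | rfl <;>
        simp_all
    rw [hu] at hl
    exact len_cancel φ w u g₁ l hl hw

/-- uniqueness of the decreasing neighbour -/
theorem len_dec_unique (γ : HNNExtension G A B φ) (u u' : ℤˣ) (g g' : G)
    (h : len φ (t ^ (u : ℤ) * (of g * γ)) < len φ γ)
    (h' : len φ (t ^ (u' : ℤ) * (of g' * γ)) < len φ γ) :
    u = u' ∧ g' * g⁻¹ ∈ toSubgroup A B u := by
  obtain ⟨w, rfl⟩ := exists_word φ γ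
  rw [len_prod] at h h'
  have key : ∀ (u : ℤˣ) (g : G), len φ (t ^ (u : ℤ) * (of g * w.prod φ)) < w.toList.length →
      ∃ p ∈ w.toList.head?, g * w.head ∈ toSubgroup A B u ∧ p.1 = -u := by
    intro u g h
    have e : of g * w.prod φ = ReducedWord.prod φ (⟨g * w.head, w.toList, w.chain⟩ :
        ReducedWord G A B) := by
      simp [ReducedWord.prod, mul_assoc]
    rw [e] at h
    by_contra hcon
    have := len_cons φ ⟨g * w.head, w.toList, w.chain⟩ u (by
      intro p hp hg
      by_contra hne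
      apply hcon
      refine ⟨p, hp, hg, ?_⟩
      rcases Int.units_eq_one_or u with rfl | rfl <;>
        rcases Int.units_eq_one_or p.1 with h1 | h1 <;> simp_all)
    simp only at this
    omega
  obtain ⟨p, hp, h1, h2⟩ := key u g h
  obtain ⟨p', hp', h1', h2'⟩ := key u' g' h'
  have hpp : p = p' := by
    rw [Option.mem_def] at hp hp'
    rw [hp] at hp'
    exact Option.some.inj hp'
  subst hpp
  have huu : u = u' := by
    rw [h2] at h2'
    exact neg_injective h2'
  subst huu
  refine ⟨rfl, ?_⟩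
  have : g' * g⁻¹ = (g' * w.head) * (g * w.head)⁻¹ := by group
  rw [this]
  exact mul_mem h1' (inv_mem h1)

/-- an element of nonzero length has a decreasing neighbour -/
theorem exists_dec {γ : HNNExtension G A B φ} (h : len φ γ ≠ 0) :
    ∃ (g : G) (u : ℤˣ) (δ : HNNExtension G A B φ), γ = of g * (t ^ (u : ℤ) * δ) ∧
      len φ δ + 1 = len φ γ := by
  obtain ⟨w, rfl⟩ := exists_word φ γ
  rw [len_prod] at h ⊢
  obtain ⟨head, l, hc⟩ := w
  simp only at h ⊢
  cases l with
  | nil => simp at h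
  | cons p l =>
    rw [List.isChain_cons] at hc
    refine ⟨head, p.1, ReducedWord.prod φ ⟨p.2, l, hc.2⟩, ?_, ?_⟩
    · simp [ReducedWord.prod, mul_assoc]
    · rw [len_prod]; rfl

theorem len_mul_le (x y : HNNExtension G A B φ) : len φ (x * y) ≤ len φ x + len φ y := by
  suffices h : ∀ n (x : HNNExtension G A B φ), len φ x = n → len φ (x * y) ≤ n + len φ y from
    h _ x rfl
  intro n
  induction n with
  | zero =>
    intro x hx
    obtain ⟨g, rfl⟩ := of_of_len φ hx
    rw [len_of_mul]; omega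
  | succ n ih =>
    intro x hx
    obtain ⟨g, u, δ, rfl, hδ⟩ := exists_dec φ (γ := x) (by omega)
    rw [mul_assoc, len_of_mul, mul_assoc]
    have := ih δ (by omega)
    rcases len_step φ (δ * y) u with h | h <;> omega

theorem len_t (u : ℤˣ) : len φ (t ^ (u : ℤ)) = 1 := by
  rcases len_step φ 1 u with h | h
  · rw [mul_one, len_one] at h; omega
  · rw [len_one] at h; omega

theorem len_inv_le (x : HNNExtension G A B φ) : len φ x⁻¹ ≤ len φ x := by
  suffices h : ∀ n (x : HNNExtension G A B φ), len φ x = n → len φ x⁻¹ ≤ n from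
    h _ x rfl
  intro n
  induction n with
  | zero =>
    intro x hx
    obtain ⟨g, rfl⟩ := of_of_len φ hx
    rw [← map_inv, len_of]
  | succ n ih =>
    intro x hx
    obtain ⟨g, u, δ, rfl, hδ⟩ := exists_dec φ (γ := x) (by omega)
    have h1 := ih δ (by omega)
    have e : (of g * (t ^ (u : ℤ) * δ))⁻¹ = δ⁻¹ * (t ^ ((-u : ℤˣ) : ℤ) * of g⁻¹) := by
      simp [mul_assoc]
    rw [e]
    have h2 := len_mul_le φ δ⁻¹ (t ^ ((-u : ℤˣ) : ℤ) * of g⁻¹)
    have h3 := len_mul_le φ (t ^ ((-u : ℤˣ) : ℤ)) (of g⁻¹ : HNNExtension G A B φ)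
    rw [len_t, len_of] at h3
    omega

theorem len_inv (x : HNNExtension G A B φ) : len φ x⁻¹ = len φ x := by
  apply le_antisymm (len_inv_le φ x)
  have := len_inv_le φ x⁻¹
  rwa [inv_inv] at this

theorem len_mul_of (g : G) (γ : HNNExtension G A B φ) : len φ (γ * of g) = len φ γ := by
  rw [← len_inv, mul_inv_rev, ← map_inv, len_of_mul, len_inv]

/-- the base group as a subgroup -/
def base : Subgroup (HNNExtension G A B φ) := (of (φ := φ)).range

abbrev Vert := HNNExtension G A B φ ⧸ base φ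

theorem mk_eq_iff {x y : HNNExtension G A B φ} :
    (x : Vert φ) = (y : Vert φ) ↔ ∃ g, x⁻¹ * y = of g := by
  rw [QuotientGroup.eq]
  constructor
  · rintro ⟨g, hg⟩
    exact ⟨g, hg.symm⟩
  · rintro ⟨g, hg⟩
    exact ⟨g, hg.symm⟩

/-- distance on the Bass-Serre tree -/
noncomputable def vd (x y : Vert φ) : ℕ := len φ (x.out⁻¹ * y.out)

theorem vd_mk (x y : HNNExtension G A B φ) : vd φ (x : Vert φ) (y : Vert φ) = len φ (x⁻¹ * y) := by
  unfold vd
  obtain ⟨g, hg⟩ := (mk_eq_iff φ).1 (QuotientGroup.out_eq' (x : Vert φ))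
  obtain ⟨h, hh⟩ := (mk_eq_iff φ).1 (QuotientGroup.out_eq' (y : Vert φ))
  set a := Quotient.out (x : Vert φ)
  set b := Quotient.out (y : Vert φ)
  have e : a⁻¹ * b = of g * (x⁻¹ * y) * of h⁻¹ := by
    rw [map_inv, ← hg, ← hh]; group
  rw [e, len_mul_of, len_of_mul]

theorem vd_smul (g : HNNExtension G A B φ) (x y : Vert φ) : vd φ (g • x) (g • y) = vd φ x y := by
  obtain ⟨x, rfl⟩ := QuotientGroup.mk_surjective x
  obtain ⟨y, rfl⟩ := QuotientGroup.mk_surjective y
  have e1 : g • (x : Vert φ) = ((g * x : HNNExtension G A B φ) : Vert φ) := rfl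
  have e2 : g • (y : Vert φ) = ((g * y : HNNExtension G A B φ) : Vert φ) := rfl
  rw [e1, e2, vd_mk, vd_mk]
  congr 1; group

/-- base vertex -/
def v0 : Vert φ := ((1 : HNNExtension G A B φ) : Vert φ)

theorem mk_eq_smul_v0 (x : HNNExtension G A B φ) : (x : Vert φ) = x • v0 φ := by
  change _ = ((x * 1 : HNNExtension G A B φ) : Vert φ)
  rw [mul_one]

theorem exists_smul_v0 (x : Vert φ) : ∃ γ : HNNExtension G A B φ, x = γ • v0 φ := by
  obtain ⟨x, rfl⟩ := QuotientGroup.mk_surjective x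
  exact ⟨x, mk_eq_smul_v0 φ x⟩

theorem vd_v0 (x y : HNNExtension G A B φ) : vd φ (x • v0 φ) (y • v0 φ) = len φ (x⁻¹ * y) := by
  rw [← mk_eq_smul_v0, ← mk_eq_smul_v0, vd_mk]

theorem vd_v0' (y : HNNExtension G A B φ) : vd φ (v0 φ) (y • v0 φ) = len φ y := by
  have := vd_v0 φ 1 y
  simpa using this

theorem of_smul_v0 (g : G) : (of g : HNNExtension G A B φ) • v0 φ = v0 φ := by
  have := mk_eq_smul_v0 φ (of g)
  rw [← this]
  apply QuotientGroup.eq.2
  simp only [mul_one, inv_mem_iff]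
  exact ⟨g, rfl⟩

/-- vertices at distance one from the base vertex -/
theorem adj_v0 {y : Vert φ} (h : vd φ (v0 φ) y = 1) : ∃ (g : G) (u : ℤˣ),
    y = (of g * t ^ (u : ℤ) : HNNExtension G A B φ) • v0 φ := by
  obtain ⟨γ, rfl⟩ := exists_smul_v0 φ y
  rw [vd_v0'] at h
  obtain ⟨g, u, δ, rfl, hδ⟩ := exists_dec φ (γ := γ) (by omega)
  obtain ⟨g', rfl⟩ := of_of_len φ (γ := δ) (by omega)
  refine ⟨g, u, ?_⟩
  rw [← mul_assoc, mul_smul, of_smul_v0]

theorem adj_out (g : G) (u : ℤˣ) :
    vd φ (v0 φ) ((of g * t ^ (u : ℤ) : HNNExtension G A B φ) • v0 φ) = 1 := by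
  rw [vd_v0', len_of_mul, len_t]

/-- The Bass-Serre tree. -/
noncomputable def bsTree : TreeDist (Vert φ) :=
  TreeDist.mk' (vd φ)
    (by
      intro x
      obtain ⟨x, rfl⟩ := exists_smul_v0 φ x
      rw [vd_v0, inv_mul_cancel, len_one])
    (by
      intro x y h
      obtain ⟨x, rfl⟩ := exists_smul_v0 φ x
      obtain ⟨y, rfl⟩ := exists_smul_v0 φ y
      rw [vd_v0] at h
      obtain ⟨g, hg⟩ := of_of_len φ h
      have : y = x * of g := by rw [← hg]; group
      rw [this, mul_smul, of_smul_v0])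
    (by
      intro x y
      obtain ⟨x, rfl⟩ := exists_smul_v0 φ x
      obtain ⟨y, rfl⟩ := exists_smul_v0 φ y
      rw [vd_v0, vd_v0, ← len_inv]
      congr 1; group)
    (by
      intro x y z
      obtain ⟨x, rfl⟩ := exists_smul_v0 φ x
      obtain ⟨y, rfl⟩ := exists_smul_v0 φ y
      obtain ⟨z, rfl⟩ := exists_smul_v0 φ z
      rw [vd_v0, vd_v0, vd_v0]
      have := len_mul_le φ (x⁻¹ * y) (y⁻¹ * z)
      have e : x⁻¹ * y * (y⁻¹ * z) = x⁻¹ * z := by group
      rwa [e] at this)
    (by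
      intro x y h
      obtain ⟨x, rfl⟩ := exists_smul_v0 φ x
      obtain ⟨y, rfl⟩ := exists_smul_v0 φ y
      have hne : len φ (x⁻¹ * y) ≠ 0 := by
        intro h0
        apply h
        obtain ⟨g, hg⟩ := of_of_len φ h0
        have : y = x * of g := by rw [← hg]; group
        rw [this, mul_smul, of_smul_v0]
      obtain ⟨g, u, δ, e, hδ⟩ := exists_dec φ hne
      refine ⟨(x * (of g * t ^ (u : ℤ))) • v0 φ, ?_, ?_⟩
      · rw [vd_v0, ← mul_assoc, inv_mul_cancel, one_mul, len_of_mul, len_t]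
      · rw [vd_v0, vd_v0, vd_v0, ← mul_assoc, inv_mul_cancel, one_mul, len_of_mul, len_t]
        have e2 : (x * (of g * t ^ (u : ℤ)))⁻¹ * y = δ := by
          have : y = x * (of g * (t ^ (u : ℤ) * δ)) := by rw [← e]; group
          rw [this]; group
        rw [e2]; omega)
    (by
      intro z x a b ha hb hza hzb
      obtain ⟨x, rfl⟩ := exists_smul_v0 φ x
      obtain ⟨z, rfl⟩ := exists_smul_v0 φ z
      -- translate
      have ha' : vd φ (v0 φ) (x⁻¹ • a) = 1 := by
        have := vd_smul φ x⁻¹ (x • v0 φ) a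
        rw [inv_smul_smul] at this
        rw [this]; exact ha
      have hb' : vd φ (v0 φ) (x⁻¹ • b) = 1 := by
        have := vd_smul φ x⁻¹ (x • v0 φ) b
        rw [inv_smul_smul] at this
        rw [this]; exact hb
      obtain ⟨g, u, hg⟩ := adj_v0 φ ha'
      obtain ⟨g', u', hg'⟩ := adj_v0 φ hb'
      have ea : a = (x * (of g * t ^ (u : ℤ))) • v0 φ := by
        rw [mul_smul, ← hg, smul_inv_smul]
      have eb : b = (x * (of g' * t ^ (u' : ℤ))) • v0 φ := by
        rw [mul_smul, ← hg', smul_inv_smul]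
      rw [ea, vd_v0, vd_v0] at hza
      rw [eb, vd_v0, vd_v0] at hzb
      have k1 : len φ (z⁻¹ * x) = len φ (x⁻¹ * z) := by
        rw [← len_inv]; congr 1; group
      have k2 : ∀ (g : G) (u : ℤˣ), len φ (z⁻¹ * (x * (of g * t ^ (u : ℤ)))) =
          len φ (t ^ ((-u : ℤˣ) : ℤ) * (of g⁻¹ * (x⁻¹ * z))) := by
        intro g u
        rw [← len_inv]; congr 1
        simp [mul_assoc]
      rw [k1, k2] at hza hzb
      obtain ⟨h1, h2⟩ := len_dec_unique φ (x⁻¹ * z) (-u) (-u') g⁻¹ g'⁻¹ hza hzb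
      have huu : u = u' := neg_injective h1
      subst huu
      rw [inv_inv] at h2
      -- g'⁻¹ * g ∈ toSubgroup (-u)
      have e3 := t_conj φ (-u) ⟨g'⁻¹ * g, h2⟩
      simp only at e3
      rw [ea, eb]
      have e4 : (of g * t ^ (u : ℤ) : HNNExtension G A B φ) =
          of g' * t ^ (u : ℤ) * of (toSubgroupEquiv φ (-u) ⟨g'⁻¹ * g, h2⟩ : G) := by
        have e5 : (of (g'⁻¹ * g) : HNNExtension G A B φ) =
            t ^ (u : ℤ) * of (toSubgroupEquiv φ (-u) ⟨g'⁻¹ * g, h2⟩ : G) * t ^ ((-u : ℤˣ) : ℤ) := by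
          rw [mul_assoc, ← e3]; simp
        have e6 : (of g * t ^ (u : ℤ) : HNNExtension G A B φ) =
            of g' * (of (g'⁻¹ * g)) * t ^ (u : ℤ) := by
          rw [← map_mul]; congr 2; group
        rw [e6, e5]
        simp [mul_assoc]
      rw [e4, ← mul_assoc, mul_smul (x * (of g' * t ^ (u : ℤ))), of_smul_v0])
    (by
      intro z x a ha
      obtain ⟨x, rfl⟩ := exists_smul_v0 φ x
      obtain ⟨z, rfl⟩ := exists_smul_v0 φ z
      have ha' : vd φ (v0 φ) (x⁻¹ • a) = 1 := by
        have := vd_smul φ x⁻¹ (x • v0 φ) a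
        rw [inv_smul_smul] at this
        rw [this]; exact ha
      obtain ⟨g, u, hg⟩ := adj_v0 φ ha'
      have ea : a = (x * (of g * t ^ (u : ℤ))) • v0 φ := by
        rw [mul_smul, ← hg, smul_inv_smul]
      rw [ea, vd_v0, vd_v0]
      have k1 : len φ (z⁻¹ * x) = len φ (x⁻¹ * z) := by
        rw [← len_inv]; congr 1; group
      have k2 : len φ (z⁻¹ * (x * (of g * t ^ (u : ℤ)))) =
          len φ (t ^ ((-u : ℤˣ) : ℤ) * (of g⁻¹ * (x⁻¹ * z))) := by
        rw [← len_inv]; congr 1
        simp [mul_assoc]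
      rw [k1, k2]
      have h1 := len_step φ (of g⁻¹ * (x⁻¹ * z)) (-u)
      rw [len_of_mul] at h1
      omega)

theorem bsTree_d (x y : Vert φ) : (bsTree φ).d x y = vd φ x y := rfl

/-- stabilisers of the neighbours -/
theorem out_eq_iff {x y : G} : (of x * t : HNNExtension G A B φ) • v0 φ =
    (of y * t : HNNExtension G A B φ) • v0 φ ↔
    x⁻¹ * y ∈ B := by
  constructor
  · intro h
    by_contra hB
    have h1 : vd φ ((of x * t : HNNExtension G A B φ) • v0 φ)
        ((of y * t : HNNExtension G A B φ) • v0 φ) = 0 := by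
      rw [h]; exact (bsTree φ).d_self _
    rw [vd_v0] at h1
    have e : (of x * t : HNNExtension G A B φ)⁻¹ * (of y * t) =
        t ^ (((-1 : ℤˣ)) : ℤ) * ReducedWord.prod φ ⟨x⁻¹ * y, [(1, 1)], List.isChain_singleton _⟩ := by
      simp [ReducedWord.prod, mul_assoc]
    rw [e, len_cons] at h1
    · simp at h1
    · intro p hp hm
      exact absurd hm hB
  · intro h
    have e : (of y : HNNExtension G A B φ) * t = of x * t * of (φ.symm ⟨x⁻¹ * y, h⟩ : G) := by
      have := of_mul_t (φ := φ) ⟨x⁻¹ * y, h⟩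
      rw [mul_assoc, ← this, ← mul_assoc, ← map_mul]
      congr 2; group
    rw [e, mul_smul (of x * t : HNNExtension G A B φ), of_smul_v0]

theorem in_eq_iff {x y : G} : (of x * t⁻¹ : HNNExtension G A B φ) • v0 φ =
    (of y * t⁻¹ : HNNExtension G A B φ) • v0 φ ↔
    x⁻¹ * y ∈ A := by
  constructor
  · intro h
    by_contra hA
    have h1 : vd φ ((of x * t⁻¹ : HNNExtension G A B φ) • v0 φ)
        ((of y * t⁻¹ : HNNExtension G A B φ) • v0 φ) = 0 := by
      rw [h]; exact (bsTree φ).d_self _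
    rw [vd_v0] at h1
    have e : (of x * t⁻¹ : HNNExtension G A B φ)⁻¹ * (of y * t⁻¹) =
        t ^ (((1 : ℤˣ)) : ℤ) * ReducedWord.prod φ ⟨x⁻¹ * y, [(-1, 1)], List.isChain_singleton _⟩ := by
      simp [ReducedWord.prod, mul_assoc]
    rw [e, len_cons] at h1
    · simp at h1
    · intro p hp hm
      exact absurd hm hA
  · intro h
    have e : (of y : HNNExtension G A B φ) * t⁻¹ = of x * t⁻¹ * of (φ ⟨x⁻¹ * y, h⟩ : G) := by
      have := of_mul_inv_t (φ := φ) ⟨x⁻¹ * y, h⟩
      rw [mul_assoc, ← this, ← mul_assoc, ← map_mul]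
      congr 2; group
    rw [e, mul_smul (of x * t⁻¹ : HNNExtension G A B φ), of_smul_v0]

theorem out_ne_in {x y : G} :
    (of x * t : HNNExtension G A B φ) • v0 φ ≠ (of y * t⁻¹ : HNNExtension G A B φ) • v0 φ := by
  intro h
  have h1 : vd φ ((of x * t : HNNExtension G A B φ) • v0 φ)
        ((of y * t⁻¹ : HNNExtension G A B φ) • v0 φ) = 0 := by
    rw [h]; exact (bsTree φ).d_self _
  rw [vd_v0] at h1
  have e : (of x * t : HNNExtension G A B φ)⁻¹ * (of y * t⁻¹) =
      t ^ (((-1 : ℤˣ)) : ℤ) * ReducedWord.prod φ ⟨x⁻¹ * y, [(-1, 1)], List.isChain_singleton _⟩ := by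
    simp [ReducedWord.prod, mul_assoc]
  rw [e, len_cons] at h1
  · simp at h1
  · intro p hp _
    simp at hp
    rw [← hp]

end S2T
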