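import Mathlib

set_option autoImplicit false

namespace S2T

section limit

variable (G : ℕ → Type) [∀ n, Group (G n)] (f : ∀ n, G n →* G (n+1))

def itF (n : ℕ) : ∀ k, G n →* G (n + k)
  | 0 => MonoidHom.id _
  | k + 1 => (f (n + k)).comp (itF n k)

def castHom {a b : ℕ} (h : a = b) : G a →* G b := h ▸ MonoidHom.id (G a)

theorem castHom_itF (n k k' : ℕ) (hk : k' = k) (h : n + k' = n + k) (x : G n) :
    castHom G h (itF G f n k' x) = itF G f n k x := by
  subst hk
  rfl

/-- the sequence generated by an element -/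
def seqOf (n : ℕ) : G n →* (∀ m, G m) :=
  MonoidHom.pi (fun m => if h : n ≤ m then
    (castHom G (Nat.add_sub_of_le h)).comp (itF G f n (m - n)) else 1)

theorem seqOf_add (n k : ℕ) (x : G n) : seqOf G f n x (n + k) = itF G f n k x := by
  change (if h : n ≤ n + k then
    (castHom G (Nat.add_sub_of_le h)).comp (itF G f n (n + k - n)) else 1) x = _
  rw [dif_pos (Nat.le_add_right n k)]
  exact castHom_itF G f n k (n + k - n) (by omega) _ x

theorem seqOf_self (n : ℕ) (x : G n) : seqOf G f n x n = x := seqOf_add G f n 0 x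

theorem seqOf_succ (n m : ℕ) (h : n ≤ m) (x : G n) :
    seqOf G f n x (m + 1) = f m (seqOf G f n x m) := by
  obtain ⟨k, rfl⟩ := Nat.exists_eq_add_of_le h
  rw [seqOf_add]
  exact seqOf_add G f n (k + 1) x

/-- eventually trivial sequences -/
def evTriv : Subgroup (∀ m, G m) where
  carrier := {x | ∃ N, ∀ n, N ≤ n → x n = 1}
  mul_mem' := by
    rintro a b ⟨N, hN⟩ ⟨M, hM⟩
    refine ⟨max N M, fun n hn => ?_⟩
    rw [Pi.mul_apply, hN n (le_trans (le_max_left _ _) hn), hM n (le_trans (le_max_right _ _) hn),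
      one_mul]
  one_mem' := ⟨0, fun _ _ => rfl⟩
  inv_mem' := by
    rintro a ⟨N, hN⟩
    exact ⟨N, fun n hn => by rw [Pi.inv_apply, hN n hn, inv_one]⟩

instance : (evTriv G).Normal := by
  constructor
  rintro a ⟨N, hN⟩ g
  refine ⟨N, fun n hn => ?_⟩
  simp [hN n hn]

theorem exists_limit (hf : ∀ n, Function.Injective (f n)) : ∃ (L : Type) (_ : Group L)
    (ψ : ∀ n, G n →* L), (∀ n, Function.Injective (ψ n)) ∧ (∀ n x, ψ (n+1) (f n x) = ψ n x) ∧
      ∀ y, ∃ n x, ψ n x = y := by
  let ψ : ∀ n, G n →* ((∀ m, G m) ⧸ evTriv G) := fun n => (QuotientGroup.mk' (evTriv G)).comp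
    (seqOf G f n)
  have h1 : ∀ n x, ψ (n+1) (f n x) = ψ n x := by
    intro n x
    change ((seqOf G f (n+1) (f n x) : ∀ m, G m) : (∀ m, G m) ⧸ evTriv G) =
      ((seqOf G f n x : ∀ m, G m) : (∀ m, G m) ⧸ evTriv G)
    rw [QuotientGroup.eq]
    refine ⟨n + 1, fun m hm => ?_⟩
    have h2 : seqOf G f (n+1) (f n x) m = seqOf G f n x m := by
      induction m, hm using Nat.le_induction with
      | base => rw [seqOf_self, seqOf_succ G f n n le_rfl, seqOf_self]
      | succ m hm ih => rw [seqOf_succ G f (n+1) m hm, ih, seqOf_succ G f n m (by omega)]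
    rw [Pi.mul_apply, Pi.inv_apply, h2, inv_mul_cancel]
  have h2 : ∀ n, Function.Injective (ψ n) := by
    intro n
    rw [injective_iff_map_eq_one]
    intro x hx
    have hx' : ((seqOf G f n x : ∀ m, G m) : (∀ m, G m) ⧸ evTriv G) = 1 := hx
    rw [QuotientGroup.eq_one_iff] at hx'
    obtain ⟨N, hN⟩ := hx'
    have h3 : ∀ m, n ≤ m → seqOf G f n x m = 1 → x = 1 := by
      intro m hm
      induction m, hm using Nat.le_induction with
      | base => intro h; rwa [seqOf_self] at h
      | succ m hm ih =>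
        intro h
        apply ih
        rw [seqOf_succ G f n m hm] at h
        exact (map_eq_one_iff (f m) (hf m)).1 h
    exact h3 (max n N) (le_max_left _ _) (hN _ (le_max_right _ _))
  have h3 : ∀ n k x, ∃ x', ψ (n + k) x' = ψ n x := by
    intro n k
    induction k with
    | zero => intro x; exact ⟨x, rfl⟩
    | succ k ih =>
      intro x
      obtain ⟨x', hx'⟩ := ih x
      exact ⟨f (n + k) x', by rw [← hx']; exact h1 (n + k) x'⟩
  let L : Subgroup ((∀ m, G m) ⧸ evTriv G) :=
    { carrier := {y | ∃ n x, ψ n x = y}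
      mul_mem' := by
        rintro _ _ ⟨n, x, rfl⟩ ⟨m, y, rfl⟩
        rcases le_total n m with h | h
        · obtain ⟨k, rfl⟩ := Nat.exists_eq_add_of_le h
          obtain ⟨x', hx'⟩ := h3 n k x
          exact ⟨_, x' * y, by rw [map_mul, hx']⟩
        · obtain ⟨k, rfl⟩ := Nat.exists_eq_add_of_le h
          obtain ⟨y', hy'⟩ := h3 m k y
          exact ⟨_, x * y', by rw [map_mul, hy']⟩
      one_mem' := ⟨0, 1, map_one _⟩
      inv_mem' := by
        rintro _ ⟨n, x, rfl⟩
        exact ⟨n, x⁻¹, map_inv _ _⟩ }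
  refine ⟨L, inferInstance, fun n => (ψ n).codRestrict L (fun x => ⟨n, x, rfl⟩), ?_, ?_, ?_⟩
  · intro n x y hxy
    exact h2 n (congrArg Subtype.val hxy)
  · intro n x
    exact Subtype.ext (h1 n x)
  · rintro ⟨_, n, x, rfl⟩
    exact ⟨n, x, rfl⟩

end limit

end S2T
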