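import Pool.Agent.S2T.Step3
import Pool.Agent.S2T.Limit

set_option autoImplicit false

namespace S2T

/-- a stage of the construction -/
structure Stage : Type 1 where
  G : Type
  gG : Group G
  cG : Countable G
  A : Subgroup G
  fin : Finite A
  odd : Odd (Nat.card A)
  mal : Mal A
  i : G
  hi : i * i = 1
  hiA : i ∉ A

attribute [instance] Stage.gG Stage.cG Stage.fin

structure Nxt (s : Stage) (g : s.G) : Type 1 where
  s' : Stage
  j : s.G →* s'.G
  inj : Function.Injective j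
  hA : ∀ x, j x ∈ s'.A ↔ x ∈ s.A
  ji : j s.i = s'.i
  hg : j g ∈ s'.A ∨ ∃ a ∈ s'.A, ∃ a' ∈ s'.A, j g = a * s'.i * a'

theorem exists_nxt (s : Stage) (g : s.G) : Nonempty (Nxt s g) := by
  obtain ⟨G₁, iG, iC, j, A₁, k1, k2, k3, k4, k5, k6⟩ := step s.A s.odd s.mal s.i s.hi s.hiA g
  exact ⟨{ s' := { G := G₁, gG := iG, cG := iC, A := A₁, fin := k2, odd := k3, mal := k4,
                   i := j s.i, hi := by rw [← map_mul, s.hi, map_one],
                   hiA := fun h => s.hiA ((k5 _).1 h) }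
           j := j, inj := k1, hA := k5, ji := rfl, hg := k6 }⟩

noncomputable def nxt (s : Stage) (g : s.G) : Nxt s g := Classical.choice (exists_nxt s g)

theorem exists_enum (s : Stage) : ∃ e : ℕ → s.G, Function.Surjective e :=
  exists_surjective_nat s.G

noncomputable def enum (s : Stage) : ℕ → s.G := (exists_enum s).choose

theorem enum_surj (s : Stage) : Function.Surjective (enum s) := (exists_enum s).choose_spec

structure St : Type 1 where
  s : Stage
  T : ℕ → ℕ → s.G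

open scoped Classical in
noncomputable def nextSt (n : ℕ) (x : St) : St where
  s := (nxt x.s (x.T n.unpair.1 n.unpair.2)).s'
  T := fun a b => if a ≤ n then (nxt x.s (x.T n.unpair.1 n.unpair.2)).j (x.T a b) else enum _ b

variable (s0 : Stage)

noncomputable def sq' : ℕ → St
  | 0 => ⟨s0, fun _ b => enum s0 b⟩
  | n + 1 => nextSt n (sq' n)

noncomputable abbrev GG (n : ℕ) : Type := (sq' s0 n).s.G

noncomputable def ff (n : ℕ) : GG s0 n →* GG s0 (n + 1) :=
  (nxt (sq' s0 n).s ((sq' s0 n).T n.unpair.1 n.unpair.2)).j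

theorem ff_inj (n : ℕ) : Function.Injective (ff s0 n) := Nxt.inj _

noncomputable def AA (n : ℕ) : Subgroup (GG s0 n) := (sq' s0 n).s.A

theorem ff_A (n : ℕ) (x : GG s0 n) : ff s0 n x ∈ AA s0 (n + 1) ↔ x ∈ AA s0 n := Nxt.hA _ _

noncomputable def ii (n : ℕ) : GG s0 n := (sq' s0 n).s.i

theorem ff_i (n : ℕ) : ff s0 n (ii s0 n) = ii s0 (n + 1) := Nxt.ji _

noncomputable def TT (n : ℕ) : ℕ → ℕ → GG s0 n := (sq' s0 n).T

theorem TT_surj (n : ℕ) : Function.Surjective (TT s0 n n) := by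
  cases n with
  | zero => exact enum_surj s0
  | succ n =>
    intro x
    obtain ⟨b, hb⟩ := enum_surj (sq' s0 (n + 1)).s x
    refine ⟨b, ?_⟩
    rw [← hb]
    change (if n + 1 ≤ n then _ else enum _ b) = _
    rw [if_neg (by omega)]
    rfl

theorem TT_step (n a b : ℕ) (h : a ≤ n) : TT s0 (n + 1) a b = ff s0 n (TT s0 n a b) := by
  change (if a ≤ n then _ else enum _ b) = _
  rw [if_pos h]
  rfl

theorem proc (n : ℕ) : ff s0 n (TT s0 n n.unpair.1 n.unpair.2) ∈ AA s0 (n + 1) ∨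
    ∃ a ∈ AA s0 (n + 1), ∃ a' ∈ AA s0 (n + 1),
      ff s0 n (TT s0 n n.unpair.1 n.unpair.2) = a * ii s0 (n + 1) * a' := Nxt.hg _

/-- the limit group, with all its properties -/
theorem exists_big : ∃ (L : Type) (_ : Group L) (H : Subgroup L) (i : L) (ψ : s0.G →* L),
    Function.Injective ψ ∧ ψ s0.i = i ∧ i * i = 1 ∧ i ∉ H ∧
    (∀ x, x ∉ H → ∀ a ∈ H, x⁻¹ * a * x ∈ H → a = 1) ∧
    (∀ y, y ∈ H ∨ ∃ a ∈ H, ∃ a' ∈ H, y = a * i * a') ∧
    (∀ a ∈ H, a * a = 1 → a = 1) ∧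
    (∀ s : Finset L, (∀ y ∈ s, y ∈ H) → ∃ K : Subgroup L, Finite K ∧ ∀ y ∈ s, y ∈ K) := by
  obtain ⟨L, gL, ψ, h1, h2, h3⟩ := exists_limit (GG s0) (ff s0) (ff_inj s0)
  -- going up
  have up : ∀ n k (x : GG s0 n), ∃ x' : GG s0 (n + k), ψ (n + k) x' = ψ n x ∧
      (x' ∈ AA s0 (n + k) ↔ x ∈ AA s0 n) := by
    intro n k
    induction k with
    | zero => intro x; exact ⟨x, rfl, Iff.rfl⟩
    | succ k ih =>
      intro x
      obtain ⟨x', e1, e2⟩ := ih x
      exact ⟨ff s0 (n + k) x', by rw [← e1]; exact h2 (n + k) x', by rw [← e2]; exact ff_A s0 _ _⟩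
  have key : ∀ n m (x : GG s0 n) (y : GG s0 m), ψ n x = ψ m y → (x ∈ AA s0 n ↔ y ∈ AA s0 m) := by
    intro n m x y hxy
    rcases le_total n m with h | h
    · obtain ⟨k, rfl⟩ := Nat.exists_eq_add_of_le h
      obtain ⟨x', e1, e2⟩ := up n k x
      have : x' = y := h1 _ (by rw [e1, hxy])
      rw [← this, e2]
    · obtain ⟨k, rfl⟩ := Nat.exists_eq_add_of_le h
      obtain ⟨y', e1, e2⟩ := up m k y
      have : y' = x := h1 _ (by rw [e1, hxy])
      rw [← this, e2]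
  have common : ∀ y y' : L, ∃ n x x', ψ n x = y ∧ ψ n x' = y' := by
    intro y y'
    obtain ⟨n, x, rfl⟩ := h3 y
    obtain ⟨m, x', rfl⟩ := h3 y'
    rcases le_total n m with h | h
    · obtain ⟨k, rfl⟩ := Nat.exists_eq_add_of_le h
      obtain ⟨z, e1, _⟩ := up n k x
      exact ⟨_, z, x', e1, rfl⟩
    · obtain ⟨k, rfl⟩ := Nat.exists_eq_add_of_le h
      obtain ⟨z, e1, _⟩ := up m k x'
      exact ⟨_, x, z, rfl, e1⟩
  let H : Subgroup L :=
    { carrier := {y | ∃ n, ∃ x ∈ AA s0 n, ψ n x = y}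
      mul_mem' := by
        rintro a b ⟨n, x, hx, rfl⟩ ⟨m, y, hy, rfl⟩
        rcases le_total n m with h | h
        · obtain ⟨k, rfl⟩ := Nat.exists_eq_add_of_le h
          obtain ⟨x', e1, e2⟩ := up n k x
          exact ⟨_, x' * y, mul_mem (e2.2 hx) hy, by rw [map_mul, e1]⟩
        · obtain ⟨k, rfl⟩ := Nat.exists_eq_add_of_le h
          obtain ⟨y', e1, e2⟩ := up m k y
          exact ⟨_, x * y', mul_mem hx (e2.2 hy), by rw [map_mul, e1]⟩
      one_mem' := ⟨0, 1, one_mem _, map_one _⟩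
      inv_mem' := by
        rintro a ⟨n, x, hx, rfl⟩
        exact ⟨n, x⁻¹, inv_mem hx, map_inv _ _⟩ }
  have memH : ∀ n (x : GG s0 n), ψ n x ∈ H ↔ x ∈ AA s0 n := by
    intro n x
    constructor
    · rintro ⟨m, y, hy, e⟩
      exact (key _ _ _ _ e).1 hy
    · intro h; exact ⟨n, x, h, rfl⟩
  have hii : ∀ n, ψ n (ii s0 n) = ψ 0 (ii s0 0) := by
    intro n
    induction n with
    | zero => rfl
    | succ n ih => rw [← ff_i, h2, ih]
  refine ⟨L, gL, H, ψ 0 (ii s0 0), ψ 0, h1 0, rfl, ?_, ?_, ?_, ?_, ?_, ?_⟩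
  · rw [← map_mul]
    have : ii s0 0 * ii s0 0 = 1 := s0.hi
    rw [this, map_one]
  · rw [memH]
    exact s0.hiA
  · intro x hx a ha hxa
    obtain ⟨n, x', a', rfl, rfl⟩ := common x a
    rw [memH] at hx ha
    rw [← map_inv, ← map_mul, ← map_mul, memH] at hxa
    have := (sq' s0 n).s.mal x' hx a' ha hxa
    rw [this, map_one]
  · intro y
    obtain ⟨N, x, rfl⟩ := h3 y
    obtain ⟨b, hb⟩ := TT_surj s0 N x
    have hT : ∀ n, N ≤ n → ψ n (TT s0 n N b) = ψ N x := by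
      intro n hn
      induction n, hn using Nat.le_induction with
      | base => rw [hb]
      | succ n hn ih => rw [TT_step s0 n N b hn, h2, ih]
    have hn := hT (Nat.pair N b) (Nat.left_le_pair N b)
    have hp := proc s0 (Nat.pair N b)
    rw [Nat.unpair_pair] at hp
    simp only at hp
    rw [← hn, ← h2]
    rcases hp with hp | ⟨a, ha, a', ha', e⟩
    · left; rw [memH]; exact hp
    · right
      refine ⟨ψ _ a, (memH _ _).2 ha, ψ _ a', (memH _ _).2 ha', ?_⟩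
      rw [e, map_mul, map_mul, hii]
  · rintro _ ⟨n, a, ha, rfl⟩ haa
    have h4 : a * a = 1 := h1 n (by rw [map_mul, haa, map_one])
    have h5 : (⟨a, ha⟩ : AA s0 n) ^ 2 = 1 := Subtype.ext (by
      rw [pow_two]; exact h4)
    have hodd : Odd (Nat.card (AA s0 n)) := (sq' s0 n).s.odd
    have h6 : (⟨a, ha⟩ : AA s0 n) ^ Nat.card (AA s0 n) = 1 := pow_card_eq_one'
    have h10 : orderOf (⟨a, ha⟩ : AA s0 n) = 1 := by
      apply Nat.eq_one_of_dvd_coprimes (Nat.coprime_two_left.2 hodd)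
      · exact orderOf_dvd_of_pow_eq_one h5
      · exact orderOf_dvd_of_pow_eq_one h6
    have h11 := orderOf_eq_one_iff.1 h10
    have h12 : a = 1 := congrArg Subtype.val h11
    rw [h12, map_one]
  · intro s hs
    classical
    have : ∃ n, ∀ y ∈ s, ∃ x ∈ AA s0 n, ψ n x = y := by
      induction s using Finset.induction_on with
      | empty => exact ⟨0, by simp⟩
      | insert z s _ ih =>
        obtain ⟨n, hn⟩ := ih (fun y hy => hs y (Finset.mem_insert_of_mem hy))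
        obtain ⟨m, z', hz', hz⟩ := hs z (Finset.mem_insert_self _ _)
        rcases le_total n m with h | h
        · obtain ⟨k, rfl⟩ := Nat.exists_eq_add_of_le h
          refine ⟨n + k, fun y hy => ?_⟩
          rcases Finset.mem_insert.1 hy with rfl | hy
          · exact ⟨z', hz', hz⟩
          · obtain ⟨x, hx, hxy⟩ := hn y hy
            obtain ⟨x', e1, e2⟩ := up n k x
            exact ⟨x', e2.2 hx, by rw [e1, hxy]⟩
        · obtain ⟨k, rfl⟩ := Nat.exists_eq_add_of_le h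
          refine ⟨m + k, fun y hy => ?_⟩
          rcases Finset.mem_insert.1 hy with rfl | hy
          · obtain ⟨x', e1, e2⟩ := up m k z'
            exact ⟨x', e2.2 hz', by rw [e1, hz]⟩
          · exact hn y hy
    obtain ⟨n, hn⟩ := this
    have hfin : Finite (AA s0 n) := (sq' s0 n).s.fin
    refine ⟨(AA s0 n).map (ψ n), ?_, ?_⟩
    · have : Function.Surjective (fun x : AA s0 n => (⟨ψ n x, x, x.2, rfl⟩ :
          (AA s0 n).map (ψ n))) := by
        rintro ⟨_, x, hx, rfl⟩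
        exact ⟨⟨x, hx⟩, rfl⟩
      exact Finite.of_surjective _ this
    · intro y hy
      obtain ⟨x, hx, rfl⟩ := hn y hy
      exact ⟨x, hx, rfl⟩

/-- the initial stage: `S₃` with trivial point stabiliser -/
def S3 : Stage where
  G := Equiv.Perm (Fin 3)
  gG := inferInstance
  cG := inferInstance
  A := ⊥
  fin := inferInstance
  odd := by simp
  mal := by
    intro x _ a ha _
    exact Subgroup.mem_bot.1 ha
  i := Equiv.swap 0 1
  hi := by decide
  hiA := by
    rw [Subgroup.mem_bot]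
    decide

theorem exists_final : ∃ (L : Type) (_ : Group L) (H : Subgroup L) (i : L),
    i * i = 1 ∧ i ∉ H ∧
    (∀ x, x ∉ H → ∀ a ∈ H, x⁻¹ * a * x ∈ H → a = 1) ∧
    (∀ y, y ∈ H ∨ ∃ a ∈ H, ∃ a' ∈ H, y = a * i * a') ∧
    (∀ a ∈ H, a * a = 1 → a = 1) ∧
    (∀ s : Finset L, (∀ y ∈ s, y ∈ H) → ∃ K : Subgroup L, Finite K ∧ ∀ y ∈ s, y ∈ K) ∧
    ∃ c : L, (i * (c * i * c⁻¹)) * (i * (c * i * c⁻¹)) ≠ 1 := by
  obtain ⟨L, gL, H, i, ψ, h1, h2, h3, h4, h5, h6, h7, h8⟩ := exists_big S3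
  let a : S3.G := (Equiv.swap (0 : Fin 3) 1 : Equiv.Perm (Fin 3))
  let c : S3.G := (Equiv.swap (1 : Fin 3) 2 : Equiv.Perm (Fin 3))
  refine ⟨L, gL, H, i, h3, h4, h5, h6, h7, h8, ψ c, ?_⟩
  intro h
  have h2' : ψ a = i := h2
  rw [← h2'] at h
  have e : (ψ a * (ψ c * ψ a * (ψ c)⁻¹)) * (ψ a * (ψ c * ψ a * (ψ c)⁻¹)) =
      ψ ((a * (c * a * c⁻¹)) * (a * (c * a * c⁻¹))) := by
    simp only [map_mul, map_inv]
  rw [e] at h
  have h9 := h1 (h.trans (map_one ψ).symm)
  revert h9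
  change ¬ (Equiv.swap (0 : Fin 3) 1 * (Equiv.swap (1 : Fin 3) 2 * Equiv.swap (0 : Fin 3) 1 *
    (Equiv.swap (1 : Fin 3) 2)⁻¹) * (Equiv.swap (0 : Fin 3) 1 * (Equiv.swap (1 : Fin 3) 2 *
    Equiv.swap (0 : Fin 3) 1 * (Equiv.swap (1 : Fin 3) 2)⁻¹)) = 1)
  decide

end S2T
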