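import Pool.Agent.S2T.Tower

/-!
# Sharply 2-transitive permutation groups from groups with a malnormal subgroup
-/

set_option autoImplicit false

namespace S2T

section

variable {L : Type} [Group L] {H : Subgroup L} {i : L}

private theorem f_smk (g x : L) : g • ((x : L) : L ⧸ H) = ((g * x : L) : L ⧸ H) := rfl

private theorem f_mke (x y : L) : ((x : L) : L ⧸ H) = ((y : L) : L ⧸ H) ↔ x⁻¹ * y ∈ H :=
  QuotientGroup.eq

private theorem f_two (hmal : ∀ x, x ∉ H → ∀ a ∈ H, x⁻¹ * a * x ∈ H → a = 1)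
    (w : L) (a b : L ⧸ H) (hab : a ≠ b) (ha : w • a = a) (hb : w • b = b) : w = 1 := by
  obtain ⟨x, rfl⟩ := QuotientGroup.mk_surjective a
  obtain ⟨y, rfl⟩ := QuotientGroup.mk_surjective b
  rw [f_smk, f_mke] at ha hb
  have hxy : x⁻¹ * y ∉ H := fun h => hab ((f_mke x y).2 h)
  have g1 : x⁻¹ * w * x ∈ H := by
    have := inv_mem ha
    have e : ((w * x)⁻¹ * x)⁻¹ = x⁻¹ * w * x := by group
    rwa [e] at this
  have g2 : (x⁻¹ * y)⁻¹ * (x⁻¹ * w * x) * (x⁻¹ * y) ∈ H := by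
    have := inv_mem hb
    have e : ((w * y)⁻¹ * y)⁻¹ = (x⁻¹ * y)⁻¹ * (x⁻¹ * w * x) * (x⁻¹ * y) := by group
    rwa [e] at this
  have g3 := hmal _ hxy _ g1 g2
  have e : w = x * (x⁻¹ * w * x) * x⁻¹ := by group
  rw [e, g3]; group

private theorem f_fix (x y : L) : y • ((x : L) : L ⧸ H) = ((x : L) : L ⧸ H) ↔ x⁻¹ * y * x ∈ H := by
  rw [f_smk, f_mke]
  have e : ((y * x)⁻¹ * x)⁻¹ = x⁻¹ * y * x := by group
  rw [← e, inv_mem_iff]

private theorem f_tr (hdc : ∀ y, y ∈ H ∨ ∃ a ∈ H, ∃ a' ∈ H, y = a * i * a') (a b : L ⧸ H)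
    (hab : a ≠ b) : ∃ x : L, x • (((1 : L) : L ⧸ H)) = a ∧
      x • (i • (((1 : L) : L ⧸ H))) = b := by
  obtain ⟨x, rfl⟩ := QuotientGroup.mk_surjective a
  obtain ⟨y, rfl⟩ := QuotientGroup.mk_surjective b
  have hxy : x⁻¹ * y ∉ H := fun h => hab ((f_mke x y).2 h)
  rcases hdc (x⁻¹ * y) with h | ⟨h₁, hh₁, h₂, hh₂, e⟩
  · exact absurd h hxy
  · refine ⟨x * h₁, ?_, ?_⟩
    · rw [f_smk, f_mke]
      have e2 : (x * h₁ * 1)⁻¹ * x = h₁⁻¹ := by group
      rw [e2]; exact inv_mem hh₁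
    · rw [f_smk, f_smk, f_mke]
      have e2 : (x * h₁ * (i * 1))⁻¹ * y = (h₁ * i)⁻¹ * (x⁻¹ * y) := by group
      rw [e2, e]
      have e3 : (h₁ * i)⁻¹ * (h₁ * i * h₂) = h₂ := by group
      rw [e3]; exact hh₂

/-- The permutation group on the cosets, with all its properties. -/
theorem exists_perm (hii : i * i = 1) (hiH : i ∉ H)
    (hmal : ∀ x, x ∉ H → ∀ a ∈ H, x⁻¹ * a * x ∈ H → a = 1)
    (hdc : ∀ y, y ∈ H ∨ ∃ a ∈ H, ∃ a' ∈ H, y = a * i * a')
    (hodd : ∀ a ∈ H, a * a = 1 → a = 1)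
    (hlf : ∀ s : Finset L, (∀ y ∈ s, y ∈ H) → ∃ K : Subgroup L, Finite K ∧ ∀ y ∈ s, y ∈ K)
    (c : L) (hc : (i * (c * i * c⁻¹)) * (i * (c * i * c⁻¹)) ≠ 1) :
    Nontrivial (L ⧸ H) ∧ ∃ (G : Subgroup (Equiv.Perm (L ⧸ H))) (φ : L →* G),
      Function.Injective φ ∧
      (∀ a b c d : L ⧸ H, a ≠ b → c ≠ d → ∃! g : G, g • a = c ∧ g • b = d) ∧
      (∀ (ω : L ⧸ H) (K : Subgroup (MulAction.stabilizer G ω)), K.FG → Finite K) ∧
      (∀ (ω : L ⧸ H) (g : G), g • ω = ω → g * g = 1 → g = 1) ∧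
      ∀ N : Subgroup G, N.Normal → ¬ ∀ a b : L ⧸ H, ∃! n : N, (n : G) • a = b := by
  classical
  set o : L ⧸ H := ((1 : L) : L ⧸ H) with ho
  have fixo : ∀ x : L, x • o = o ↔ x ∈ H := by
    intro x
    rw [ho, f_fix, inv_one, one_mul, mul_one]
  have hio : i • o ≠ o := fun h => hiH ((fixo i).1 h)
  let ρ : L →* Equiv.Perm (L ⧸ H) := MulAction.toPermHom L (L ⧸ H)
  have hρ : ∀ (x : L) (a : L ⧸ H), ρ x a = x • a := fun _ _ => rfl
  have hinj : Function.Injective ρ := by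
    rw [injective_iff_map_eq_one]
    intro x hx
    apply f_two hmal x _ _ hio
    · rw [← hρ, hx]; rfl
    · rw [← hρ, hx]; rfl
  let e : L ≃* ρ.range := MonoidHom.ofInjective hinj
  have he : ∀ (x : L) (a : L ⧸ H), e x • a = x • a := fun _ _ => rfl
  have he' : ∀ (g : ρ.range) (a : L ⧸ H), g • a = e.symm g • a := by
    intro g a
    rw [← he, e.apply_symm_apply]
  have hsharp : ∀ a b c d : L ⧸ H, a ≠ b → c ≠ d →
      ∃! g : ρ.range, g • a = c ∧ g • b = d := by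
    intro a b c d hab hcd
    obtain ⟨x, hx1, hx2⟩ := f_tr hdc a b hab
    obtain ⟨y, hy1, hy2⟩ := f_tr hdc c d hcd
    refine ⟨e (y * x⁻¹), ⟨?_, ?_⟩, ?_⟩
    · change e (y * x⁻¹) • a = c
      rw [he, mul_smul, ← hx1, inv_smul_smul, hy1]
    · change e (y * x⁻¹) • b = d
      rw [he, mul_smul, ← hx2, inv_smul_smul, hy2]
    · rintro g ⟨hz1, hz2⟩
      rw [he'] at hz1 hz2
      have h1 : (y * x⁻¹) • a = c := by rw [mul_smul, ← hx1, inv_smul_smul, hy1]
      have h2 : (y * x⁻¹) • b = d := by rw [mul_smul, ← hx2, inv_smul_smul, hy2]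
      have h3 : (y * x⁻¹)⁻¹ * e.symm g = 1 := by
        apply f_two hmal _ a b hab
        · rw [mul_smul, hz1, ← h1, inv_smul_smul]
        · rw [mul_smul, hz2, ← h2, inv_smul_smul]
      have h4 : e.symm g = y * x⁻¹ := (inv_mul_eq_one.1 h3).symm
      rw [← h4, e.apply_symm_apply]
  refine ⟨⟨⟨i • o, o, hio⟩⟩, ρ.range, e.toMonoidHom, e.injective, hsharp, ?_, ?_, ?_⟩
  · intro ω K hK
    obtain ⟨x, rfl⟩ := QuotientGroup.mk_surjective ω
    obtain ⟨s, hs⟩ := hK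
    let τ : MulAction.stabilizer ρ.range ((x : L) : L ⧸ H) →* L :=
      (MulAut.conj x⁻¹).toMonoidHom.comp (e.symm.toMonoidHom.comp (Subgroup.subtype _))
    have hτ : ∀ g, τ g = x⁻¹ * e.symm (g : ρ.range) * x := by
      intro g
      change MulAut.conj x⁻¹ (e.symm (g : ρ.range)) = _
      rw [MulAut.conj_apply, inv_inv]
    have hτi : Function.Injective τ := by
      intro g g' h
      rw [hτ, hτ] at h
      have h1 := mul_left_cancel (mul_right_cancel h)
      exact Subtype.ext (e.symm.injective h1)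
    obtain ⟨K', hK', hsK⟩ := hlf (s.image τ) (by
      intro y hy
      rw [Finset.mem_image] at hy
      obtain ⟨g, hg, rfl⟩ := hy
      rw [hτ, ← f_fix, ← he']
      exact g.2)
    have hle : K.map τ ≤ K' := by
      rw [← hs, MonoidHom.map_closure, Subgroup.closure_le]
      rintro _ ⟨g, hg, rfl⟩
      exact hsK _ (Finset.mem_image_of_mem τ hg)
    have hf : ∀ g : K, τ g ∈ K' := fun g => hle ⟨g, g.2, rfl⟩
    exact Finite.of_injective (fun g : K => (⟨τ g, hf g⟩ : K')) fun g g' h =>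
      Subtype.ext (hτi (congrArg Subtype.val h))
  · intro ω g hg hgg
    obtain ⟨x, rfl⟩ := QuotientGroup.mk_surjective ω
    rw [he', f_fix] at hg
    have h1 : e.symm g * e.symm g = 1 := by rw [← map_mul, hgg, map_one]
    have h2 := hodd _ hg (by
      calc x⁻¹ * e.symm g * x * (x⁻¹ * e.symm g * x) = x⁻¹ * (e.symm g * e.symm g) * x := by group
        _ = 1 := by rw [h1]; group)
    have h3 : e.symm g = 1 := by
      have h4 : e.symm g = x * (x⁻¹ * e.symm g * x) * x⁻¹ := by group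
      rw [h4, h2]; group
    rw [← e.apply_symm_apply g, h3, map_one]
  · intro N hN hreg
    have conj : ∀ x y : L, e x ∈ N → e (y * x * y⁻¹) ∈ N := by
      intro x y hx
      have := hN.conj_mem (e x) hx (e y)
      rwa [← map_inv, ← map_mul, ← map_mul] at this
    have reg2 : ∀ x y : L, e x ∈ N → e y ∈ N → x • o = y • o → x = y := by
      intro x y hx hy hxy
      obtain ⟨n, _, hn⟩ := hreg o (y • o)
      have h1 := hn ⟨e x, hx⟩ hxy
      have h2 := hn ⟨e y, hy⟩ rfl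
      exact e.injective (congrArg Subtype.val (h1.trans h2.symm))
    have reg1 : ∀ x : L, e x ∈ N → x • o = o → x = 1 := by
      intro x hx hxo
      apply reg2 x 1 hx
      · rw [map_one]; exact one_mem _
      · rw [hxo, one_smul]
    have hi' : i⁻¹ = i := inv_eq_of_mul_eq_one_left hii
    have hiN : e i ∈ N := by
      obtain ⟨⟨n, hn1⟩, hn2, _⟩ := hreg o (i • o)
      obtain ⟨x, rfl⟩ := e.surjective n
      have hx : x • o = i • o := hn2
      have ha : x⁻¹ * i ∈ H := by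
        rw [← fixo, mul_smul, ← hx, inv_smul_smul]
      set a := x⁻¹ * i with ha'
      have hxa : x = i * a⁻¹ := by rw [ha']; group
      have h1 := conj x i hn1
      have h2 : e ((i * x * i⁻¹) * x) ∈ N := by rw [map_mul]; exact mul_mem h1 hn1
      have h3 : (i * x * i⁻¹) * x = a⁻¹ * a⁻¹ := by
        rw [hxa, hi']
        calc i * (i * a⁻¹) * i * (i * a⁻¹) = (i * i) * a⁻¹ * (i * i) * a⁻¹ := by group
          _ = a⁻¹ * a⁻¹ := by rw [hii]; group
      rw [h3] at h2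
      have h4 := reg1 _ h2 ((fixo _).2 (mul_mem (inv_mem ha) (inv_mem ha)))
      have h5 := hodd a⁻¹ (inv_mem ha) h4
      have h6 : x = i := by rw [hxa, h5, mul_one]
      rw [← h6]; exact hn1
    have invol : ∀ n : L, e n ∈ N → n * n = 1 := by
      intro n hn
      rcases hdc n with h | ⟨h₁, hh₁, h₂, hh₂, e1⟩
      · have := reg1 n hn ((fixo n).2 h)
        rw [this, mul_one]
      · have h3 : h₁⁻¹ * n * h₁ = i := by
          apply reg2
          · have := conj n h₁⁻¹ hn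
            rwa [inv_inv] at this
          · exact hiN
          · have e2 : h₁⁻¹ * n * h₁ = i * (h₂ * h₁) := by rw [e1]; group
            rw [e2, mul_smul, (fixo _).2 (mul_mem hh₂ hh₁)]
        have h4 : n = h₁ * i * h₁⁻¹ := by rw [← h3]; group
        rw [h4]
        calc h₁ * i * h₁⁻¹ * (h₁ * i * h₁⁻¹) = h₁ * (i * i) * h₁⁻¹ := by group
          _ = 1 := by rw [hii]; group
    apply hc
    apply invol
    rw [map_mul]
    exact mul_mem hiN (conj i c hiN)

end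

/-- A 2-transitive group without regular normal subgroup has no commutative nontrivial normal
subgroup. -/
theorem no_abelian {Ω : Type} {G : Subgroup (Equiv.Perm Ω)}
    (hs : ∀ a b c d : Ω, a ≠ b → c ≠ d → ∃! g : G, g • a = c ∧ g • b = d)
    (hr : ∀ N : Subgroup G, N.Normal → ¬ ∀ a b : Ω, ∃! n : N, (n : G) • a = b)
    (N : Subgroup G) (hN : N.Normal) (hab : ∀ x ∈ N, ∀ y ∈ N, x * y = y * x) : N = ⊥ := by
  rw [Subgroup.eq_bot_iff_forall]
  by_contra hne
  push Not at hne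
  obtain ⟨n₀, hn₀, h1⟩ := hne
  have hp : ∃ p : Ω, n₀ • p ≠ p := by
    by_contra h
    push Not at h
    apply h1
    apply Subtype.ext
    ext p
    exact h p
  obtain ⟨p, hp⟩ := hp
  have htr : ∀ a b : Ω, ∃ n ∈ N, n • a = b := by
    intro a b
    by_cases h : a = b
    · exact ⟨1, one_mem _, by rw [one_smul, h]⟩
    · obtain ⟨g, ⟨hg1, hg2⟩, _⟩ := hs p (n₀ • p) a b hp.symm h
      refine ⟨g * n₀ * g⁻¹, hN.conj_mem _ hn₀ g, ?_⟩
      rw [mul_smul, mul_smul, ← hg1, inv_smul_smul, hg2]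
  refine hr N hN fun a b => ?_
  obtain ⟨n, hn, hnab⟩ := htr a b
  refine ⟨⟨n, hn⟩, hnab, ?_⟩
  rintro ⟨m, hm⟩ hmab
  apply Subtype.ext
  apply Subtype.ext
  ext x
  obtain ⟨k, hk, hkx⟩ := htr a x
  change m • x = n • x
  have hma : m • a = b := hmab
  rw [← hkx, ← mul_smul, ← mul_smul, hab m hm k hk, hab n hn k hk, mul_smul, mul_smul, hma, hnab]

/-- The construction, starting from an arbitrary countable group. -/
theorem exists_embedding (Γ : Type) [Group Γ] [Countable Γ] :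
    ∃ (Ω : Type) (_ : Nontrivial Ω) (G : Subgroup (Equiv.Perm Ω)) (φ : Γ →* G),
      Function.Injective φ ∧
      (∀ a b c d : Ω, a ≠ b → c ≠ d → ∃! g : G, g • a = c ∧ g • b = d) ∧
      (∀ (ω : Ω) (K : Subgroup (MulAction.stabilizer G ω)), K.FG → Finite K) ∧
      (∀ (ω : Ω) (g : G), g • ω = ω → g * g = 1 → g = 1) ∧
      (∀ N : Subgroup G, N.Normal → ¬ ∀ a b : Ω, ∃! n : N, (n : G) • a = b) ∧
      ∀ N : Subgroup G, N.Normal → (∀ x ∈ N, ∀ y ∈ N, x * y = y * x) → N = ⊥ := by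
  let S : Stage :=
    { G := Γ × Equiv.Perm (Fin 3)
      gG := inferInstance
      cG := inferInstance
      A := ⊥
      fin := inferInstance
      odd := by simp
      mal := by
        intro x _ a ha _
        exact Subgroup.mem_bot.1 ha
      i := (1, Equiv.swap 0 1)
      hi := by
        rw [Prod.mk_mul_mk, mul_one]
        refine Prod.ext rfl ?_
        change (Equiv.swap (0 : Fin 3) 1 * Equiv.swap 0 1 : Equiv.Perm (Fin 3)) = 1
        decide
      hiA := by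
        rw [Subgroup.mem_bot]
        intro h
        have h1 : (Equiv.swap (0 : Fin 3) 1 : Equiv.Perm (Fin 3)) = 1 := congrArg Prod.snd h
        revert h1
        decide }
  obtain ⟨L, gL, H, i, ψ, h1, h2, h3, h4, h5, h6, h7, h8⟩ := exists_big S
  let a : S.G := ((1, Equiv.swap 0 1) : Γ × Equiv.Perm (Fin 3))
  let c : S.G := ((1, Equiv.swap 1 2) : Γ × Equiv.Perm (Fin 3))
  have hc : (i * (ψ c * i * (ψ c)⁻¹)) * (i * (ψ c * i * (ψ c)⁻¹)) ≠ 1 := by
    intro h
    have h2' : ψ a = i := h2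
    rw [← h2'] at h
    have e : (ψ a * (ψ c * ψ a * (ψ c)⁻¹)) * (ψ a * (ψ c * ψ a * (ψ c)⁻¹)) =
        ψ ((a * (c * a * c⁻¹)) * (a * (c * a * c⁻¹))) := by
      simp only [map_mul, map_inv]
    rw [e] at h
    have h9 := h1 (h.trans (map_one ψ).symm)
    have h10 := congrArg Prod.snd h9
    revert h10
    change ¬ (Equiv.swap (0 : Fin 3) 1 * (Equiv.swap (1 : Fin 3) 2 * Equiv.swap (0 : Fin 3) 1 *
      (Equiv.swap (1 : Fin 3) 2)⁻¹) * (Equiv.swap (0 : Fin 3) 1 * (Equiv.swap (1 : Fin 3) 2 *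
      Equiv.swap (0 : Fin 3) 1 * (Equiv.swap (1 : Fin 3) 2)⁻¹)) = 1)
    decide
  obtain ⟨hnt, G, φ, hφ, hs, hl, ho, hr⟩ := exists_perm h3 h4 h5 h6 h7 h8 (ψ c) hc
  refine ⟨L ⧸ H, hnt, G, (φ.comp ψ).comp (MonoidHom.inl Γ (Equiv.Perm (Fin 3))), ?_, hs, hl, ho,
    hr, no_abelian hs hr⟩
  intro x y hxy
  have h := h1 (hφ hxy)
  exact congrArg Prod.fst h

end S2T
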