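import Mathlib

set_option autoImplicit false

namespace S2T

variable {A S K : Type*} [Group A] [Group K]

/-- evaluation of a word `a₀ s₁^ε₁ a₁ s₂^ε₂ ⋯ s_k^ε_k`. -/
def ev (j : A →* K) (τ : S → K) (l : List (A × S × ℤˣ)) : K :=
  (l.map (fun p => j p.1 * τ p.2.1 ^ (p.2.2 : ℤ))).prod

@[simp] theorem ev_nil (j : A →* K) (τ : S → K) : ev j τ [] = 1 := rfl

@[simp] theorem ev_cons (j : A →* K) (τ : S → K) (p : A × S × ℤˣ) (l : List (A × S × ℤˣ)) :
    ev j τ (p :: l) = j p.1 * τ p.2.1 ^ (p.2.2 : ℤ) * ev j τ l := by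
  simp [ev]

def Red (l : List (A × S × ℤˣ)) : Prop :=
  l.IsChain (fun p q => ¬ (q.1 = 1 ∧ q.2.1 = p.2.1 ∧ q.2.2 = -p.2.2))

theorem red_head {a a' : A} {x : S × ℤˣ} {l : List (A × S × ℤˣ)} (h : Red ((a, x) :: l)) :
    Red ((a', x) :: l) := by
  unfold Red at *
  rw [List.isChain_cons] at *
  exact h

theorem red_tail {p : A × S × ℤˣ} {l : List (A × S × ℤˣ)} (h : Red (p :: l)) : Red l := by
  unfold Red at *
  rw [List.isChain_cons] at h
  exact h.2

theorem red_prefix {p q : List (A × S × ℤˣ)} (h : Red (p ++ q)) : Red p := by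
  unfold Red at *
  exact (List.isChain_append.1 h).1

/-- every element of the subgroup generated has a reduced form -/
theorem red_form (j : A →* K) (τ : S → K) {x : K}
    (hx : x ∈ Subgroup.closure (Set.range j ∪ Set.range τ)) :
    ∃ l : List (A × S × ℤˣ), Red l ∧ ∃ a, x = ev j τ l * j a := by
  have hA : ∀ (b : A) (y : K), (∃ l : List (A × S × ℤˣ), Red l ∧ ∃ a, y = ev j τ l * j a) →
      ∃ l : List (A × S × ℤˣ), Red l ∧ ∃ a, j b * y = ev j τ l * j a := by
    rintro b y ⟨l, hl, a, rfl⟩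
    cases l with
    | nil => exact ⟨[], hl, b * a, by simp⟩
    | cons p l =>
      refine ⟨(b * p.1, p.2) :: l, red_head hl, a, ?_⟩
      simp [mul_assoc]
  have hS : ∀ (s : S) (ε : ℤˣ) (y : K), (∃ l : List (A × S × ℤˣ), Red l ∧ ∃ a, y = ev j τ l * j a) →
      ∃ l : List (A × S × ℤˣ), Red l ∧ ∃ a, τ s ^ (ε : ℤ) * y = ev j τ l * j a := by
    rintro s ε y ⟨l, hl, a, rfl⟩
    cases l with
    | nil =>
      refine ⟨[(1, s, ε)], List.isChain_singleton _, a, by simp⟩
    | cons p l =>
      by_cases hp : p.1 = 1 ∧ p.2.1 = s ∧ p.2.2 = -ε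
      · refine ⟨l, red_tail hl, a, ?_⟩
        rw [ev_cons, hp.1, hp.2.1, hp.2.2]
        simp [mul_assoc]
      · refine ⟨(1, s, ε) :: p :: l, ?_, a, by simp [mul_assoc]⟩
        unfold Red at *
        rw [List.isChain_cons_cons]
        exact ⟨hp, hl⟩
  induction hx using Subgroup.closure_induction_left with
  | one => exact ⟨[], List.isChain_nil, 1, by simp⟩
  | mul_left x hx y hy ih =>
    rcases hx with ⟨a, rfl⟩ | ⟨s, rfl⟩
    · exact hA a y ih
    · have := hS s 1 y ih
      simpa using this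
  | inv_mul_cancel x hx y hy ih =>
    rcases hx with ⟨a, rfl⟩ | ⟨s, rfl⟩
    · have := hA a⁻¹ y ih
      simpa using this
    · have := hS s (-1) y ih
      simpa using this

def Deep (n : ℕ) (ι : A →* K) (f : S → K) : Prop :=
  ∀ l : List (A × S × ℤˣ), Red l → l ≠ [] → l.length < n → ev ι f l ∉ ι.range

section step

open scoped Classical in
/-- the new letters in the wreath product -/
noncomputable def newf (f : S → K) (s : S) : RegularWreathProduct (S → Multiplicative (ZMod 3)) K :=
  ⟨Pi.mulSingle 1 (Pi.mulSingle s (Multiplicative.ofAdd 1)), f s⟩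

def newi (ι : A →* K) : A →* RegularWreathProduct (S → Multiplicative (ZMod 3)) K :=
  RegularWreathProduct.inl.comp ι

variable (ι : A →* K) (f : S → K)

theorem newf_pow_right (s : S) (ε : ℤˣ) : (newf f s ^ (ε : ℤ)).right = f s ^ (ε : ℤ) := by
  rcases Int.units_eq_one_or ε with rfl | rfl <;> simp [newf]

theorem ev_right (l : List (A × S × ℤˣ)) : (ev (newi ι) (newf f) l).right = ev ι f l := by
  induction l with
  | nil => simp
  | cons p l ih =>
    rw [ev_cons, ev_cons, RegularWreathProduct.mul_right, RegularWreathProduct.mul_right, ih,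
      newf_pow_right]
    rfl

theorem ev_left_cons (a : A) (s : S) (ε : ℤˣ) (l : List (A × S × ℤˣ)) (c : K) (s' : S) :
    (ev (newi ι) (newf f) ((a, s, ε) :: l)).left c s' =
      (newf f s ^ (ε : ℤ)).left ((ι a)⁻¹ * c) s' *
        (ev (newi ι) (newf f) l).left ((ι a * f s ^ (ε : ℤ))⁻¹ * c) s' := by
  rw [ev_cons, RegularWreathProduct.mul_left]
  simp only [Pi.mul_apply, RegularWreathProduct.mul_left, RegularWreathProduct.mul_right,
    newf_pow_right]
  simp [newi]

theorem newf_left_one (s s' : S) (c : K) (h : (newf f s ^ (((1 : ℤˣ)) : ℤ)).left c s' ≠ 1) :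
    s' = s ∧ c = 1 := by
  classical
  simp only [newf, Units.val_one, zpow_one] at h
  by_cases hc : c = 1
  · subst hc
    rw [Pi.mulSingle_eq_same] at h
    by_cases hs : s' = s
    · exact ⟨hs, rfl⟩
    · rw [Pi.mulSingle_eq_of_ne hs] at h
      exact absurd rfl h
  · rw [Pi.mulSingle_eq_of_ne hc] at h
    exact absurd rfl h

theorem newf_left_neg (s s' : S) (c : K) (h : (newf f s ^ (((-1 : ℤˣ)) : ℤ)).left c s' ≠ 1) :
    s' = s ∧ f s * c = 1 := by
  classical
  have e : (newf f s ^ (((-1 : ℤˣ)) : ℤ)).left c s' = ((newf f s).left (f s * c) s')⁻¹ := by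
    simp [newf]
  rw [e] at h
  have h' : (newf f s ^ (((1 : ℤˣ)) : ℤ)).left (f s * c) s' ≠ 1 := by
    simpa using h
  exact newf_left_one f s s' _ h'

theorem newf_left_same (s : S) : (newf f s ^ (((1 : ℤˣ)) : ℤ)).left 1 s ≠ 1 := by
  classical
  simp only [newf, Units.val_one, zpow_one]
  rw [Pi.mulSingle_eq_same, Pi.mulSingle_eq_same]
  decide

theorem newf_left_same' (s : S) : (newf f s ^ (((-1 : ℤˣ)) : ℤ)).left (f s)⁻¹ s ≠ 1 := by
  classical
  have e : (newf f s ^ (((-1 : ℤˣ)) : ℤ)).left (f s)⁻¹ s = ((newf f s).left 1 s)⁻¹ := by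
    simp [newf]
  rw [e, Ne, inv_eq_one]
  have := newf_left_same f s
  simpa using this

theorem coef (l : List (A × S × ℤˣ)) : ∀ (c : K) (s : S), (ev (newi ι) (newf f) l).left c s ≠ 1 →
    ∃ (p : List (A × S × ℤˣ)) (a : A) (ε : ℤˣ) (q : List (A × S × ℤˣ)), l = p ++ (a, s, ε) :: q ∧
      ((ε = 1 ∧ ev ι f p * ι a = c) ∨ (ε = -1 ∧ ev ι f p * ι a = c * f s)) := by
  induction l with
  | nil =>
    intro c s h
    exact absurd rfl h
  | cons x l ih =>
    obtain ⟨a, s', ε⟩ := x
    intro c s h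
    rw [ev_left_cons] at h
    by_cases h1 : (newf f s' ^ (ε : ℤ)).left ((ι a)⁻¹ * c) s = 1
    · rw [h1, one_mul] at h
      obtain ⟨p, b, η, q, hl, hh⟩ := ih _ _ h
      refine ⟨(a, s', ε) :: p, b, η, q, by rw [hl]; rfl, ?_⟩
      rcases hh with ⟨e1, e2⟩ | ⟨e1, e2⟩
      · left
        refine ⟨e1, ?_⟩
        rw [ev_cons, mul_assoc, e2]; group
      · right
        refine ⟨e1, ?_⟩
        rw [ev_cons, mul_assoc, e2]; group
    · rcases Int.units_eq_one_or ε with rfl | rfl
      · obtain ⟨e1, e2⟩ := newf_left_one f s' s _ h1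
        subst e1
        refine ⟨[], a, 1, l, rfl, Or.inl ⟨rfl, ?_⟩⟩
        simp only [ev_nil, one_mul]
        exact (inv_mul_eq_one.1 e2)
      · obtain ⟨e1, e2⟩ := newf_left_neg f s' s _ h1
        subst e1
        refine ⟨[], a, -1, l, rfl, Or.inr ⟨rfl, ?_⟩⟩
        simp only [ev_nil, one_mul]
        have e3 : (ι a)⁻¹ * c = (f s)⁻¹ := by
          rw [eq_inv_iff_mul_eq_one]
          have := mul_eq_one_iff_eq_inv.1 e2
          rw [this, mul_inv_cancel]
        have e4 : c = ι a * (f s)⁻¹ := by rw [← e3]; group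
        rw [e4]; group

theorem deep_succ {n : ℕ} (hι : Function.Injective ι) (h : Deep n ι f) :
    Deep (n + 1) (newi ι) (newf f) := by
  intro l hl hne hlen hmem
  obtain ⟨a', ha'⟩ := hmem
  have hleft : (ev (newi ι) (newf f) l).left = 1 := by
    rw [← ha']; rfl
  cases l with
  | nil => exact hne rfl
  | cons x l =>
    obtain ⟨a, s, ε⟩ := x
    have hredl := red_tail hl
    -- consequences of depth
    have hp : ∀ (p : List (A × S × ℤˣ)) (b : A) (η : ℤˣ) (q : List (A × S × ℤˣ)),
        l = p ++ (b, s, η) :: q → ev ι f p * ι b = 1 → p = [] ∧ b = 1 := by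
      intro p b η q hpq e
      by_cases hpn : p = []
      · subst hpn
        refine ⟨rfl, hι ?_⟩
        rw [map_one]
        simpa using e
      · exfalso
        refine h p (red_prefix (hpq ▸ hredl)) hpn ?_ ⟨b⁻¹, ?_⟩
        · rw [List.length_cons, hpq, List.length_append, List.length_cons] at hlen
          omega
        · rw [map_inv]
          exact (eq_inv_of_mul_eq_one_left e).symm
    have hp' : ∀ (p : List (A × S × ℤˣ)) (b : A) (η : ℤˣ) (q : List (A × S × ℤˣ)),
        l = p ++ (b, s, η) :: q → f s ^ (ε : ℤ) * (ev ι f p * ι b) = 1 → False := by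
      intro p b η q hpq e
      refine h ((1, s, ε) :: p) ?_ (by simp) ?_ ⟨b⁻¹, ?_⟩
      · have h1 : Red ((a, s, ε) :: p ++ (b, s, η) :: q) := by
          rw [List.cons_append, ← hpq]; exact hl
        exact red_head (red_prefix h1)
      · rw [List.length_cons, hpq, List.length_append, List.length_cons] at hlen
        rw [List.length_cons]
        omega
      · rw [map_inv, ev_cons]
        simp only [map_one, one_mul]
        rw [← mul_assoc] at e
        exact (eq_inv_of_mul_eq_one_left e).symm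
    rcases Int.units_eq_one_or ε with rfl | rfl
    · -- edge at `ι a`
      have h1 := congrFun (congrFun hleft (ι a)) s
      rw [ev_left_cons] at h1
      have e1 : (ι a)⁻¹ * ι a = 1 := by group
      have e2 : (ι a * f s ^ (((1 : ℤˣ)) : ℤ))⁻¹ * ι a = (f s)⁻¹ := by simp
      rw [e1, e2] at h1
      have h2 : (ev (newi ι) (newf f) l).left (f s)⁻¹ s ≠ 1 := by
        intro h3
        rw [h3, mul_one] at h1
        exact newf_left_same f s h1
      obtain ⟨p, b, η, q, hpq, hh⟩ := coef ι f l _ _ h2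
      rcases hh with ⟨e1, e2⟩ | ⟨e1, e2⟩
      · apply hp' p b η q hpq
        rw [e2]; simp
      · rw [inv_mul_cancel] at e2
        obtain ⟨p0, b0⟩ := hp p b η q hpq e2
        subst p0 b0 e1
        rw [hpq] at hl
        unfold Red at hl
        rw [List.nil_append, List.isChain_cons_cons] at hl
        exact hl.1 ⟨rfl, rfl, rfl⟩
    · have h1 := congrFun (congrFun hleft (ι a * (f s)⁻¹)) s
      rw [ev_left_cons] at h1
      have e1 : (ι a)⁻¹ * (ι a * (f s)⁻¹) = (f s)⁻¹ := by group
      have e2 : (ι a * f s ^ (((-1 : ℤˣ)) : ℤ))⁻¹ * (ι a * (f s)⁻¹) = 1 := by simp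
      rw [e1, e2] at h1
      have h2 : (ev (newi ι) (newf f) l).left 1 s ≠ 1 := by
        intro h3
        rw [h3, mul_one] at h1
        exact newf_left_same' f s h1
      obtain ⟨p, b, η, q, hpq, hh⟩ := coef ι f l _ _ h2
      rcases hh with ⟨e1, e2⟩ | ⟨e1, e2⟩
      · obtain ⟨p0, b0⟩ := hp p b η q hpq e2
        subst p0 b0 e1
        rw [hpq] at hl
        unfold Red at hl
        rw [List.nil_append, List.isChain_cons_cons] at hl
        exact hl.1 ⟨rfl, rfl, by simp⟩
      · apply hp' p b η q hpq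
        rw [e2]; simp

end step

theorem girth (A : Type) [Group A] [Finite A] (hA : Odd (Nat.card A)) (S : Type) [Finite S]
    (n : ℕ) : ∃ (B : Type) (_ : Group B) (ι : A →* B) (f : S → B), Function.Injective ι ∧
      Finite B ∧ Odd (Nat.card B) ∧ Deep n ι f := by
  induction n with
  | zero =>
    exact ⟨A, inferInstance, MonoidHom.id A, fun _ => 1, Function.injective_id, inferInstance, hA,
      fun l _ _ h => absurd h (by omega)⟩
  | succ n ih =>
    obtain ⟨B, gB, ι, f, h1, h2, h3, h4⟩ := ih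
    refine ⟨RegularWreathProduct (S → Multiplicative (ZMod 3)) B, inferInstance, newi ι, newf f,
      ?_, ?_, ?_, deep_succ ι f h1 h4⟩
    · intro a b hab
      apply h1
      exact congrArg RegularWreathProduct.right hab
    · have : Finite (Multiplicative (ZMod 3)) := inferInstanceAs (Finite (ZMod 3))
      infer_instance
    · rw [RegularWreathProduct.card]
      have e : Nat.card (S → Multiplicative (ZMod 3)) = 3 ^ Nat.card S := by
        rw [Nat.card_fun]
        congr 1
        have : Nat.card (Multiplicative (ZMod 3)) = Nat.card (ZMod 3) := rfl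
        rw [this, Nat.card_zmod]
      rw [e]
      exact ((Odd.pow (Odd.pow (by decide))).mul h3)

end S2T
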