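import Pool.Agent.S2T.Windmill2

set_option autoImplicit false

namespace S2T

open TreeDist

variable {Γ V F : Type*} [Group Γ] [MulAction Γ V] [MulAction Γ F]

namespace Faces

/-- the normal subgroup generated by all rotations -/
def M (D : Faces Γ V F) : Subgroup Γ := Subgroup.closure {g | ∃ c, g ∈ D.K c}

theorem K_le_M (D : Faces Γ V F) (c : F) : D.K c ≤ D.M :=
  fun _ hg => Subgroup.subset_closure ⟨c, hg⟩

theorem M_normal (D : Faces Γ V F) : D.M.Normal := by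
  constructor
  intro n hn g
  unfold M at *
  induction hn using Subgroup.closure_induction with
  | mem x hx =>
    obtain ⟨c, hc⟩ := hx
    exact Subgroup.subset_closure ⟨g • c, D.Kconj g c x hc⟩
  | one => simp
  | mul x y _ _ hx hy =>
    have : g * (x * y) * g⁻¹ = (g * x * g⁻¹) * (g * y * g⁻¹) := by group
    rw [this]; exact mul_mem hx hy
  | inv x _ hx =>
    have : g * x⁻¹ * g⁻¹ = (g * x * g⁻¹)⁻¹ := by group
    rw [this]; exact inv_mem hx

variable (D : Faces Γ V F) (c₀ : F)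

/-- the initial windmill -/
def initMill : Mill D (MulAction.stabilizer Γ c₀) D.M where
  W := D.Y c₀
  N := D.K c₀
  C := {c₀}
  w0 := D.Yconv c₀
  w0' := D.Yne c₀
  w1 := fun n hn x hx => Kpres hn hx
  w1' := by
    intro n hn c hc
    rw [Set.mem_singleton_iff] at *
    subst hc
    exact D.Kfix c n hn
  w2 := by
    intro c hc
    rw [Set.mem_singleton_iff] at *
    subst hc
    exact subset_rfl
  w2' := by
    intro c hc
    rw [Set.mem_singleton_iff] at *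
    subst hc
    exact le_rfl
  w3 := by
    intro c hc x hx y hy hxW hyW
    rw [Set.mem_singleton_iff] at *
    have := D.A1 c c₀ x y hc hx hxW hy hyW
    omega
  w4 := by
    intro n hn hn1 v hv
    have := D.A3 c₀ n hn hn1 v hv
    omega
  w5 := by
    intro c hc n hn v _ _
    rw [Set.mem_singleton_iff] at *
    subst hc
    exact hn
  w6 := by
    intro u _ c _ _ d₁ h1 d₂ h2 d₃ h3 _ _ _
    rw [Set.mem_singleton_iff] at *
    left; rw [h1, h2]
  w7 := fun x hx => ⟨c₀, Set.mem_singleton _, hx⟩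
  w8 := by
    intro h hh x hx
    have := D.Ysmul h c₀ x hx
    rwa [MulAction.mem_stabilizer_iff.1 hh] at this
  w8' := by
    intro h hh c hc
    rw [Set.mem_singleton_iff] at *
    subst hc
    exact MulAction.mem_stabilizer_iff.1 hh
  w8'' := by
    intro h hh n hn
    have := D.Kconj h c₀ n hn
    rwa [MulAction.mem_stabilizer_iff.1 hh] at this
  w9 := D.K_le_M c₀

/-- the sequence of windmills -/
def mills : ℕ → Mill D (MulAction.stabilizer Γ c₀) D.M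
  | 0 => D.initMill c₀
  | n + 1 => Mill.next D.K_le_M (mills n)

theorem mills_W (k : ℕ) : ((D.mills c₀) (k+1)).W = ((D.mills c₀) k).W' := rfl
theorem mills_N (k : ℕ) : ((D.mills c₀) (k+1)).N = ((D.mills c₀) k).N' := rfl
theorem mills_C (k : ℕ) : ((D.mills c₀) (k+1)).C = ((D.mills c₀) k).C' := rfl

theorem mono_W : Monotone fun k => (D.mills c₀ k).W := by
  apply monotone_nat_of_le_succ
  intro k x hx
  exact Mill.Wh_sub_W' (Mill.W_sub_Wh hx)

theorem mono_C : Monotone fun k => (D.mills c₀ k).C := by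
  apply monotone_nat_of_le_succ
  intro k x hx
  exact Mill.E_sub_C' (Or.inl hx)

theorem mono_N : Monotone fun k => (D.mills c₀ k).N := by
  apply monotone_nat_of_le_succ
  intro k
  exact Mill.N_le_N'

theorem exhaust_W (x : V) : ∃ k, x ∈ (D.mills c₀ k).W := by
  obtain ⟨v₀, hv₀⟩ := D.Yne c₀
  suffices h : ∀ (n : ℕ) (x : V), D.T.d x v₀ = n → ∃ k, x ∈ (D.mills c₀ k).W from h _ x rfl
  intro n
  induction n with
  | zero =>
    intro x hx
    have := D.T.eq_of_d _ _ hx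
    subst this
    exact ⟨0, hv₀⟩
  | succ n ih =>
    intro x hx
    have hne : x ≠ v₀ := by
      intro h; subst h; rw [D.T.d_self] at hx; omega
    obtain ⟨w, hw1, hw2⟩ := D.T.disc x v₀ hne
    obtain ⟨k, hk⟩ := ih w (by omega)
    obtain ⟨c, hxc, hwc⟩ := D.A2' x w hw1
    refine ⟨k + 1, Mill.Wh_sub_W' ⟨c, ?_, hxc⟩⟩
    by_cases h : c ∈ (D.mills c₀ k).C
    · exact Or.inl h
    · exact Or.inr ⟨h, w, hwc, hk⟩

theorem exhaust_C (c : F) : ∃ k, c ∈ (D.mills c₀ k).C := by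
  obtain ⟨x, hx⟩ := D.Yne c
  obtain ⟨k, hk⟩ := exhaust_W D c₀ x
  refine ⟨k + 1, Mill.E_sub_C' ?_⟩
  by_cases h : c ∈ (D.mills c₀ k).C
  · exact Or.inl h
  · exact Or.inr ⟨h, x, hx, hk⟩

theorem exhaust_M {g : Γ} (hg : g ∈ D.M) : ∃ k, g ∈ (D.mills c₀ k).N := by
  unfold M at hg
  induction hg using Subgroup.closure_induction with
  | mem x hx =>
    obtain ⟨c, hc⟩ := hx
    obtain ⟨k, hk⟩ := exhaust_C D c₀ c
    exact ⟨k, (D.mills c₀ k).w2' c hk hc⟩
  | one => exact ⟨0, one_mem _⟩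
  | mul x y _ _ hx hy =>
    obtain ⟨k, hk⟩ := hx
    obtain ⟨l, hl⟩ := hy
    exact ⟨max k l, mul_mem (mono_N D c₀ (le_max_left k l) hk) (mono_N D c₀ (le_max_right k l) hl)⟩
  | inv x _ hx =>
    obtain ⟨k, hk⟩ := hx
    exact ⟨k, inv_mem hk⟩

theorem concl1 {n : Γ} (hn : n ∈ D.M) (hn1 : n ≠ 1) (v : V) : n • v ≠ v := by
  obtain ⟨c₀, -, -⟩ : ∃ c : F, True ∧ True := by
    by_contra hF
    apply hn1
    have : D.M = ⊥ := by
      unfold M
      rw [Subgroup.closure_eq_bot_iff]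
      rintro x ⟨c, _⟩
      exact absurd ⟨c, trivial, trivial⟩ hF
    rw [this] at hn
    exact Subgroup.mem_bot.1 hn
  obtain ⟨k, hk⟩ := exhaust_M D c₀ hn
  obtain ⟨l, hl⟩ := exhaust_W D c₀ v
  have := (D.mills c₀ (max k l)).w4 n (mono_N D c₀ (le_max_left k l) hk) hn1 v
    (mono_W D c₀ (le_max_right k l) hl)
  intro h
  rw [h, D.T.d_self] at this
  omega

theorem concl2 {n : Γ} (hn : n ∈ D.M) (c : F) {v : V} (hv : v ∈ D.Y c) (hnv : n • v ∈ D.Y c) :
    n ∈ D.K c := by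
  obtain ⟨k, hk⟩ := exhaust_M D c hn
  obtain ⟨l, hl⟩ := exhaust_C D c c
  exact (D.mills c (max k l)).w5 c (mono_C D c (le_max_right k l) hl) n
    (mono_N D c (le_max_left k l) hk) v hv hnv

theorem concl3' {k : ℕ} {c : F} (hc : c ∈ (D.mills c₀ k).Dn) {γ h n : Γ} (hγ : γ • c = c)
    (hh : h ∈ MulAction.stabilizer Γ c₀) (hn : n ∈ D.M) (e : γ = h * n) : γ ^ 4 ∈ D.M := by
  have hnc : n • c = h⁻¹ • c := by
    rw [eq_inv_smul_iff, ← mul_smul, ← e]; exact hγ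
  have hncD : n • c ∈ (D.mills c₀ k).Dn := by
    rw [hnc]; exact Mill.H_Dn (inv_mem hh) hc
  obtain ⟨v, hv⟩ := D.Yne c
  have hnv := D.Ysmul n c v hv
  -- descend
  have desc : ∀ j, n ∈ (D.mills c₀ (k + 1 + j)).N → n ∈ (D.mills c₀ (k + 1)).N := by
    intro j
    induction j with
    | zero => intro h; exact h
    | succ j ih =>
      intro hj
      apply ih
      have hcC : c ∈ (D.mills c₀ (k + 1 + j)).C :=
        mono_C D c₀ (by omega : k + 1 ≤ k + 1 + j) (Mill.E_sub_C' (Or.inr hc))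
      have hncC : n • c ∈ (D.mills c₀ (k + 1 + j)).C :=
        mono_C D c₀ (by omega : k + 1 ≤ k + 1 + j) (Mill.E_sub_C' (Or.inr hncD))
      have hj' : n ∈ (D.mills c₀ (k + 1 + j)).N' := hj
      obtain ⟨κ', h1, ν, h2, κ, h3, h4⟩ := Mill.lemR hj' (Or.inl hcC) (Or.inl hncC) hv hnv
      rw [h4]
      exact mul_mem (mul_mem ((D.mills c₀ (k+1+j)).w2' _ hncC h1) h2)
        ((D.mills c₀ (k+1+j)).w2' _ hcC h3)
  have hnN : n ∈ (D.mills c₀ k).N' := by
    obtain ⟨l, hl⟩ := exhaust_M D c₀ hn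
    have := desc l (mono_N D c₀ (by omega : l ≤ k + 1 + l) hl)
    exact this
  obtain ⟨κ', h1, ν, h2, κ, h3, h4⟩ := Mill.lemR hnN (Or.inr hc) (Or.inr hncD) hv hnv
  have e1 : ν • c = n • c := by
    have a1 : n • c = κ' • ν • c := by
      rw [h4, mul_smul, mul_smul, D.Kfix c κ h3]
    have a2 : κ'⁻¹ • n • c = n • c := D.Kfix _ _ (inv_mem h1)
    calc ν • c = κ'⁻¹ • κ' • ν • c := (inv_smul_smul _ _).symm
      _ = κ'⁻¹ • n • c := by rw [a1]
      _ = n • c := a2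
  have h5 : ν⁻¹ * κ' * ν ∈ D.K c := by
    apply Kconj'
    rw [e1]; exact h1
  set κ₁ := ν⁻¹ * κ' * ν * κ with hκ₁
  have h6 : κ₁ ∈ D.K c := mul_mem h5 h3
  have e2 : n = ν * κ₁ := by rw [h4, hκ₁]; group
  set β := h * ν with hβ
  have e3 : γ = β * κ₁ := by rw [e, e2, hβ]; group
  have hβc : β • c = c := by
    have : β = γ * κ₁⁻¹ := by rw [e3]; group
    rw [this, mul_smul, D.Kfix c _ (inv_mem h6)]; exact hγ
  have hβW : ∀ x ∈ (D.mills c₀ k).W, β • x ∈ (D.mills c₀ k).W := by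
    intro x hx
    rw [hβ, mul_smul]
    exact (D.mills c₀ k).w8 h hh _ ((D.mills c₀ k).w1 ν h2 x hx)
  have hβC : ∀ x ∈ (D.mills c₀ k).C, β • x ∈ (D.mills c₀ k).C := by
    intro x hx
    rw [hβ, mul_smul]
    exact (D.mills c₀ k).w8' h hh _ ((D.mills c₀ k).w1' ν h2 x hx)
  have hβW' : ∀ x ∈ (D.mills c₀ k).W, β⁻¹ • x ∈ (D.mills c₀ k).W := by
    intro x hx
    rw [hβ, mul_inv_rev, mul_smul]
    exact (D.mills c₀ k).w1 _ (inv_mem h2) _ ((D.mills c₀ k).w8 _ (inv_mem hh) x hx)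
  have hβY : ∀ x ∈ D.Y c, β • x ∈ D.Y c := by
    intro x hx
    have := D.Ysmul β c x hx
    rwa [hβc] at this
  have hβY' : ∀ x ∈ D.Y c, β⁻¹ • x ∈ D.Y c := by
    intro x hx
    have := D.Ysmul β⁻¹ c x hx
    rwa [inv_smul_eq_iff.2 hβc.symm] at this
  obtain ⟨u, ⟨huc, huW⟩, hu⟩ := center (T := D.T) (I := D.Y c ∩ (D.mills c₀ k).W)
    (by
      intro x hx y hy z hz
      exact ⟨D.Yconv c x hx.1 y hy.1 z hz, (D.mills c₀ k).w0 x hx.2 y hy.2 z hz⟩)
    (by
      obtain ⟨_, w, hw1, hw2⟩ := hc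
      exact ⟨w, hw1, hw2⟩) 4
    (fun x hx y hy => (D.mills c₀ k).w3 c hc.1 x hx.1 y hy.1 hx.2 hy.2)
    (fun x => β • x) (fun x y => D.iso β x y) (fun x hx => ⟨hβY x hx.1, hβW x hx.2⟩)
    (fun z hz => ⟨β⁻¹ • z, ⟨hβY' z hz.1, hβW' z hz.2⟩, smul_inv_smul β z⟩)
  obtain ⟨d, hd, hud⟩ := (D.mills c₀ k).w7 u huW
  have hb2 : ∀ e ∈ (D.mills c₀ k).C, u ∈ D.Y e → β • β • e ∈ (D.mills c₀ k).C ∧
      u ∈ D.Y (β • β • e) := by
    intro e he hue
    refine ⟨hβC _ (hβC e he), ?_⟩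
    have := D.Ysmul β _ _ (D.Ysmul β e u hue)
    rwa [hu] at this
  obtain ⟨q1, q2⟩ := hb2 d hd hud
  obtain ⟨r1, r2⟩ := hb2 _ q1 q2
  have hd4 : β • β • β • β • d = d := by
    rcases (D.mills c₀ k).w6 u huW c hc.1 huc d hd _ q1 _ r1 hud q2 r2 with h | h | h
    · rw [← h, ← h]
    · exact h.symm
    · have h' := MulAction.injective β (MulAction.injective β h)
      rw [← h', ← h']
  have hβ4 : β ^ 4 = 1 := by
    refine D.A4 c d (β ^ 4) u ?_ ?_ ?_ huc hud ?_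
    · intro h; apply hc.1; rw [h]; exact hd
    · rw [pow_succ, pow_succ, pow_succ, pow_one, mul_smul, mul_smul, mul_smul, hβc, hβc, hβc, hβc]
    · rw [pow_succ, pow_succ, pow_succ, pow_one, mul_smul, mul_smul, mul_smul]; exact hd4
    · rw [pow_succ, pow_succ, pow_succ, pow_one, mul_smul, mul_smul, mul_smul, hu, hu]
  have := D.M_normal
  rw [← QuotientGroup.eq_one_iff (N := D.M)]
  have hκM : ((κ₁ : Γ) : Γ ⧸ D.M) = 1 := (QuotientGroup.eq_one_iff _).2 (D.K_le_M c h6)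
  rw [e3, QuotientGroup.mk_pow, QuotientGroup.mk_mul, hκM, mul_one, ← QuotientGroup.mk_pow, hβ4]
  rfl

theorem concl3 {c : F} (hc : ∀ n ∈ D.M, n • c ≠ c₀) {γ h n : Γ} (hγ : γ • c = c)
    (hh : h ∈ MulAction.stabilizer Γ c₀) (hn : n ∈ D.M) (e : γ = h * n) : γ ^ 4 ∈ D.M := by
  classical
  have hMn := D.M_normal
  have hex : ∃ k, ∃ n ∈ D.M, n • c ∈ (D.mills c₀ k).C := by
    obtain ⟨k, hk⟩ := exhaust_C D c₀ c
    exact ⟨k, 1, one_mem _, by simpa using hk⟩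
  obtain ⟨n₁, hn₁, hn₁c⟩ := Nat.find_spec hex
  have hmin : ∀ j, (∃ n ∈ D.M, n • c ∈ (D.mills c₀ j).C) → Nat.find hex ≤ j :=
    fun j hj => Nat.find_min' hex hj
  generalize Nat.find hex = k at *
  cases k with
  | zero =>
    exfalso
    exact hc n₁ hn₁ hn₁c
  | succ k =>
    obtain ⟨g, hg, hgc⟩ : n₁ • c ∈ (D.mills c₀ k).C' := hn₁c
    have hgM : g ∈ D.M := (D.mills c₀ (k+1)).w9 hg
    have hgn : g * n₁ ∈ D.M := mul_mem hgM hn₁
    have hgnc : (g * n₁) • c ∈ (D.mills c₀ k).Dn := by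
      rw [mul_smul]
      rcases hgc with h1 | h1
      · exfalso
        have := hmin k ⟨g * n₁, hgn, by rw [mul_smul]; exact h1⟩
        omega
      · exact h1
    have h1 := concl3' D c₀ hgnc (γ := (g * n₁) * γ * (g * n₁)⁻¹) (h := h)
      (n := (h⁻¹ * (g * n₁) * h) * n * (g * n₁)⁻¹)
      (by rw [mul_smul, inv_smul_smul, mul_smul, hγ])
      hh
      (by
        refine mul_mem (mul_mem ?_ hn) (inv_mem hgn)
        have := hMn.conj_mem _ hgn h⁻¹
        simpa using this)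
      (by rw [e]; group)
    have h2 : γ ^ 4 = (g * n₁)⁻¹ * ((g * n₁) * γ * (g * n₁)⁻¹) ^ 4 * (g * n₁) := by
      rw [conj_pow]; group
    rw [h2]
    have := hMn.conj_mem _ h1 (g * n₁)⁻¹
    simpa using this

end Faces

end S2T
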