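import Pool.Agent.S2T.HNNTree
import Pool.Agent.S2T.Girth
import Pool.Agent.S2T.Windmill3

set_option autoImplicit false

namespace S2T

open HNNExtension

/-- Data for one step of the construction. -/
structure SD (G : Type) [Group G] where
  A : Subgroup G
  P : Subgroup G
  Q : Subgroup G
  φ : P ≃* Q
  S : Type
  e : S → G
  r : S → G
  s0 : S
  es0 : e s0 = 1
  rs0 : r s0 = 1
  i : G
  g : G
  hi : i * i = 1
  hg : g ∉ A
  hmal : ∀ x, x ∉ A → ∀ a ∈ A, x⁻¹ * a * x ∈ A → a = 1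
  hgi : ∀ a ∈ A, ∀ a' ∈ A, g ≠ a * i * a'
  hQ : ∀ a ∈ A, ∀ s s', e s * a * (e s')⁻¹ ∈ Q → a = 1 ∧ s = s'
  hP : ∀ a ∈ A, ∀ s s', r s * a * (r s')⁻¹ ∈ P → a = 1 ∧ s = s'
  hfQ : ∀ x, ∀ a ∈ A, ∀ s, x * a * (e s)⁻¹ ∈ Q → x ∈ A ∨ g⁻¹ * x ∈ A
  hfP : ∀ x, ∀ a ∈ A, ∀ s, x * a * (r s)⁻¹ ∈ P → x ∈ A ∨ i⁻¹ * x ∈ A
  hstar : ∀ b, g⁻¹ * b ∈ A → b * g ∈ A → b ∈ Q
  B : Type
  gB : Group B
  ι : A →* B
  f : S → B
  hι : Function.Injective ι
  finB : Finite B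
  oddB : Odd (Nat.card B)
  deep : Deep 20 ι f

namespace SD

variable {G : Type} [Group G] (D : SD G)

instance : Group D.B := D.gB

abbrev Γ : Type := HNNExtension G D.P D.Q D.φ

abbrev V : Type := Vert D.φ

/-- the letters -/
def τ (s : D.S) : D.Γ := of (D.e s)⁻¹ * t * of (D.r s)

def j : D.A →* D.Γ := of.comp D.A.subtype

theorem j_apply (a : D.A) : D.j a = of (a : G) := rfl

abbrev o : D.V := v0 D.φ

theorem of_o (x : G) : (of x : D.Γ) • D.o = D.o := of_smul_v0 D.φ x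

theorem j_o (a : D.A) : D.j a • D.o = D.o := of_smul_v0 D.φ _

theorem τ_o (s : D.S) : D.τ s • D.o = (of (D.e s)⁻¹ * t : D.Γ) • D.o := by
  unfold τ
  rw [mul_smul (of (D.e s)⁻¹ * t : D.Γ), of_o]

theorem τ_inv_o (s : D.S) : (D.τ s)⁻¹ • D.o = (of (D.r s)⁻¹ * t⁻¹ : D.Γ) • D.o := by
  unfold τ
  have : (of (D.e s)⁻¹ * t * of (D.r s) : D.Γ)⁻¹ = of (D.r s)⁻¹ * t⁻¹ * of (D.e s) := by
    simp [mul_assoc]
  rw [this, mul_smul (of (D.r s)⁻¹ * t⁻¹ : D.Γ), of_o]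

theorem j_mul_τ_o (a : D.A) (s : D.S) : (D.j a * D.τ s) • D.o =
    (of ((a : G) * (D.e s)⁻¹) * t : D.Γ) • D.o := by
  rw [mul_smul, τ_o, ← mul_smul, j_apply, map_mul, mul_assoc]

theorem j_mul_τ_inv_o (a : D.A) (s : D.S) : (D.j a * (D.τ s)⁻¹) • D.o =
    (of ((a : G) * (D.r s)⁻¹) * t⁻¹ : D.Γ) • D.o := by
  rw [mul_smul, τ_inv_o, ← mul_smul, j_apply, map_mul, mul_assoc]

/-- property (★★) -/
theorem starstar (a : D.A) (s s' : D.S) (ε ε' : ℤˣ)
    (h : D.τ s ^ (ε : ℤ) • D.o = (D.j a * D.τ s' ^ (ε' : ℤ)) • D.o) :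
    a = 1 ∧ s' = s ∧ ε' = ε := by
  rcases Int.units_eq_one_or ε with rfl | rfl <;> rcases Int.units_eq_one_or ε' with rfl | rfl
  · simp only [Units.val_one, zpow_one] at h
    rw [τ_o, j_mul_τ_o, out_eq_iff] at h
    have h2 : D.e s * (a : G) * (D.e s')⁻¹ ∈ D.Q := by
      have e : ((D.e s)⁻¹)⁻¹ * ((a : G) * (D.e s')⁻¹) = D.e s * (a : G) * (D.e s')⁻¹ := by group
      rwa [e] at h
    obtain ⟨h3, h4⟩ := D.hQ a a.2 s s' h2
    exact ⟨Subtype.ext h3, h4.symm, rfl⟩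
  · exfalso
    simp only [Units.val_one, zpow_one, Units.val_neg, zpow_neg] at h
    rw [τ_o, j_mul_τ_inv_o] at h
    exact out_ne_in D.φ h
  · exfalso
    simp only [Units.val_one, zpow_one, Units.val_neg, zpow_neg] at h
    rw [τ_inv_o, j_mul_τ_o] at h
    exact out_ne_in D.φ h.symm
  · simp only [Units.val_one, zpow_one, Units.val_neg, zpow_neg] at h
    rw [τ_inv_o, j_mul_τ_inv_o, in_eq_iff] at h
    have h2 : D.r s * (a : G) * (D.r s')⁻¹ ∈ D.P := by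
      have e : ((D.r s)⁻¹)⁻¹ * ((a : G) * (D.r s')⁻¹) = D.r s * (a : G) * (D.r s')⁻¹ := by group
      rwa [e] at h
    obtain ⟨h3, h4⟩ := D.hP a a.2 s s' h2
    exact ⟨Subtype.ext h3, h4.symm, rfl⟩

theorem len_letter (a : D.A) (s : D.S) (ε : ℤˣ) : len D.φ (D.j a * D.τ s ^ (ε : ℤ)) = 1 := by
  rw [j_apply, len_of_mul]
  rcases Int.units_eq_one_or ε with rfl | rfl
  · simp only [Units.val_one, zpow_one]
    unfold τ
    rw [len_mul_of, len_of_mul]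
    have := len_t D.φ 1
    simpa using this
  · simp only [Units.val_one, zpow_one, Units.val_neg, zpow_neg, len_inv]
    unfold τ
    rw [len_mul_of, len_of_mul]
    have := len_t D.φ 1
    simpa using this

theorem vd_o (y : D.Γ) : (bsTree D.φ).d D.o (y • D.o) = len D.φ y := vd_v0' D.φ y

theorem d_smul (g : D.Γ) (x y : D.V) : (bsTree D.φ).d (g • x) (g • y) = (bsTree D.φ).d x y :=
  vd_smul D.φ g x y

theorem red_len_aux (l : List (D.A × D.S × ℤˣ)) : Red l → len D.φ (ev D.j D.τ l) = l.length ∧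
    ∀ p l', l = p :: l' → (bsTree D.φ).Btw D.o ((D.j p.1 * D.τ p.2.1 ^ (p.2.2 : ℤ)) • D.o)
      (ev D.j D.τ l • D.o) := by
  induction l with
  | nil =>
    intro _
    refine ⟨by simp [len_one], ?_⟩
    intro p l' h; cases h
  | cons p l ih =>
    intro hl
    obtain ⟨ih1, ih2⟩ := ih (red_tail hl)
    have hp := D.len_letter p.1 p.2.1 p.2.2
    have hev : ev D.j D.τ (p :: l) = (D.j p.1 * D.τ p.2.1 ^ (p.2.2 : ℤ)) * ev D.j D.τ l := by
      rw [ev_cons]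
    suffices hmain : len D.φ (ev D.j D.τ (p :: l)) = (p :: l).length ∧
        (bsTree D.φ).Btw D.o ((D.j p.1 * D.τ p.2.1 ^ (p.2.2 : ℤ)) • D.o)
          (ev D.j D.τ (p :: l) • D.o) by
      refine ⟨hmain.1, ?_⟩
      intro p' l' hpl
      injection hpl with hpl1 hpl2
      subst hpl1
      exact hmain.2
    obtain ⟨γ, hγ⟩ : ∃ γ, γ = D.j p.1 * D.τ p.2.1 ^ (p.2.2 : ℤ) := ⟨_, rfl⟩
    rw [← hγ] at hp hev ⊢
    have h1 : (bsTree D.φ).d D.o (γ • D.o) = 1 := by rw [vd_o, hp]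
    have h2 : (bsTree D.φ).d (γ • D.o) (ev D.j D.τ (p :: l) • D.o) = l.length := by
      rw [hev, mul_smul, d_smul, vd_o, ih1]
    have h3 : (bsTree D.φ).d D.o (ev D.j D.τ (p :: l) • D.o) = l.length + 1 := by
      cases l with
      | nil =>
        simp only [hev, ev_nil, mul_one, List.length_nil]
        exact h1
      | cons q l'' =>
        have h4 := ih2 q l'' rfl
        unfold TreeDist.Btw at h4
        set T := bsTree D.φ
        set z := ev D.j D.τ (p :: q :: l'') • D.o with hz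
        set w := γ • ((D.j q.1 * D.τ q.2.1 ^ (q.2.2 : ℤ)) • D.o) with hw
        have hqlen := D.len_letter q.1 q.2.1 q.2.2
        have h5 : T.d (γ • D.o) w = 1 := by
          rw [hw]
          have := D.d_smul γ D.o ((D.j q.1 * D.τ q.2.1 ^ (q.2.2 : ℤ)) • D.o)
          rw [this, vd_o, hqlen]
        have h6 : T.d (γ • D.o) w + T.d w z = T.d (γ • D.o) z := by
          rw [hz, hev, mul_smul, hw]
          have e1 := D.d_smul γ D.o ((D.j q.1 * D.τ q.2.1 ^ (q.2.2 : ℤ)) • D.o)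
          have e2 := D.d_smul γ ((D.j q.1 * D.τ q.2.1 ^ (q.2.2 : ℤ)) • D.o)
            (ev D.j D.τ (q :: l'') • D.o)
          have e3 := D.d_smul γ D.o (ev D.j D.τ (q :: l'') • D.o)
          rw [e1, e2, e3]; exact h4
        rcases TreeDist.adj_diff (T := T) h1 z with h7 | h7
        · have s1 := T.symm z D.o
          have s2 := T.symm z (γ • D.o)
          omega
        · exfalso
          have s1 := T.symm z D.o
          have s2 := T.symm z (γ • D.o)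
          have s3 := T.symm D.o (γ • D.o)
          have h8 : T.d (γ • D.o) D.o + T.d D.o z = T.d (γ • D.o) z := by omega
          have h9 := T.chain (γ • D.o) z w D.o h6 h8 (by omega)
          have h10 : T.d w D.o = 0 := by omega
          have h11 := T.eq_of_d _ _ h10
          have h12 : D.τ p.2.1 ^ (((-p.2.2 : ℤˣ)) : ℤ) • D.o =
              (D.j q.1 * D.τ q.2.1 ^ (q.2.2 : ℤ)) • D.o := by
            have e1 : (D.j q.1 * D.τ q.2.1 ^ (q.2.2 : ℤ)) • D.o = γ⁻¹ • D.o :=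
              eq_inv_smul_iff.2 (hw.symm.trans h11)
            rw [e1, hγ, mul_inv_rev, mul_smul, ← map_inv, j_o]
            simp
          obtain ⟨a1, a2, a3⟩ := D.starstar _ _ _ _ _ h12
          unfold Red at hl
          rw [List.isChain_cons_cons] at hl
          exact hl.1 ⟨a1, a2, a3⟩
    refine ⟨?_, ?_⟩
    · rw [← vd_o, h3]; rfl
    · unfold TreeDist.Btw
      rw [h1, h2, h3]; omega

theorem red_len {l : List (D.A × D.S × ℤˣ)} (hl : Red l) (a : D.A) :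
    len D.φ (ev D.j D.τ l * D.j a) = l.length := by
  rw [j_apply, len_mul_of]
  exact (D.red_len_aux l hl).1

/-- the stabiliser of a face -/
def H : Subgroup D.Γ := Subgroup.closure (Set.range D.j ∪ Set.range D.τ)

theorem j_mem_H (a : D.A) : D.j a ∈ D.H := Subgroup.subset_closure (Or.inl ⟨a, rfl⟩)

theorem τ_mem_H (s : D.S) : D.τ s ∈ D.H := Subgroup.subset_closure (Or.inr ⟨s, rfl⟩)

theorem t_mem_H : (t : D.Γ) ∈ D.H := by
  have := D.τ_mem_H D.s0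
  unfold τ at this
  rw [D.es0, D.rs0] at this
  simpa using this

theorem H_form {x : D.Γ} (hx : x ∈ D.H) :
    ∃ l : List (D.A × D.S × ℤˣ), Red l ∧ ∃ a, x = ev D.j D.τ l * D.j a := red_form D.j D.τ hx

theorem of_mem_H {x : G} : (of x : D.Γ) ∈ D.H ↔ x ∈ D.A := by
  constructor
  · intro h
    obtain ⟨l, hl, a, e⟩ := D.H_form h
    have h1 := D.red_len hl a
    rw [← e, len_of] at h1
    have h2 : l = [] := List.length_eq_zero_iff.1 h1.symm
    subst h2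
    rw [ev_nil, one_mul, j_apply] at e
    have := of_injective D.φ e
    rw [this]; exact a.2
  · intro h
    exact D.j_mem_H ⟨x, h⟩

/-- the graph of the map to `B` -/
def Gr : Subgroup (D.Γ × D.B) := Subgroup.closure (Set.range (D.j.prod D.ι) ∪
  Set.range (fun s => (D.τ s, D.f s)))

theorem ev_prod (l : List (D.A × D.S × ℤˣ)) :
    ev (D.j.prod D.ι) (fun s => (D.τ s, D.f s)) l = (ev D.j D.τ l, ev D.ι D.f l) := by
  induction l with
  | nil => rfl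
  | cons p l ih =>
    rw [ev_cons, ev_cons, ev_cons, ih]
    rfl

theorem Gr_form {x : D.Γ} {b : D.B} (h : (x, b) ∈ D.Gr) :
    ∃ l : List (D.A × D.S × ℤˣ), Red l ∧ ∃ a, x = ev D.j D.τ l * D.j a ∧
      b = ev D.ι D.f l * D.ι a := by
  obtain ⟨l, hl, a, e⟩ := red_form _ _ h
  rw [ev_prod] at e
  exact ⟨l, hl, a, congrArg Prod.fst e, congrArg Prod.snd e⟩

theorem Gr_fst {x : D.Γ} {b : D.B} (h : (x, b) ∈ D.Gr) : x ∈ D.H := by
  have h1 : D.Gr ≤ D.H.comap (MonoidHom.fst D.Γ D.B) := by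
    unfold Gr
    rw [Subgroup.closure_le]
    rintro _ (⟨a, rfl⟩ | ⟨s, rfl⟩)
    · exact D.j_mem_H a
    · exact D.τ_mem_H s
  exact h1 h

theorem Gr_ex {x : D.Γ} (h : x ∈ D.H) : ∃ b, (x, b) ∈ D.Gr := by
  unfold H at h
  induction h using Subgroup.closure_induction with
  | mem x hx =>
    rcases hx with ⟨a, rfl⟩ | ⟨s, rfl⟩
    · exact ⟨D.ι a, Subgroup.subset_closure (Or.inl ⟨a, rfl⟩)⟩
    · exact ⟨D.f s, Subgroup.subset_closure (Or.inr ⟨s, rfl⟩)⟩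
  | one => exact ⟨1, one_mem _⟩
  | mul x y _ _ hx hy =>
    obtain ⟨b, hb⟩ := hx
    obtain ⟨c, hc⟩ := hy
    exact ⟨b * c, mul_mem hb hc⟩
  | inv x _ hx =>
    obtain ⟨b, hb⟩ := hx
    exact ⟨b⁻¹, inv_mem hb⟩

theorem Gr_one {b : D.B} (h : ((1 : D.Γ), b) ∈ D.Gr) : b = 1 := by
  obtain ⟨l, hl, a, e1, e2⟩ := D.Gr_form h
  have h1 := D.red_len hl a
  rw [← e1, len_one] at h1
  have h2 : l = [] := List.length_eq_zero_iff.1 h1.symm
  subst h2
  rw [ev_nil, one_mul, j_apply] at e1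
  rw [ev_nil, one_mul] at e2
  have h3 : (a : G) = 1 := by
    have : (of (a : G) : D.Γ) = of 1 := by rw [map_one]; exact e1.symm
    exact of_injective D.φ this
  have h4 : a = 1 := Subtype.ext h3
  rw [e2, h4, map_one]

/-- the deep kernel -/
def K0 : Subgroup D.Γ := D.Gr.comap (MonoidHom.inl D.Γ D.B)

theorem mem_K0 {x : D.Γ} : x ∈ D.K0 ↔ (x, (1 : D.B)) ∈ D.Gr := Iff.rfl

theorem K0_le_H : D.K0 ≤ D.H := fun _ hx => D.Gr_fst hx

theorem K0_conj {h k : D.Γ} (hh : h ∈ D.H) (hk : k ∈ D.K0) : h * k * h⁻¹ ∈ D.K0 := by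
  obtain ⟨b, hb⟩ := D.Gr_ex hh
  rw [mem_K0] at *
  have := mul_mem (mul_mem hb hk) (inv_mem hb)
  have e : (h, b) * (k, (1 : D.B)) * (h, b)⁻¹ = (h * k * h⁻¹, 1) := by
    ext
    · rfl
    · simp
  rwa [e] at this

theorem K0_len {k : D.Γ} (hk : k ∈ D.K0) (hk1 : k ≠ 1) : 20 ≤ len D.φ k := by
  obtain ⟨l, hl, a, e1, e2⟩ := D.Gr_form hk
  have h1 := D.red_len hl a
  rw [← e1] at h1
  rw [h1]
  by_contra hcon
  push Not at hcon
  by_cases hne : l = []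
  · subst hne
    rw [ev_nil, one_mul] at e2 e1
    have : a = 1 := D.hι (by rw [← e2, map_one])
    apply hk1
    rw [e1, this, map_one]
  · refine D.deep l hl hne hcon ⟨a⁻¹, ?_⟩
    rw [map_inv]
    exact (eq_inv_of_mul_eq_one_left e2.symm).symm

/-- faces -/
abbrev F : Type := D.Γ ⧸ D.H

theorem smul_mk (g x : D.Γ) : g • (x : D.F) = ((g * x : D.Γ) : D.F) := rfl

theorem mk_eq {x y : D.Γ} : (x : D.F) = (y : D.F) ↔ x⁻¹ * y ∈ D.H := QuotientGroup.eq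

def Y (c : D.F) : Set D.V := {v | ∃ x : D.Γ, (x : D.F) = c ∧ v = x • D.o}

def K (c : D.F) : Subgroup D.Γ where
  carrier := {k | ∀ x : D.Γ, (x : D.F) = c → x⁻¹ * k * x ∈ D.K0}
  mul_mem' := by
    intro a b ha hb x hx
    have := mul_mem (ha x hx) (hb x hx)
    have e : x⁻¹ * a * x * (x⁻¹ * b * x) = x⁻¹ * (a * b) * x := by group
    rwa [e] at this
  one_mem' := by
    intro x _
    simp
  inv_mem' := by
    intro a ha x hx
    have := inv_mem (ha x hx)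
    have e : (x⁻¹ * a * x)⁻¹ = x⁻¹ * a⁻¹ * x := by group
    rwa [e] at this

theorem mem_K {x k : D.Γ} : k ∈ D.K (x : D.F) ↔ x⁻¹ * k * x ∈ D.K0 := by
  constructor
  · intro h; exact h x rfl
  · intro h y hy
    have h1 : y⁻¹ * x ∈ D.H := D.mk_eq.1 hy
    have := D.K0_conj h1 h
    have e : y⁻¹ * x * (x⁻¹ * k * x) * (y⁻¹ * x)⁻¹ = y⁻¹ * k * y := by group
    rwa [e] at this

theorem Y_smul (g : D.Γ) (c : D.F) (x : D.V) (h : x ∈ D.Y c) : g • x ∈ D.Y (g • c) := by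
  obtain ⟨y, rfl, rfl⟩ := h
  exact ⟨g * y, rfl, (mul_smul _ _ _).symm⟩

theorem Y_smul_iff {g : D.Γ} {c : D.F} {x : D.V} : g • x ∈ D.Y (g • c) ↔ x ∈ D.Y c := by
  constructor
  · intro h
    have := D.Y_smul g⁻¹ _ _ h
    simpa using this
  · exact D.Y_smul g c x

theorem Y_chain (y h : D.Γ) (hh : h ∈ D.H) :
    Relation.ReflTransGen (fun a b => (bsTree D.φ).d a b = 1 ∧ b ∈ D.Y (y : D.F))
      (y • D.o) ((y * h) • D.o) := by
  have hl : ∀ (x : D.Γ) (s : D.S) (ε : ℤˣ), x ∈ D.H →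
      (bsTree D.φ).d ((y * x) • D.o) ((y * (x * D.τ s ^ (ε : ℤ))) • D.o) = 1 ∧
      (y * (x * D.τ s ^ (ε : ℤ))) • D.o ∈ D.Y (y : D.F) := by
    intro x s ε hx
    refine ⟨?_, ?_⟩
    · rw [← mul_assoc, mul_smul (y * x) (D.τ s ^ (ε : ℤ)), d_smul, vd_o]
      have := D.len_letter 1 s ε
      rwa [map_one, one_mul] at this
    · refine ⟨_, ?_, rfl⟩
      rw [mk_eq]
      have e : (y * (x * D.τ s ^ (ε : ℤ)))⁻¹ * y = (x * D.τ s ^ (ε : ℤ))⁻¹ := by group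
      rw [e]
      exact inv_mem (mul_mem hx (zpow_mem (D.τ_mem_H s) _))
  unfold H at hh
  induction hh using Subgroup.closure_induction_right with
  | one => rw [mul_one]
  | mul_right x hx z hz ih =>
    rcases hz with ⟨a, rfl⟩ | ⟨s, rfl⟩
    · rw [← mul_assoc, mul_smul (y * x), j_o]; exact ih
    · have := hl x s 1 hx
      simp only [Units.val_one, zpow_one] at this
      exact ih.tail this
  | mul_inv_cancel x hx z hz ih =>
    rcases hz with ⟨a, rfl⟩ | ⟨s, rfl⟩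
    · rw [← mul_assoc, mul_smul (y * x), ← map_inv, j_o]; exact ih
    · have := hl x s (-1) hx
      simp only [Units.val_neg, Units.val_one, zpow_neg, zpow_one] at this
      exact ih.tail this

theorem Y_conv (c : D.F) : (bsTree D.φ).Convex (D.Y c) := by
  intro x hx y hy z hz
  obtain ⟨x', rfl, rfl⟩ := hx
  obtain ⟨y', h1, rfl⟩ := hy
  have h2 : x'⁻¹ * y' ∈ D.H := D.mk_eq.1 h1.symm
  have h3 := D.Y_chain x' _ h2
  rw [mul_inv_cancel_left] at h3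
  exact TreeDist.mem_of_chain hz h3 ⟨x', rfl, rfl⟩

theorem o_mem_Y {c : D.F} (h : D.o ∈ D.Y c) : ∃ x : G, c = ((of x : D.Γ) : D.F) := by
  obtain ⟨y, rfl, h1⟩ := h
  have h2 : len D.φ y = 0 := by
    rw [← vd_o, ← h1]; exact (bsTree D.φ).d_self _
  obtain ⟨x, rfl⟩ := of_of_len D.φ h2
  exact ⟨x, rfl⟩

theorem mk_of_eq {x y : G} : ((of x : D.Γ) : D.F) = ((of y : D.Γ) : D.F) ↔ x⁻¹ * y ∈ D.A := by
  rw [mk_eq, ← map_inv, ← map_mul, of_mem_H]

/-- single letters -/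
theorem one_letter {h : D.Γ} (hh : h ∈ D.H) (hl : len D.φ h = 1) :
    ∃ (a : D.A) (s : D.S) (ε : ℤˣ), h • D.o = (D.j a * D.τ s ^ (ε : ℤ)) • D.o := by
  obtain ⟨l, hred, a, e⟩ := D.H_form hh
  have h1 := D.red_len hred a
  rw [← e, hl] at h1
  obtain ⟨p, rfl⟩ := List.length_eq_one_iff.1 h1.symm
  refine ⟨p.1, p.2.1, p.2.2, ?_⟩
  rw [e, mul_smul, j_o]
  simp

theorem out_face {x z : G} (h : (of z * t : D.Γ) • D.o ∈ D.Y ((of x : D.Γ) : D.F)) :
    z⁻¹ * x ∈ D.A ∨ D.g⁻¹ * (z⁻¹ * x) ∈ D.A := by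
  obtain ⟨y, hy, h1⟩ := h
  have h2 : (of x : D.Γ)⁻¹ * y ∈ D.H := D.mk_eq.1 hy.symm
  have h3 : ((of x : D.Γ)⁻¹ * y) • D.o = (of (x⁻¹ * z) * t : D.Γ) • D.o := by
    rw [mul_smul, ← h1, ← mul_smul, ← map_inv, map_mul, mul_assoc]
  have h4 : len D.φ ((of x : D.Γ)⁻¹ * y) = 1 := by
    rw [← vd_o, h3, vd_o, len_of_mul]
    have := len_t D.φ 1
    simpa using this
  obtain ⟨a, s, ε, h5⟩ := D.one_letter h2 h4
  rw [h3] at h5
  rcases Int.units_eq_one_or ε with rfl | rfl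
  · simp only [Units.val_one, zpow_one] at h5
    rw [j_mul_τ_o, out_eq_iff] at h5
    have e : (x⁻¹ * z)⁻¹ * ((a : G) * (D.e s)⁻¹) = z⁻¹ * x * (a : G) * (D.e s)⁻¹ := by group
    rw [e] at h5
    exact D.hfQ _ a a.2 s h5
  · exfalso
    simp only [Units.val_one, zpow_one, Units.val_neg, zpow_neg] at h5
    rw [j_mul_τ_inv_o] at h5
    exact out_ne_in D.φ h5

theorem in_face {x z : G} (h : (of z * t⁻¹ : D.Γ) • D.o ∈ D.Y ((of x : D.Γ) : D.F)) :
    z⁻¹ * x ∈ D.A ∨ D.i⁻¹ * (z⁻¹ * x) ∈ D.A := by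
  obtain ⟨y, hy, h1⟩ := h
  have h2 : (of x : D.Γ)⁻¹ * y ∈ D.H := D.mk_eq.1 hy.symm
  have h3 : ((of x : D.Γ)⁻¹ * y) • D.o = (of (x⁻¹ * z) * t⁻¹ : D.Γ) • D.o := by
    rw [mul_smul, ← h1, ← mul_smul, ← map_inv, map_mul, mul_assoc]
  have h4 : len D.φ ((of x : D.Γ)⁻¹ * y) = 1 := by
    rw [← vd_o, h3, vd_o, len_of_mul]
    have := len_t D.φ (-1)
    simpa using this
  obtain ⟨a, s, ε, h5⟩ := D.one_letter h2 h4
  rw [h3] at h5
  rcases Int.units_eq_one_or ε with rfl | rfl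
  · exfalso
    simp only [Units.val_one, zpow_one] at h5
    rw [j_mul_τ_o] at h5
    exact out_ne_in D.φ h5.symm
  · simp only [Units.val_one, zpow_one, Units.val_neg, zpow_neg] at h5
    rw [j_mul_τ_inv_o, in_eq_iff] at h5
    have e : (x⁻¹ * z)⁻¹ * ((a : G) * (D.r s)⁻¹) = z⁻¹ * x * (a : G) * (D.r s)⁻¹ := by group
    rw [e] at h5
    exact D.hfP _ a a.2 s h5

end SD

end S2T
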