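import Pool.Agent.S2T.Step

set_option autoImplicit false

namespace S2T

open HNNExtension

namespace SD

variable {G : Type} [Group G] (D : SD G)

/-- moving an adjacent pair to the base vertex -/
theorem adj_form {x y : D.V} (h : (bsTree D.φ).d x y = 1) : ∃ (γ : D.Γ) (z : G) (ε : ℤˣ),
    x = γ • D.o ∧ y = γ • ((of z * t ^ (ε : ℤ) : D.Γ) • D.o) := by
  obtain ⟨γ, rfl⟩ := exists_smul_v0 D.φ x
  have h1 : vd D.φ (v0 D.φ) (γ⁻¹ • y) = 1 := by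
    have := vd_smul D.φ γ⁻¹ (γ • v0 D.φ) y
    rw [inv_smul_smul] at this
    rw [this]; exact h
  obtain ⟨z, ε, hz⟩ := adj_v0 D.φ h1
  refine ⟨γ, z, ε, rfl, ?_⟩
  rw [← hz, smul_inv_smul]

theorem A2' (x y : D.V) (h : (bsTree D.φ).d x y = 1) : ∃ c, x ∈ D.Y c ∧ y ∈ D.Y c := by
  obtain ⟨γ, z, ε, rfl, rfl⟩ := D.adj_form h
  refine ⟨((γ * of z : D.Γ) : D.F), ⟨γ * of z, rfl, ?_⟩, ⟨γ * of z * t ^ (ε : ℤ), ?_, ?_⟩⟩
  · rw [mul_smul, of_o]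
  · rw [mk_eq]
    have e : (γ * of z * t ^ (ε : ℤ))⁻¹ * (γ * of z) = (t ^ (ε : ℤ))⁻¹ := by group
    rw [e]
    exact inv_mem (zpow_mem D.t_mem_H _)
  · simp only [mul_smul]

theorem out_face' {c : D.F} {z : G} (h1 : D.o ∈ D.Y c) (h : (of z * t : D.Γ) • D.o ∈ D.Y c) :
    c = ((of z : D.Γ) : D.F) ∨ c = ((of (z * D.g) : D.Γ) : D.F) := by
  obtain ⟨x, rfl⟩ := D.o_mem_Y h1
  rcases D.out_face h with h2 | h2
  · left; exact (D.mk_of_eq.2 h2).symm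
  · right
    refine (D.mk_of_eq.2 ?_).symm
    have e : (z * D.g)⁻¹ * x = D.g⁻¹ * (z⁻¹ * x) := by group
    rw [e]; exact h2

theorem in_face' {c : D.F} {z : G} (h1 : D.o ∈ D.Y c) (h : (of z * t⁻¹ : D.Γ) • D.o ∈ D.Y c) :
    c = ((of z : D.Γ) : D.F) ∨ c = ((of (z * D.i) : D.Γ) : D.F) := by
  obtain ⟨x, rfl⟩ := D.o_mem_Y h1
  rcases D.in_face h with h2 | h2
  · left; exact (D.mk_of_eq.2 h2).symm
  · right
    refine (D.mk_of_eq.2 ?_).symm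
    have e : (z * D.i)⁻¹ * x = D.i⁻¹ * (z⁻¹ * x) := by group
    rw [e]; exact h2

theorem pigeon {α : Type*} {a b c c' c'' : α} (h : c = a ∨ c = b) (h' : c' = a ∨ c' = b)
    (h'' : c'' = a ∨ c'' = b) : c = c' ∨ c = c'' ∨ c' = c'' := by
  rcases h with rfl | rfl <;> rcases h' with rfl | rfl <;> rcases h'' with rfl | rfl <;> simp

theorem A2 (x y : D.V) (c c' c'' : D.F) (h : (bsTree D.φ).d x y = 1) (h1 : x ∈ D.Y c)
    (h2 : y ∈ D.Y c) (h3 : x ∈ D.Y c') (h4 : y ∈ D.Y c') (h5 : x ∈ D.Y c'') (h6 : y ∈ D.Y c'') :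
    c = c' ∨ c = c'' ∨ c' = c'' := by
  obtain ⟨γ, z, ε, rfl, rfl⟩ := D.adj_form h
  have key : ∀ c : D.F, γ • D.o ∈ D.Y c → γ • ((of z * t ^ (ε : ℤ) : D.Γ) • D.o) ∈ D.Y c →
      D.o ∈ D.Y (γ⁻¹ • c) ∧ (of z * t ^ (ε : ℤ) : D.Γ) • D.o ∈ D.Y (γ⁻¹ • c) := by
    intro c k1 k2
    have := D.Y_smul γ⁻¹ _ _ k1
    have := D.Y_smul γ⁻¹ _ _ k2
    rw [inv_smul_smul] at *
    constructor <;> assumption
  obtain ⟨k1, k2⟩ := key c h1 h2
  obtain ⟨k3, k4⟩ := key c' h3 h4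
  obtain ⟨k5, k6⟩ := key c'' h5 h6
  have fin : γ⁻¹ • c = γ⁻¹ • c' ∨ γ⁻¹ • c = γ⁻¹ • c'' ∨ γ⁻¹ • c' = γ⁻¹ • c'' := by
    rcases Int.units_eq_one_or ε with rfl | rfl
    · simp only [Units.val_one, zpow_one] at k2 k4 k6
      exact pigeon (D.out_face' k1 k2) (D.out_face' k3 k4) (D.out_face' k5 k6)
    · simp only [Units.val_neg, Units.val_one, zpow_neg, zpow_one] at k2 k4 k6
      exact pigeon (D.in_face' k1 k2) (D.in_face' k3 k4) (D.in_face' k5 k6)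
  rcases fin with h | h | h
  · exact Or.inl (MulAction.injective _ h)
  · exact Or.inr (Or.inl (MulAction.injective _ h))
  · exact Or.inr (Or.inr (MulAction.injective _ h))

/-- property (★), with `x ∈ zA`, `y ∈ zgA` -/
theorem star_aux {x y z z' : G} (ε : ℤˣ)
    (h1 : z⁻¹ * x ∈ D.A) (h2 : D.g⁻¹ * (z⁻¹ * y) ∈ D.A)
    (hw : (of z' * t ^ (ε : ℤ) : D.Γ) • D.o ∈ D.Y ((of x : D.Γ) : D.F))
    (hw' : (of z' * t ^ (ε : ℤ) : D.Γ) • D.o ∈ D.Y ((of y : D.Γ) : D.F))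
    (hxy : x⁻¹ * y ∉ D.A) :
    (of z * t : D.Γ) • D.o = (of z' * t ^ (ε : ℤ) : D.Γ) • D.o := by
  have hne : ∀ u : G, ¬ (u * x ∈ D.A ∧ u * y ∈ D.A) := by
    rintro u ⟨k1, k2⟩
    apply hxy
    have e : x⁻¹ * y = (u * x)⁻¹ * (u * y) := by group
    rw [e]; exact mul_mem (inv_mem k1) k2
  rcases Int.units_eq_one_or ε with rfl | rfl
  · simp only [Units.val_one, zpow_one] at hw hw' ⊢
    rw [out_eq_iff]
    have hx := D.out_face hw
    have hy := D.out_face hw'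
    have hcase : (z'⁻¹ * x ∈ D.A ∧ D.g⁻¹ * (z'⁻¹ * y) ∈ D.A) ∨
        (D.g⁻¹ * (z'⁻¹ * x) ∈ D.A ∧ z'⁻¹ * y ∈ D.A) := by
      rcases hx with hx | hx <;> rcases hy with hy | hy
      · exact absurd ⟨hx, hy⟩ (hne _)
      · exact Or.inl ⟨hx, hy⟩
      · exact Or.inr ⟨hx, hy⟩
      · exfalso
        apply hne (D.g⁻¹ * z'⁻¹)
        rw [mul_assoc, mul_assoc]; exact ⟨hx, hy⟩
    rcases hcase with ⟨k1, k2⟩ | ⟨k1, k2⟩
    · -- b = z'⁻¹ z ∈ A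
      have b1 : z'⁻¹ * z ∈ D.A := by
        have e : z'⁻¹ * z = (z'⁻¹ * x) * (z⁻¹ * x)⁻¹ := by group
        rw [e]; exact mul_mem k1 (inv_mem h1)
      have b2 : D.g⁻¹ * (z'⁻¹ * z) * D.g ∈ D.A := by
        have e : D.g⁻¹ * (z'⁻¹ * z) * D.g = (D.g⁻¹ * (z'⁻¹ * y)) * (D.g⁻¹ * (z⁻¹ * y))⁻¹ := by group
        rw [e]; exact mul_mem k2 (inv_mem h2)
      have b3 := D.hmal D.g D.hg _ b1 b2
      have e : z⁻¹ * z' = (z'⁻¹ * z)⁻¹ := by group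
      rw [e, b3, inv_one]; exact one_mem _
    · have b1 : D.g⁻¹ * (z'⁻¹ * z) ∈ D.A := by
        have e : D.g⁻¹ * (z'⁻¹ * z) = (D.g⁻¹ * (z'⁻¹ * x)) * (z⁻¹ * x)⁻¹ := by group
        rw [e]; exact mul_mem k1 (inv_mem h1)
      have b2 : (z'⁻¹ * z) * D.g ∈ D.A := by
        have e : (z'⁻¹ * z) * D.g = (z'⁻¹ * y) * (D.g⁻¹ * (z⁻¹ * y))⁻¹ := by group
        rw [e]; exact mul_mem k2 (inv_mem h2)
      have b3 := D.hstar _ b1 b2
      have e : z⁻¹ * z' = (z'⁻¹ * z)⁻¹ := by group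
      rw [e]; exact inv_mem b3
  · exfalso
    simp only [Units.val_neg, Units.val_one, zpow_neg, zpow_one] at hw hw'
    have hx := D.in_face hw
    have hy := D.in_face hw'
    have hcase : (z'⁻¹ * x ∈ D.A ∧ D.i⁻¹ * (z'⁻¹ * y) ∈ D.A) ∨
        (D.i⁻¹ * (z'⁻¹ * x) ∈ D.A ∧ z'⁻¹ * y ∈ D.A) := by
      rcases hx with hx | hx <;> rcases hy with hy | hy
      · exact absurd ⟨hx, hy⟩ (hne _)
      · exact Or.inl ⟨hx, hy⟩
      · exact Or.inr ⟨hx, hy⟩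
      · exfalso
        apply hne (D.i⁻¹ * z'⁻¹)
        rw [mul_assoc, mul_assoc]; exact ⟨hx, hy⟩
    have hi' : D.i⁻¹ = D.i := inv_eq_of_mul_eq_one_left D.hi
    rcases hcase with ⟨k1, k2⟩ | ⟨k1, k2⟩
    · have b1 : z'⁻¹ * z ∈ D.A := by
        have e : z'⁻¹ * z = (z'⁻¹ * x) * (z⁻¹ * x)⁻¹ := by group
        rw [e]; exact mul_mem k1 (inv_mem h1)
      have b2 : D.i⁻¹ * (z'⁻¹ * z) * D.g ∈ D.A := by
        have e : D.i⁻¹ * (z'⁻¹ * z) * D.g = (D.i⁻¹ * (z'⁻¹ * y)) * (D.g⁻¹ * (z⁻¹ * y))⁻¹ := by group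
        rw [e]; exact mul_mem k2 (inv_mem h2)
      refine D.hgi _ (inv_mem b1) _ b2 ?_
      group
    · have b1 : D.i⁻¹ * (z'⁻¹ * z) ∈ D.A := by
        have e : D.i⁻¹ * (z'⁻¹ * z) = (D.i⁻¹ * (z'⁻¹ * x)) * (z⁻¹ * x)⁻¹ := by group
        rw [e]; exact mul_mem k1 (inv_mem h1)
      have b2 : (z'⁻¹ * z) * D.g ∈ D.A := by
        have e : (z'⁻¹ * z) * D.g = (z'⁻¹ * y) * (D.g⁻¹ * (z⁻¹ * y))⁻¹ := by group
        rw [e]; exact mul_mem k2 (inv_mem h2)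
      refine D.hgi _ (inv_mem b1) _ b2 ?_
      rw [mul_inv_rev, inv_inv]
      have : (z'⁻¹ * z)⁻¹ * D.i * D.i * ((z'⁻¹ * z) * D.g) = D.g := by
        rw [mul_assoc (z'⁻¹ * z)⁻¹, D.hi]; group
      exact this.symm

/-- property (★) at the base vertex -/
theorem star_o {c c' : D.F} (hcc : c ≠ c') (h1 : D.o ∈ D.Y c) (h2 : D.o ∈ D.Y c') {z z' : G}
    {ε : ℤˣ} (h3 : (of z * t : D.Γ) • D.o ∈ D.Y c) (h4 : (of z * t : D.Γ) • D.o ∈ D.Y c')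
    (h5 : (of z' * t ^ (ε : ℤ) : D.Γ) • D.o ∈ D.Y c)
    (h6 : (of z' * t ^ (ε : ℤ) : D.Γ) • D.o ∈ D.Y c') :
    (of z * t : D.Γ) • D.o = (of z' * t ^ (ε : ℤ) : D.Γ) • D.o := by
  obtain ⟨x, rfl⟩ := D.o_mem_Y h1
  obtain ⟨y, rfl⟩ := D.o_mem_Y h2
  have hxy : x⁻¹ * y ∉ D.A := fun h => hcc (D.mk_of_eq.2 h)
  have hyx : y⁻¹ * x ∉ D.A := fun h => hcc (D.mk_of_eq.2 h).symm
  rcases D.out_face h3 with k1 | k1 <;> rcases D.out_face h4 with k2 | k2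
  · exfalso
    apply hxy
    have e : x⁻¹ * y = (z⁻¹ * x)⁻¹ * (z⁻¹ * y) := by group
    rw [e]; exact mul_mem (inv_mem k1) k2
  · exact D.star_aux ε k1 k2 h5 h6 hxy
  · exact D.star_aux ε k2 k1 h6 h5 hyx
  · exfalso
    apply hxy
    have e : x⁻¹ * y = (D.g⁻¹ * (z⁻¹ * x))⁻¹ * (D.g⁻¹ * (z⁻¹ * y)) := by group
    rw [e]; exact mul_mem (inv_mem k1) k2

/-- `u → w` is an outgoing edge -/
def Out (u w : D.V) : Prop := ∃ γ : D.Γ, u = γ • D.o ∧ w = γ • ((t : D.Γ) • D.o)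

theorem out_or {u w : D.V} (h : (bsTree D.φ).d u w = 1) : D.Out u w ∨ D.Out w u := by
  obtain ⟨γ, z, ε, rfl, rfl⟩ := D.adj_form h
  rcases Int.units_eq_one_or ε with rfl | rfl
  · left
    refine ⟨γ * of z, ?_, ?_⟩
    · rw [mul_smul, of_o]
    · simp only [Units.val_one, zpow_one, mul_smul]
  · right
    refine ⟨γ * of z * t⁻¹, ?_, ?_⟩
    · simp only [Units.val_neg, Units.val_one, zpow_neg, zpow_one, mul_smul]
    · rw [mul_smul (γ * of z) t⁻¹, inv_smul_smul, mul_smul, of_o]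

theorem star {c c' : D.F} (hcc : c ≠ c') {u w w' : D.V} (h1 : u ∈ D.Y c) (h2 : u ∈ D.Y c')
    (h3 : w ∈ D.Y c) (h4 : w ∈ D.Y c') (h5 : w' ∈ D.Y c) (h6 : w' ∈ D.Y c')
    (hout : D.Out u w) (hadj : (bsTree D.φ).d u w' = 1) : w = w' := by
  obtain ⟨γ, rfl, rfl⟩ := hout
  have h7 : vd D.φ (v0 D.φ) (γ⁻¹ • w') = 1 := by
    have := vd_smul D.φ γ⁻¹ (γ • v0 D.φ) w'
    rw [inv_smul_smul] at this
    rw [this]; exact hadj
  obtain ⟨z, ε, hz⟩ := adj_v0 D.φ h7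
  have hw' : w' = γ • ((of z * t ^ (ε : ℤ) : D.Γ) • D.o) := by rw [← hz, smul_inv_smul]
  subst hw'
  have tr : ∀ (c : D.F) (x : D.V), γ • x ∈ D.Y c → x ∈ D.Y (γ⁻¹ • c) := by
    intro c x hx
    have := D.Y_smul γ⁻¹ _ _ hx
    rwa [inv_smul_smul] at this
  have e1 : (t : D.Γ) • D.o = (of 1 * t : D.Γ) • D.o := by rw [map_one, one_mul]
  rw [e1] at h3 h4 ⊢
  have := D.star_o (c := γ⁻¹ • c) (c' := γ⁻¹ • c') (fun h => hcc (MulAction.injective _ h))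
    (tr _ _ h1) (tr _ _ h2) (tr _ _ h3) (tr _ _ h4) (tr _ _ h5) (tr _ _ h6)
  rw [this]

theorem A1 (c c' : D.F) (x y : D.V) (hcc : c ≠ c') (h1 : x ∈ D.Y c) (h2 : x ∈ D.Y c')
    (h3 : y ∈ D.Y c) (h4 : y ∈ D.Y c') : (bsTree D.φ).d x y ≤ 2 := by
  by_contra hcon
  set T := bsTree D.φ with hT
  have n1 : x ≠ y := by
    intro h; subst h; rw [T.d_self] at hcon; omega
  obtain ⟨x₁, a1, a2⟩ := T.disc x y n1
  have n2 : x₁ ≠ y := by
    intro h; subst h; omega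
  obtain ⟨x₂, b1, b2⟩ := T.disc x₁ y n2
  have n3 : x₂ ≠ y := by
    intro h; subst h; rw [T.d_self] at b2; omega
  obtain ⟨x₃, c1, c2⟩ := T.disc x₂ y n3
  have k1 := D.Y_conv c x h1 y h3 x₁ a2
  have k1' := D.Y_conv c' x h2 y h4 x₁ a2
  have k2 := D.Y_conv c x₁ k1 y h3 x₂ b2
  have k2' := D.Y_conv c' x₁ k1' y h4 x₂ b2
  have k3 := D.Y_conv c x₂ k2 y h3 x₃ c2
  have k3' := D.Y_conv c' x₂ k2' y h4 x₃ c2
  rcases D.out_or (u := x₁) (w := x₂) b1 with h | h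
  · have e := D.star hcc k1 k1' k2 k2' h1 h2 h (by rw [← hT, T.symm]; exact a1)
    subst e
    have := T.symm x₂ x₁
    omega
  · have e := D.star hcc k2 k2' k1 k1' k3 k3' h (by rw [← hT]; exact c1)
    subst e
    have := T.symm x₁ x₂
    omega

theorem A4 (c c' : D.F) (γ : D.Γ) (u : D.V) (hcc : c ≠ c') (h1 : γ • c = c) (h2 : γ • c' = c')
    (h3 : u ∈ D.Y c) (h4 : u ∈ D.Y c') (h5 : γ • u = u) : γ = 1 := by
  obtain ⟨δ, rfl⟩ := exists_smul_v0 D.φ u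
  have tr : ∀ (c : D.F) (x : D.V), δ • x ∈ D.Y c → x ∈ D.Y (δ⁻¹ • c) := by
    intro c x hx
    have := D.Y_smul δ⁻¹ _ _ hx
    rwa [inv_smul_smul] at this
  obtain ⟨x, hx⟩ := D.o_mem_Y (tr _ _ h3)
  obtain ⟨y, hy⟩ := D.o_mem_Y (tr _ _ h4)
  have hz0 : (δ⁻¹ * γ * δ) • v0 D.φ = v0 D.φ := by
    rw [mul_smul, mul_smul, h5, inv_smul_smul]
  have hz1 : len D.φ (δ⁻¹ * γ * δ) = 0 := by
    rw [← vd_v0', hz0]; exact (bsTree D.φ).d_self _
  obtain ⟨z, hz⟩ := of_of_len D.φ hz1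
  have f1 : (of z : D.Γ) • ((of x : D.Γ) : D.F) = ((of x : D.Γ) : D.F) := by
    rw [← hx, ← hz, mul_smul, mul_smul, smul_inv_smul, h1]
  have f2 : (of z : D.Γ) • ((of y : D.Γ) : D.F) = ((of y : D.Γ) : D.F) := by
    rw [← hy, ← hz, mul_smul, mul_smul, smul_inv_smul, h2]
  rw [smul_mk, ← map_mul, mk_of_eq] at f1 f2
  have hxy : x⁻¹ * y ∉ D.A := by
    intro h
    apply hcc
    have : ((of x : D.Γ) : D.F) = ((of y : D.Γ) : D.F) := D.mk_of_eq.2 h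
    rw [← hx, ← hy] at this
    exact MulAction.injective _ this
  have g1 : x⁻¹ * z * x ∈ D.A := by
    have := inv_mem f1
    have e : ((z * x)⁻¹ * x)⁻¹ = x⁻¹ * z * x := by group
    rwa [e] at this
  have g2 : (x⁻¹ * y)⁻¹ * (x⁻¹ * z * x) * (x⁻¹ * y) ∈ D.A := by
    have := inv_mem f2
    have e : ((z * y)⁻¹ * y)⁻¹ = (x⁻¹ * y)⁻¹ * (x⁻¹ * z * x) * (x⁻¹ * y) := by group
    rwa [e] at this
  have g3 := D.hmal _ hxy _ g1 g2
  have g4 : z = 1 := by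
    have e : z = x * (x⁻¹ * z * x) * x⁻¹ := by group
    rw [e, g3]; group
  have g5 : δ⁻¹ * γ * δ = 1 := by rw [hz, g4, map_one]
  have e : γ = δ * (δ⁻¹ * γ * δ) * δ⁻¹ := by group
  rw [e, g5]; group

/-- all axioms -/
noncomputable def faces : Faces D.Γ D.V D.F where
  T := bsTree D.φ
  iso := D.d_smul
  Y := D.Y
  Yconv := D.Y_conv
  Yne := by
    intro c
    obtain ⟨x, rfl⟩ := QuotientGroup.mk_surjective c
    exact ⟨x • D.o, x, rfl, rfl⟩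
  Ysmul := D.Y_smul
  K := D.K
  Kconj := by
    intro g c k hk x hx
    have h1 : ((g⁻¹ * x : D.Γ) : D.F) = c := by
      rw [← smul_mk, hx, inv_smul_smul]
    have := hk _ h1
    have e : (g⁻¹ * x)⁻¹ * k * (g⁻¹ * x) = x⁻¹ * (g * k * g⁻¹) * x := by group
    rwa [e] at this
  Kfix := by
    intro c k hk
    obtain ⟨x, rfl⟩ := QuotientGroup.mk_surjective c
    have := D.K0_le_H (hk x rfl)
    change ((k * x : D.Γ) : D.F) = (x : D.F)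
    rw [mk_eq]
    have := inv_mem this
    have e : (x⁻¹ * k * x)⁻¹ = (k * x)⁻¹ * x := by group
    rwa [e] at this
  A1 := D.A1
  A2 := D.A2
  A2' := D.A2'
  A3 := by
    intro c k hk hk1 y hy
    obtain ⟨x, rfl, rfl⟩ := hy
    have h1 := hk x rfl
    have h2 : x⁻¹ * k * x ≠ 1 := by
      intro h
      apply hk1
      have e : k = x * (x⁻¹ * k * x) * x⁻¹ := by group
      rw [e, h]; group
    have h3 := D.K0_len h1 h2
    change 20 ≤ vd D.φ (x • v0 D.φ) (k • x • v0 D.φ)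
    rw [← mul_smul, vd_v0, ← mul_assoc]
    exact h3
  A4 := D.A4

instance : (D.faces.M).Normal := D.faces.M_normal

/-- The new group. -/
abbrev G1 : Type := D.Γ ⧸ D.faces.M

noncomputable def emb : G →* D.G1 := (QuotientGroup.mk' D.faces.M).comp of

theorem emb_apply (x : G) : D.emb x = ((of x : D.Γ) : D.G1) := rfl

theorem emb_inj : Function.Injective D.emb := by
  rw [injective_iff_map_eq_one]
  intro x hx
  rw [emb_apply] at hx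
  have h1 : (of x : D.Γ) ∈ D.faces.M := (QuotientGroup.eq_one_iff _).1 hx
  by_contra hne
  have h2 : (of x : D.Γ) ≠ 1 := by
    intro h
    apply hne
    exact of_injective D.φ (by rw [h, map_one])
  exact D.faces.concl1 h1 h2 D.o (D.of_o x)

/-- the new point stabiliser -/
noncomputable def A1' : Subgroup D.G1 := D.H.map (QuotientGroup.mk' D.faces.M)

theorem H_inter_M {n : D.Γ} (hn : n ∈ D.faces.M) (hH : n ∈ D.H) : n ∈ D.K0 := by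
  have h1 : D.o ∈ D.faces.Y ((1 : D.Γ) : D.F) := ⟨1, rfl, by rw [one_smul]⟩
  have h2 : n • D.o ∈ D.faces.Y ((1 : D.Γ) : D.F) := by
    refine ⟨n, ?_, rfl⟩
    rw [mk_eq, mul_one]
    exact inv_mem hH
  have h3 : n ∈ D.K ((1 : D.Γ) : D.F) := D.faces.concl2 hn _ h1 h2
  have := h3 1 rfl
  simpa using this

theorem M_of_H {n : D.Γ} (hn : n ∈ D.faces.M) {x : G} {h : D.Γ} (hh : h ∈ D.H)
    (e : of x = h * n) : n ∈ D.K0 := by
  have h1 : D.o ∈ D.faces.Y ((1 : D.Γ) : D.F) := ⟨1, rfl, by rw [one_smul]⟩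
  have h2 : n • D.o ∈ D.faces.Y ((1 : D.Γ) : D.F) := by
    refine ⟨h⁻¹, ?_, ?_⟩
    · rw [mk_eq, inv_inv, mul_one]; exact hh
    · have : n = h⁻¹ * of x := by rw [e]; group
      rw [this, mul_smul, of_o]
  have h3 : n ∈ D.K ((1 : D.Γ) : D.F) := D.faces.concl2 hn _ h1 h2
  have := h3 1 rfl
  simpa using this

theorem mem_A1' {x : D.Γ} : (x : D.G1) ∈ D.A1' ↔ ∃ h ∈ D.H, ∃ n ∈ D.faces.M, x = h * n := by
  constructor
  · rintro ⟨h, hh, e⟩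
    have e' : (h : D.G1) = (x : D.G1) := e
    have := QuotientGroup.eq.1 e'
    exact ⟨h, hh, h⁻¹ * x, this, by group⟩
  · rintro ⟨h, hh, n, hn, rfl⟩
    refine ⟨h, hh, ?_⟩
    change (h : D.G1) = _
    rw [QuotientGroup.eq]
    simpa using hn

theorem emb_mem_A1' {x : G} : D.emb x ∈ D.A1' ↔ x ∈ D.A := by
  rw [emb_apply, mem_A1']
  constructor
  · rintro ⟨h, hh, n, hn, e⟩
    have h1 := D.K0_le_H (D.M_of_H hn hh e)
    have : (of x : D.Γ) ∈ D.H := by rw [e]; exact mul_mem hh h1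
    exact D.of_mem_H.1 this
  · intro h
    exact ⟨of x, D.of_mem_H.2 h, 1, one_mem _, by simp⟩

theorem A1'_card : Nat.card D.A1' ∣ Nat.card D.B := by
  -- two homomorphisms from the graph
  let p : D.Gr →* D.G1 :=
    ((QuotientGroup.mk' D.faces.M).comp (MonoidHom.fst D.Γ D.B)).comp D.Gr.subtype
  let q : D.Gr →* D.B := (MonoidHom.snd D.Γ D.B).comp D.Gr.subtype
  have hr : p.range = D.A1' := by
    ext y
    constructor
    · rintro ⟨⟨⟨x, b⟩, h⟩, rfl⟩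
      exact ⟨x, D.Gr_fst h, rfl⟩
    · rintro ⟨x, hx, rfl⟩
      obtain ⟨b, hb⟩ := D.Gr_ex hx
      exact ⟨⟨(x, b), hb⟩, rfl⟩
  have hk : q.ker ≤ p.ker := by
    rintro ⟨⟨x, b⟩, h⟩ hx
    rw [MonoidHom.mem_ker] at *
    have hb : b = 1 := hx
    subst hb
    change (x : D.G1) = 1
    rw [QuotientGroup.eq_one_iff]
    apply D.faces.K_le_M ((1 : D.Γ) : D.F)
    change x ∈ D.K ((1 : D.Γ) : D.F)
    rw [mem_K, mem_K0]
    simpa using h
  rw [← hr, ← Subgroup.index_ker]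
  refine (Subgroup.index_dvd_of_le hk).trans ?_
  rw [Subgroup.index_ker]
  exact Subgroup.card_subgroup_dvd_card _

theorem A1'_odd : Odd (Nat.card D.A1') := Odd.of_dvd_nat D.oddB D.A1'_card

theorem A1'_fin : Finite D.A1' := by
  apply Nat.finite_of_card_ne_zero
  intro h
  have := D.A1'_odd
  rw [h] at this
  exact absurd this (by decide)

theorem A1'_mal (x : D.G1) (hx : x ∉ D.A1') (a : D.G1) (ha : a ∈ D.A1')
    (h : x⁻¹ * a * x ∈ D.A1') : a = 1 := by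
  obtain ⟨x, rfl⟩ := QuotientGroup.mk_surjective x
  obtain ⟨a, ha', rfl⟩ := ha
  have h1 : ((x⁻¹ * a * x : D.Γ) : D.G1) ∈ D.A1' := h
  obtain ⟨h₂, hh₂, n, hn, e⟩ := D.mem_A1'.1 h1
  have hst : h₂ ∈ MulAction.stabilizer D.Γ ((1 : D.Γ) : D.F) := by
    rw [MulAction.mem_stabilizer_iff, smul_mk, mul_one, mk_eq, mul_one]
    exact inv_mem hh₂
  have hfix : (x⁻¹ * a * x) • ((x⁻¹ : D.Γ) : D.F) = ((x⁻¹ : D.Γ) : D.F) := by
    rw [smul_mk, mk_eq]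
    have e2 : (x⁻¹ * a * x * x⁻¹)⁻¹ * x⁻¹ = a⁻¹ := by group
    rw [e2]; exact inv_mem ha'
  have hcne : ∀ n ∈ D.faces.M, n • ((x⁻¹ : D.Γ) : D.F) ≠ ((1 : D.Γ) : D.F) := by
    intro n' hn' hc
    apply hx
    rw [smul_mk, mk_eq, mul_one, inv_mem_iff] at hc
    -- n' x⁻¹ ∈ H
    rw [mem_A1']
    refine ⟨(n' * x⁻¹)⁻¹, inv_mem hc, n', hn', ?_⟩
    group
  have h4 := D.faces.concl3 ((1 : D.Γ) : D.F) hcne hfix hst hn e
  have h5 : ((x⁻¹ * a * x : D.Γ) : D.G1) ^ 4 = 1 := by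
    rw [← QuotientGroup.mk_pow, QuotientGroup.eq_one_iff]; exact h4
  have h6 : (a : D.G1) ^ 4 = 1 := by
    have e3 : ((x⁻¹ * a * x : D.Γ) : D.G1) = (x : D.G1)⁻¹ * (a : D.G1) * (x : D.G1) := rfl
    rw [e3] at h5
    have e4 : ((x : D.G1)⁻¹ * (a : D.G1) * (x : D.G1)) ^ 4 =
        (x : D.G1)⁻¹ * (a : D.G1) ^ 4 * (x : D.G1) := by
      have := conj_pow (a := (x : D.G1)⁻¹) (b := (a : D.G1)) (i := 4)
      rwa [inv_inv] at this
    rw [e4] at h5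
    have : (a : D.G1) ^ 4 = (x : D.G1) * ((x : D.G1)⁻¹ * (a : D.G1) ^ 4 * (x : D.G1)) *
        (x : D.G1)⁻¹ := by group
    rw [this, h5]; group
  have h7 : (a : D.G1) ∈ D.A1' := ⟨a, ha', rfl⟩
  have h8 : (⟨(a : D.G1), h7⟩ : D.A1') ^ 4 = 1 := Subtype.ext h6
  have h9 : (⟨(a : D.G1), h7⟩ : D.A1') ^ Nat.card D.A1' = 1 := pow_card_eq_one'
  have hco : Nat.Coprime 4 (Nat.card D.A1') := by
    have : Nat.Coprime (2 ^ 2) (Nat.card D.A1') :=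
      Nat.Coprime.pow_left 2 (Nat.coprime_two_left.2 D.A1'_odd)
    simpa using this
  have h10 : orderOf (⟨(a : D.G1), h7⟩ : D.A1') = 1 := by
    apply Nat.eq_one_of_dvd_coprimes hco
    · exact orderOf_dvd_of_pow_eq_one h8
    · exact orderOf_dvd_of_pow_eq_one h9
  have h11 := orderOf_eq_one_iff.1 h10
  exact congrArg Subtype.val h11

theorem countable_hnn [Countable G] (P Q : Subgroup G) (φ : P ≃* Q) :
    Countable (HNNExtension G P Q φ) := by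
  have : Function.Surjective (fun w : G × List (ℤˣ × G) =>
      (of w.1 * (w.2.map (fun x => t ^ (x.1 : ℤ) * of x.2)).prod : HNNExtension G P Q φ)) := by
    intro γ
    obtain ⟨w, rfl⟩ := exists_word φ γ
    exact ⟨(w.head, w.toList), rfl⟩
  exact this.countable

instance [Countable G] : Countable D.Γ := countable_hnn _ _ _

instance [Countable G] : Countable D.G1 := (QuotientGroup.mk_surjective (s := D.faces.M)).countable

end SD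

end S2T
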