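import Pool.Agent.S2T.Step2

set_option autoImplicit false

namespace S2T

open HNNExtension

def Mal {G : Type} [Group G] (A : Subgroup G) : Prop :=
  ∀ x, x ∉ A → ∀ a ∈ A, x⁻¹ * a * x ∈ A → a = 1

/-- conclusion of one step -/
def StepConcl {G : Type} [Group G] (A : Subgroup G) (i g : G) : Prop :=
  ∃ (G₁ : Type) (_ : Group G₁) (_ : Countable G₁) (j : G →* G₁) (A₁ : Subgroup G₁),
    Function.Injective j ∧ Finite A₁ ∧ Odd (Nat.card A₁) ∧ Mal A₁ ∧
    (∀ x, j x ∈ A₁ ↔ x ∈ A) ∧ (j g ∈ A₁ ∨ ∃ a ∈ A₁, ∃ a' ∈ A₁, j g = a * j i * a')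

theorem concl_of_SD {G : Type} [Group G] [Countable G] (D : SD G)
    (h : (of D.g⁻¹ * t * of D.i : D.Γ) ∈ D.H) : StepConcl D.A D.i D.g := by
  refine ⟨D.G1, inferInstance, inferInstance, D.emb, D.A1', D.emb_inj, D.A1'_fin, D.A1'_odd,
    D.A1'_mal, fun x => D.emb_mem_A1', Or.inr ?_⟩
  refine ⟨((t : D.Γ) : D.G1), ⟨t, D.t_mem_H, rfl⟩,
    (((of D.g⁻¹ * t * of D.i : D.Γ)⁻¹ : D.Γ) : D.G1), ⟨_, inv_mem h, rfl⟩, ?_⟩
  rw [SD.emb_apply, SD.emb_apply, ← QuotientGroup.mk_mul, ← QuotientGroup.mk_mul]
  congr 1
  simp only [mul_inv_rev, map_inv, inv_inv]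
  group

theorem mem_zpowers_invol {G : Type} [Group G] {i x : G} (hi : i * i = 1)
    (hx : x ∈ Subgroup.zpowers i) : x = 1 ∨ x = i := by
  obtain ⟨n, rfl⟩ := Subgroup.mem_zpowers_iff.1 hx
  rcases Int.even_or_odd' n with ⟨k, rfl | rfl⟩
  · left
    rw [zpow_mul, zpow_two, hi, one_zpow]
  · right
    rw [zpow_add, zpow_mul, zpow_two, hi, one_zpow, one_mul, zpow_one]

theorem card_zpowers_invol {G : Type} [Group G] {i : G} (hi : i * i = 1) (h1 : i ≠ 1) :
    Nat.card (Subgroup.zpowers i) = 2 := by
  rw [Nat.card_zpowers]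
  exact orderOf_eq_prime (by rw [pow_two, hi]) h1

theorem step1 {G : Type} [Group G] [Countable G] (A : Subgroup G) [Finite A]
    (hodd : Odd (Nat.card A)) (hmal : Mal A) (i : G) (hi : i * i = 1) (hiA : i ∉ A) (g : G)
    (hg : g ∉ A) (hgi : ∀ a ∈ A, ∀ a' ∈ A, g ≠ a * i * a') (hgg : g * g = 1) :
    StepConcl A i g := by
  have hi1 : i ≠ 1 := fun h => hiA (h ▸ one_mem _)
  have hg1 : g ≠ 1 := fun h => hg (h ▸ one_mem _)
  have : Fact (Nat.Prime 2) := ⟨Nat.prime_two⟩
  let φ : Subgroup.zpowers i ≃* Subgroup.zpowers g :=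
    mulEquivOfPrimeCardEq (p := 2) (card_zpowers_invol hi hi1) (card_zpowers_invol hgg hg1)
  have hφ : (φ ⟨i, Subgroup.mem_zpowers i⟩ : G) = g := by
    rcases mem_zpowers_invol hgg (φ ⟨i, Subgroup.mem_zpowers i⟩).2 with h | h
    · exfalso
      have h2 : φ ⟨i, Subgroup.mem_zpowers i⟩ = 1 := Subtype.ext h
      have h3 := (map_eq_one_iff φ φ.injective).1 h2
      exact hi1 (congrArg Subtype.val h3)
    · exact h
  obtain ⟨B, gB, ι, f, h1, h2, h3, h4⟩ := girth A hodd Unit 20
  have hg' : g⁻¹ = g := inv_eq_of_mul_eq_one_left hgg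
  let D : SD G :=
    { A := A
      P := Subgroup.zpowers i
      Q := Subgroup.zpowers g
      φ := φ
      S := Unit
      e := fun _ => 1
      r := fun _ => 1
      s0 := ()
      es0 := rfl
      rs0 := rfl
      i := i
      g := g
      hi := hi
      hg := hg
      hmal := hmal
      hgi := hgi
      hQ := by
        intro a ha s s' h
        refine ⟨?_, rfl⟩
        rw [one_mul, inv_one, mul_one] at h
        rcases mem_zpowers_invol hgg h with h | h
        · exact h
        · exact absurd (h ▸ ha) hg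
      hP := by
        intro a ha s s' h
        refine ⟨?_, rfl⟩
        rw [one_mul, inv_one, mul_one] at h
        rcases mem_zpowers_invol hi h with h | h
        · exact h
        · exact absurd (h ▸ ha) hiA
      hfQ := by
        intro x a ha s h
        rw [inv_one, mul_one] at h
        rcases mem_zpowers_invol hgg h with h | h
        · left
          rw [eq_inv_of_mul_eq_one_left h]; exact inv_mem ha
        · right
          have : x = g * a⁻¹ := by rw [← h]; group
          rw [this, inv_mul_cancel_left]; exact inv_mem ha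
      hfP := by
        intro x a ha s h
        rw [inv_one, mul_one] at h
        rcases mem_zpowers_invol hi h with h | h
        · left
          rw [eq_inv_of_mul_eq_one_left h]; exact inv_mem ha
        · right
          have : x = i * a⁻¹ := by rw [← h]; group
          rw [this, inv_mul_cancel_left]; exact inv_mem ha
      hstar := by
        intro b hb1 hb2
        have h5 : g⁻¹ * (b * g) * g ∈ A := by
          have : g⁻¹ * (b * g) * g = g⁻¹ * b := by rw [mul_assoc, mul_assoc, hgg, mul_one]
          rw [this]; exact hb1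
        have h6 := hmal g hg _ hb2 h5
        have h7 : b = g := by
          rw [eq_inv_of_mul_eq_one_left h6, hg']
        rw [h7]; exact Subgroup.mem_zpowers g
      B := B
      gB := gB
      ι := ι
      f := f
      hι := h1
      finB := h2
      oddB := h3
      deep := h4 }
  apply concl_of_SD D
  have e : (of D.g⁻¹ * t * of D.i : D.Γ) = t := by
    have h5 : (t * of i : D.Γ) = of g * t := by
      have := t_mul_of (φ := D.φ) ⟨i, Subgroup.mem_zpowers i⟩
      rw [show ((D.φ ⟨i, Subgroup.mem_zpowers i⟩ : D.Q) : G) = g from hφ] at this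
      exact this
    change (of g⁻¹ * t * of i : D.Γ) = t
    rw [mul_assoc, h5, ← mul_assoc, ← map_mul, inv_mul_cancel, map_one, one_mul]
  rw [e]; exact D.t_mem_H

theorem step2 {G : Type} [Group G] [Countable G] (A : Subgroup G) [Finite A]
    (hodd : Odd (Nat.card A)) (hmal : Mal A) (i : G) (hi : i * i = 1) (hiA : i ∉ A) (g : G)
    (hg : g ∉ A) (hgi : ∀ a ∈ A, ∀ a' ∈ A, g ≠ a * i * a')
    (hno : ∀ y, g⁻¹ * y ∈ A → y * y ≠ 1) : StepConcl A i g := by
  obtain ⟨B, gB, ι, f, h1, h2, h3, h4⟩ := girth A hodd Bool 20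
  let D : SD G :=
    { A := A
      P := ⊥
      Q := ⊥
      φ := MulEquiv.refl _
      S := Bool
      e := fun s => if s then g else 1
      r := fun s => if s then i else 1
      s0 := false
      es0 := rfl
      rs0 := rfl
      i := i
      g := g
      hi := hi
      hg := hg
      hmal := hmal
      hgi := hgi
      hQ := by
        intro a ha s s' h
        rw [Subgroup.mem_bot] at h
        cases s <;> cases s' <;> simp at h ⊢
        · exact h
        · -- a * g⁻¹ = 1
          exact hg (by rw [← mul_inv_eq_one.1 h]; exact ha)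
        · exact hg (by rw [eq_inv_of_mul_eq_one_left h]; exact inv_mem ha)
        · exact h
      hP := by
        intro a ha s s' h
        rw [Subgroup.mem_bot] at h
        cases s <;> cases s' <;> simp at h ⊢
        · exact h
        · exact hiA (by rw [← mul_inv_eq_one.1 h]; exact ha)
        · exact hiA (by rw [eq_inv_of_mul_eq_one_left h]; exact inv_mem ha)
        · exact h
      hfQ := by
        intro x a ha s h
        rw [Subgroup.mem_bot] at h
        cases s
        · left
          simp at h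
          rw [eq_inv_of_mul_eq_one_left h]; exact inv_mem ha
        · right
          simp at h
          have : x = g * a⁻¹ := by rw [← mul_inv_eq_one.1 h]; group
          rw [this, inv_mul_cancel_left]; exact inv_mem ha
      hfP := by
        intro x a ha s h
        rw [Subgroup.mem_bot] at h
        cases s
        · left
          simp at h
          rw [eq_inv_of_mul_eq_one_left h]; exact inv_mem ha
        · right
          simp at h
          have : x = i * a⁻¹ := by rw [← mul_inv_eq_one.1 h]; group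
          rw [this, inv_mul_cancel_left]; exact inv_mem ha
      hstar := by
        intro b hb1 hb2
        exfalso
        apply hno b hb1
        have h5 : b * b ∈ A := by
          have : b * b = (b * g) * (g⁻¹ * b) := by group
          rw [this]; exact mul_mem hb2 hb1
        have h6 : g⁻¹ * (b * b) * g ∈ A := by
          have : g⁻¹ * (b * b) * g = (g⁻¹ * b) * (b * g) := by group
          rw [this]; exact mul_mem hb1 hb2
        exact hmal g hg _ h5 h6
      B := B
      gB := gB
      ι := ι
      f := f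
      hι := h1
      finB := h2
      oddB := h3
      deep := h4 }
  apply concl_of_SD D
  exact D.τ_mem_H true

theorem step {G : Type} [Group G] [Countable G] (A : Subgroup G) [Finite A]
    (hodd : Odd (Nat.card A)) (hmal : Mal A) (i : G) (hi : i * i = 1) (hiA : i ∉ A) (g : G) :
    StepConcl A i g := by
  by_cases hg : g ∈ A
  · exact ⟨G, inferInstance, inferInstance, MonoidHom.id G, A, Function.injective_id, inferInstance,
      hodd, hmal, fun x => Iff.rfl, Or.inl hg⟩
  by_cases hgi : ∃ a ∈ A, ∃ a' ∈ A, g = a * i * a'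
  · exact ⟨G, inferInstance, inferInstance, MonoidHom.id G, A, Function.injective_id, inferInstance,
      hodd, hmal, fun x => Iff.rfl, Or.inr hgi⟩
  have hgi' : ∀ a ∈ A, ∀ a' ∈ A, g ≠ a * i * a' := fun a ha a' ha' h => hgi ⟨a, ha, a', ha', h⟩
  by_cases hno : ∃ y, g⁻¹ * y ∈ A ∧ y * y = 1
  · obtain ⟨y, hy, hyy⟩ := hno
    have hyA : y ∉ A := by
      intro h
      apply hg
      have : g = y * (g⁻¹ * y)⁻¹ := by group
      rw [this]; exact mul_mem h (inv_mem hy)
    have hyi : ∀ a ∈ A, ∀ a' ∈ A, y ≠ a * i * a' := by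
      intro a ha a' ha' h
      apply hgi' a ha (a' * (g⁻¹ * y)⁻¹) (mul_mem ha' (inv_mem hy))
      have : g = y * (g⁻¹ * y)⁻¹ := by group
      rw [← mul_assoc, ← h]; exact this
    obtain ⟨G₁, iG, iC, j, A₁, k1, k2, k3, k4, k5, k6⟩ := step1 A hodd hmal i hi hiA y hyA hyi hyy
    refine ⟨G₁, iG, iC, j, A₁, k1, k2, k3, k4, k5, ?_⟩
    have e : j g = j y * (j (g⁻¹ * y))⁻¹ := by
      rw [← map_inv, ← map_mul]; congr 1; group
    have h7 : (j (g⁻¹ * y))⁻¹ ∈ A₁ := inv_mem ((k5 _).2 hy)
    rcases k6 with k6 | ⟨a, ha, a', ha', k6⟩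
    · left; rw [e]; exact mul_mem k6 h7
    · right
      exact ⟨a, ha, a' * (j (g⁻¹ * y))⁻¹, mul_mem ha' h7, by rw [e, k6]; group⟩
  · exact step2 A hodd hmal i hi hiA g hg hgi' (fun y hy hyy => hno ⟨y, hy, hyy⟩)

end S2T
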