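import Mathlib

set_option autoImplicit false

namespace S2T

/-- A discrete tree metric on a type. -/
structure TreeDist (V : Type*) where
  d : V → V → ℕ
  d_self : ∀ x, d x x = 0
  eq_of_d : ∀ x y, d x y = 0 → x = y
  symm : ∀ x y, d x y = d y x
  tri : ∀ x y z, d x z ≤ d x y + d y z
  med : ∀ x y z, ∃ m, d x m + d m y = d x y ∧ d y m + d m z = d y z ∧ d x m + d m z = d x z
  chain : ∀ x y z z', d x z + d z y = d x y → d x z' + d z' y = d x y → d x z ≤ d x z' →
    d x z + d z z' = d x z'
  disc : ∀ x y, x ≠ y → ∃ w, d x w = 1 ∧ d x w + d w y = d x y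

namespace TreeDist

variable {V : Type*} (T : TreeDist V)

/-- `z` is between `x` and `y`. -/
def Btw (x z y : V) : Prop := T.d x z + T.d z y = T.d x y

def Convex (S : Set V) : Prop := ∀ x ∈ S, ∀ y ∈ S, ∀ z, T.Btw x z y → z ∈ S

def IsGate (S : Set V) (x p : V) : Prop := p ∈ S ∧ ∀ s ∈ S, T.d x s = T.d x p + T.d p s

variable {T}

theorem Btw.symm {x z y : V} (h : T.Btw x z y) : T.Btw y z x := by
  unfold Btw at *
  rw [T.symm y z, T.symm z x, T.symm y x]
  omega

theorem d_pos {x y : V} (h : x ≠ y) : 0 < T.d x y := by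
  rcases Nat.eq_zero_or_pos (T.d x y) with h0 | h0
  · exact absurd (T.eq_of_d _ _ h0) h
  · exact h0

theorem gate_exists {S : Set V} (hS : T.Convex S) (hne : S.Nonempty) (x : V) :
    ∃ p, T.IsGate S x p := by
  classical
  obtain ⟨s0, hs0⟩ := hne
  have hex : ∃ n, ∃ p ∈ S, T.d x p = n := ⟨_, s0, hs0, rfl⟩
  obtain ⟨p, hp, hpn⟩ := Nat.find_spec hex
  refine ⟨p, hp, fun s hs => ?_⟩
  obtain ⟨m, h1, h2, h3⟩ := T.med x p s
  have hm : m ∈ S := hS p hp s hs m h2
  have hmin : T.d x p ≤ T.d x m := by
    rw [hpn]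
    exact Nat.find_min' hex ⟨m, hm, rfl⟩
  have h0 : T.d m p = 0 := by omega
  have : m = p := T.eq_of_d _ _ h0
  subst this
  exact h3.symm

theorem gate_unique {S : Set V} {x p q : V} (hp : T.IsGate S x p) (hq : T.IsGate S x q) :
    p = q := by
  have h1 := hp.2 q hq.1
  have h2 := hq.2 p hp.1
  have h3 := T.symm p q
  exact T.eq_of_d _ _ (by omega)

theorem gate_of_mem {S : Set V} {x : V} (hx : x ∈ S) : T.IsGate S x x :=
  ⟨hx, fun s _ => by rw [T.d_self]; omega⟩

theorem gate_eq_self {S : Set V} {x p : V} (hp : T.IsGate S x p) (hx : x ∈ S) : p = x :=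
  gate_unique hp (gate_of_mem hx)

/-- local-to-global for geodesics. -/
theorem loc {x p q y : V} (h1 : T.Btw x p q) (h2 : T.Btw p q y) (hpq : p ≠ q) :
    T.d x y = T.d x p + T.d p q + T.d q y := by
  unfold Btw at h1 h2
  obtain ⟨m, m1, m2, m3⟩ := T.med x q y
  -- m1 : x m + m q = x q, m2 : q m + m y = q y, m3 : x m + m y = x y
  have hpos := d_pos (T := T) hpq
  have s1 := T.symm q m
  have s2 := T.symm q p
  have s3 := T.symm q x
  have s4 := T.symm m x
  have s5 := T.symm p x
  have s6 := T.symm m p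
  rcases le_total (T.d q m) (T.d q p) with h | h
  · have := T.chain q x m p (by omega) (by omega) h
    -- q m + m p = q p
    have t1 := T.tri p m y
    have : T.d q m = 0 := by omega
    have : q = m := T.eq_of_d _ _ this
    subst this
    omega
  · have := T.chain q x p m (by omega) (by omega) h
    -- q p + p m = q m
    have t1 := T.tri p m y
    omega

theorem gates_ne {S : Set V} {a b p q : V} (hp : T.IsGate S a p) (hq : T.IsGate S b q)
    (hpq : p ≠ q) : T.d a b = T.d a p + T.d p q + T.d q b := by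
  apply loc _ _ hpq
  · have := hp.2 q hq.1
    unfold Btw; omega
  · have := hq.2 p hp.1
    unfold Btw
    rw [T.symm p q, T.symm q b, T.symm p b]; omega

theorem gate_lip {S : Set V} {a b p q : V} (hp : T.IsGate S a p) (hq : T.IsGate S b q) :
    T.d p q ≤ T.d a b := by
  by_cases hpq : p = q
  · subst hpq; rw [T.d_self]; omega
  · have := gates_ne hp hq hpq; omega

theorem gate_eq_of_avoid {S : Set V} {a b p q : V} (hp : T.IsGate S a p) (hq : T.IsGate S b q)
    (h : ∀ z, T.Btw a z b → z ∉ S) : p = q := by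
  by_contra hpq
  have h1 := gates_ne hp hq hpq
  have h2 := hq.2 p hp.1
  apply h p _ hp.1
  unfold Btw
  rw [T.symm p b, h2, T.symm b q, T.symm q p]
  omega

/-- the gate in a subset -/
theorem gate_sub {S S' : Set V} {x p q : V} (hss : S ⊆ S') (hq : T.IsGate S' x q)
    (hp : T.IsGate S x p) : T.IsGate S q p := by
  refine ⟨hp.1, fun s hs => ?_⟩
  have h1 := hp.2 s hs
  have h2 := hq.2 s (hss hs)
  have h3 := hq.2 p (hss hp.1)
  omega

theorem gate_sub' {S S' : Set V} {x p q : V} (hss : S ⊆ S') (hq : T.IsGate S' x q)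
    (hp : T.IsGate S q p) : T.IsGate S x p := by
  refine ⟨hp.1, fun s hs => ?_⟩
  have h1 := hp.2 s hs
  have h2 := hq.2 s (hss hs)
  have h3 := hq.2 p (hss hp.1)
  omega

/-- adjacent vertices have distances to any vertex differing by exactly one. -/
theorem adj_diff {x y : V} (h : T.d x y = 1) (z : V) :
    T.d z x = T.d z y + 1 ∨ T.d z y = T.d z x + 1 := by
  obtain ⟨m, h1, h2, h3⟩ := T.med x y z
  have s1 := T.symm z x
  have s2 := T.symm z y
  have s3 := T.symm x y
  rcases Nat.eq_zero_or_pos (T.d x m) with h0 | h0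
  · have := T.eq_of_d _ _ h0
    subst this
    right
    omega
  · have h5 : T.d m y = 0 := by omega
    have := T.eq_of_d _ _ h5
    subst this
    left; omega

theorem adj_of_next_gate {S : Set V} {x q w : V} (hg : T.IsGate S x q)
    (hw : T.d q w = 1) (hb : T.Btw q w x) : w ∉ S := by
  intro hwS
  have h1 := hg.2 w hwS
  unfold Btw at hb
  have := T.symm w x
  have := T.symm q x
  omega

/-- the first vertex from the gate is the same along a path avoiding `S`. -/
theorem next_same {S : Set V} {u u' q p : V} (hq : q ∈ S)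
    (h : ∀ z, T.Btw u z u' → z ∉ S) (h1 : T.d q p = 1) (h2 : T.Btw q p u) : T.Btw q p u' := by
  obtain ⟨m, m1, m2, m3⟩ := T.med q u u'
  have hm : m ∉ S := h m m2
  have hqm : q ≠ m := by
    intro h; subst h; exact hm hq
  have hpos := d_pos (T := T) hqm
  unfold Btw at *
  have := T.chain q u p m h2 m1 (by omega)
  have t1 := T.tri p m u'
  have t2 := T.tri q p u'
  omega

theorem union_convex {S S' : Set V} (hS : T.Convex S) (hS' : T.Convex S') {u : V}
    (hu : u ∈ S) (hu' : u ∈ S') : T.Convex (S ∪ S') := by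
  have key : ∀ x ∈ S, ∀ y ∈ S', ∀ z, T.Btw x z y → z ∈ S ∪ S' := by
    intro x hx y hy z hz
    obtain ⟨m, m1, m2, m3⟩ := T.med x y u
    have hmS' : m ∈ S' := hS' y hy u hu' m m2
    have hmS : m ∈ S := hS x hx u hu m m3
    unfold Btw at hz
    rcases le_total (T.d x z) (T.d x m) with h | h
    · left
      exact hS x hx m hmS z (T.chain x y z m hz m1 h)
    · right
      have h4 := T.chain x y m z m1 hz h
      exact hS' m hmS' y hy z (by unfold Btw; omega)
  intro x hx y hy z hz
  rcases hx with hx | hx <;> rcases hy with hy | hy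
  · left; exact hS x hx y hy z hz
  · exact key x hx y hy z hz
  · exact key y hy x hx z hz.symm
  · right; exact hS' x hx y hy z hz

theorem btw_mid_lt {u u' w z : V} (h : T.Btw u w u') (h1 : w ≠ u) (h2 : w ≠ u') :
    T.d w z < T.d u z ∨ T.d w z < T.d u' z := by
  obtain ⟨m, m1, m2, m3⟩ := T.med u u' z
  unfold Btw at h
  have p1 := d_pos (T := T) h1
  have p2 := d_pos (T := T) h2
  have s1 := T.symm u w
  have s2 := T.symm u' w
  have s3 := T.symm u' m
  rcases le_total (T.d u w) (T.d u m) with hle | hle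
  · left
    have := T.chain u u' w m h m1 hle
    have t := T.tri w m z
    omega
  · right
    have := T.chain u u' m w m1 h hle
    have s4 := T.symm w m
    have t := T.tri w m z
    omega

/-- center lemma: an isometry preserving a bounded nonempty convex set squares to something
fixing a point of it. -/
theorem center {I : Set V} (hI : T.Convex I) (hne : I.Nonempty) (B : ℕ)
    (hB : ∀ x ∈ I, ∀ y ∈ I, T.d x y ≤ B) (β : V → V)
    (hβ : ∀ x y, T.d (β x) (β y) = T.d x y) (hβI : ∀ x ∈ I, β x ∈ I)
    (hsurj : ∀ z ∈ I, ∃ z' ∈ I, β z' = z) : ∃ u ∈ I, β (β u) = u := by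
  classical
  obtain ⟨x0, hx0⟩ := hne
  have hex : ∃ n, ∃ u ∈ I, ∀ z ∈ I, T.d u z ≤ n := ⟨B, x0, hx0, fun z hz => hB _ hx0 _ hz⟩
  obtain ⟨u, hu, hur⟩ := Nat.find_spec hex
  set ρ := Nat.find hex with hρ
  have hmin : ∀ n, (∃ u ∈ I, ∀ z ∈ I, T.d u z ≤ n) → ρ ≤ n := fun n hn => Nat.find_min' hex hn
  -- two centers are within distance one
  have close : ∀ u ∈ I, ∀ u' ∈ I, (∀ z ∈ I, T.d u z ≤ ρ) → (∀ z ∈ I, T.d u' z ≤ ρ) →
      T.d u u' ≤ 1 := by
    intro u hu u' hu' h1 h2
    by_contra hcon
    have hne : u ≠ u' := by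
      intro h; subst h; rw [T.d_self] at hcon; omega
    obtain ⟨w, hw1, hw2⟩ := T.disc u u' hne
    have hwu : w ≠ u := by
      intro h; subst h; rw [T.d_self] at hw1; omega
    have hwu' : w ≠ u' := by
      intro h; subst h; omega
    have hwI : w ∈ I := hI u hu u' hu' w hw2
    have hlt : ∀ z ∈ I, T.d w z < ρ := by
      intro z hz
      rcases btw_mid_lt (T := T) (z := z) hw2 hwu hwu' with h | h
      · exact lt_of_lt_of_le h (h1 z hz)
      · exact lt_of_lt_of_le h (h2 z hz)
    have hρ0 : 0 < ρ := lt_of_le_of_lt (Nat.zero_le _) (hlt u hu)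
    have := hmin (ρ - 1) ⟨w, hwI, fun z hz => by have := hlt z hz; omega⟩
    omega
  have hcen : ∀ v ∈ I, (∀ z ∈ I, T.d v z ≤ ρ) → ∀ z ∈ I, T.d (β v) z ≤ ρ := by
    intro v hv h z hz
    obtain ⟨z', hz', rfl⟩ := hsurj z hz
    rw [hβ]; exact h z' hz'
  have c1 := hcen u hu hur
  have c2 := hcen (β u) (hβI u hu) c1
  have hβu := hβI u hu
  have hββu := hβI _ hβu
  have d1 := close u hu _ hβu hur c1
  have d2 := close u hu _ hββu hur c2
  refine ⟨u, hu, ?_⟩
  have e1 := hβ u (β u)
  rcases Nat.eq_zero_or_pos (T.d u (β (β u))) with h0 | h0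
  · exact (T.eq_of_d _ _ h0).symm
  · have h1 : T.d u (β (β u)) = 1 := by omega
    have s := T.symm u (β u)
    rcases adj_diff (T := T) h1 (β u) with h | h
    · have : T.d (β u) u = 0 ∨ T.d (β u) u = 1 := by omega
      omega
    · omega

/-- every vertex between the ends of a chain of adjacent vertices is on the chain -/
theorem mem_of_chain {S : Set V} {x y z : V} (h : T.Btw x z y)
    (hc : Relation.ReflTransGen (fun a b => T.d a b = 1 ∧ b ∈ S) x y) (hx : x ∈ S) : z ∈ S := by
  induction hc using Relation.ReflTransGen.head_induction_on with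
  | refl =>
    unfold Btw at h
    rw [T.d_self] at h
    have : T.d y z = 0 := by omega
    have := T.eq_of_d _ _ this
    subst this; exact hx
  | head hab hbc ih =>
    rename_i a b
    by_cases hza : z = a
    · subst hza; exact hx
    · apply ih _ hab.2
      unfold Btw at *
      rcases adj_diff (T := T) hab.1 z with h1 | h1
      · have t := T.tri b z y
        have t' := T.tri a b y
        have s1 := T.symm z a
        have s2 := T.symm z b
        have := hab.1
        omega
      · have h2 : T.Btw y z a := by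
          unfold Btw
          rw [T.symm y z, T.symm z a, T.symm y a]; omega
        have h3 : T.Btw z a b := by
          unfold Btw
          have := hab.1
          omega
        have h4 := loc h2 h3 hza
        rw [T.symm b z, T.symm b y]
        have := hab.1
        have := T.symm z y
        omega

end TreeDist

end S2T
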