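import Pool.Agent.S2T.TreeDist

set_option autoImplicit false

namespace S2T

/-- Constructing a tree metric from local conditions. -/
def TreeDist.mk' {V : Type*} (d : V → V → ℕ) (d_self : ∀ x, d x x = 0)
    (eq_of_d : ∀ x y, d x y = 0 → x = y) (symm : ∀ x y, d x y = d y x)
    (tri : ∀ x y z, d x z ≤ d x y + d y z)
    (disc : ∀ x y, x ≠ y → ∃ w, d x w = 1 ∧ d x w + d w y = d x y)
    (U : ∀ z x a b, d x a = 1 → d x b = 1 → d z a < d z x → d z b < d z x → a = b)
    (NE : ∀ z x a, d x a = 1 → d z a ≠ d z x) : TreeDist V where
  d := d
  d_self := d_self
  eq_of_d := eq_of_d
  symm := symm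
  tri := tri
  disc := disc
  chain := by
    suffices h : ∀ (n : ℕ) (x y z z' : V), d x z = n → d x z + d z y = d x y →
        d x z' + d z' y = d x y → d x z ≤ d x z' → d x z + d z z' = d x z' from
      fun x y z z' => h _ x y z z' rfl
    intro n
    induction n with
    | zero =>
      intro x y z z' h0 _ _ _
      have := eq_of_d _ _ h0
      subst this
      rw [d_self]; omega
    | succ n ih =>
      intro x y z z' hn h1 h2 h3
      have hxz : x ≠ z := by
        intro h; subst h; rw [d_self] at hn; omega
      have hxz' : x ≠ z' := by
        intro h; subst h; rw [d_self] at h3; omega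
      obtain ⟨w, w1, w2⟩ := disc x z hxz
      obtain ⟨w', w1', w2'⟩ := disc x z' hxz'
      have t1 := tri w z y
      have t2 := tri x w y
      have t1' := tri w' z' y
      have t2' := tri x w' y
      have s1 := symm y w
      have s2 := symm y w'
      have s3 := symm y x
      have hww : w = w' := U y x w w' w1 w1' (by omega) (by omega)
      subst hww
      have := ih w y z z' (by omega) (by omega) (by omega) (by omega)
      omega
  med := by
    suffices h : ∀ (n : ℕ) (x y z : V), d x y = n → ∃ m, d x m + d m y = d x y ∧
        d y m + d m z = d y z ∧ d x m + d m z = d x z from fun x y z => h _ x y z rfl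
    intro n
    induction n with
    | zero =>
      intro x y z h0
      have := eq_of_d _ _ h0
      subst this
      exact ⟨x, by rw [d_self], by rw [d_self]; omega, by rw [d_self]; omega⟩
    | succ n ih =>
      intro x y z hn
      have hxy : x ≠ y := by
        intro h; subst h; rw [d_self] at hn; omega
      obtain ⟨x', h1, h2⟩ := disc x y hxy
      obtain ⟨m, m1, m2, m3⟩ := ih x' y z (by omega)
      have s1 := symm z x
      have s2 := symm z x'
      have s3 := symm x x'
      have t1 := tri x x' z
      have t2 := tri x' x z
      have ne := NE z x x' h1
      rcases Nat.lt_or_ge (d z x') (d z x) with hlt | hge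
      · -- x' is closer to z
        refine ⟨m, ?_, m2, ?_⟩
        · have t3 := tri x m y
          have t4 := tri x x' m
          omega
        · have t3 := tri x m z
          have t4 := tri x x' m
          omega
      · by_cases hm : x' = m
        · subst hm
          have s4 := symm y x'
          have s5 := symm y x
          refine ⟨x, ?_, ?_, ?_⟩
          · rw [d_self]; omega
          · omega
          · rw [d_self]; omega
        · exfalso
          obtain ⟨w, w1, w2⟩ := disc x' m hm
          have t3 := tri x' w z
          have t4 := tri w m z
          have t5 := tri x' w y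
          have t6 := tri w m y
          have s4 := symm z w
          have hwx : w = x := U z x' w x w1 (by omega) (by omega) (by omega)
          subst hwx
          have s5 := symm y w
          omega

end S2T
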