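import Pool.Agent.S2T.TreeDist

set_option autoImplicit false

namespace S2T

open TreeDist

/-- A group acting on a tree with a family of convex faces, and rotation groups of the faces. -/
structure Faces (Γ V F : Type*) [Group Γ] [MulAction Γ V] [MulAction Γ F] where
  T : TreeDist V
  iso : ∀ (g : Γ) (x y : V), T.d (g • x) (g • y) = T.d x y
  Y : F → Set V
  Yconv : ∀ c, T.Convex (Y c)
  Yne : ∀ c, (Y c).Nonempty
  Ysmul : ∀ (g : Γ) (c : F) (x : V), x ∈ Y c → g • x ∈ Y (g • c)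
  K : F → Subgroup Γ
  Kconj : ∀ (g : Γ) (c : F) (k : Γ), k ∈ K c → g * k * g⁻¹ ∈ K (g • c)
  Kfix : ∀ c, ∀ k ∈ K c, k • c = c
  A1 : ∀ c c' x y, c ≠ c' → x ∈ Y c → x ∈ Y c' → y ∈ Y c → y ∈ Y c' → T.d x y ≤ 2
  A2 : ∀ x y c c' c'', T.d x y = 1 → x ∈ Y c → y ∈ Y c → x ∈ Y c' → y ∈ Y c' →
    x ∈ Y c'' → y ∈ Y c'' → c = c' ∨ c = c'' ∨ c' = c''
  A2' : ∀ x y, T.d x y = 1 → ∃ c, x ∈ Y c ∧ y ∈ Y c
  A3 : ∀ c, ∀ k ∈ K c, k ≠ 1 → ∀ y ∈ Y c, 20 ≤ T.d y (k • y)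
  A4 : ∀ (c c' : F) (γ : Γ) (u : V), c ≠ c' → γ • c = c → γ • c' = c' → u ∈ Y c → u ∈ Y c' →
    γ • u = u → γ = 1

variable {Γ V F : Type*} [Group Γ] [MulAction Γ V] [MulAction Γ F]

namespace Faces

variable (D : Faces Γ V F)

theorem Ysmul_iff {D : Faces Γ V F} {g : Γ} {c : F} {x : V} : g • x ∈ D.Y (g • c) ↔ x ∈ D.Y c := by
  constructor
  · intro h
    have := D.Ysmul g⁻¹ _ _ h
    simpa using this
  · exact D.Ysmul g c x

theorem Kpres {D : Faces Γ V F} {c : F} {k : Γ} (hk : k ∈ D.K c) {x : V} (hx : x ∈ D.Y c) :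
    k • x ∈ D.Y c := by
  have := D.Ysmul k c x hx
  rwa [D.Kfix c k hk] at this

theorem Kconj' {D : Faces Γ V F} {c : F} {g k : Γ} (hk : k ∈ D.K (g • c)) :
    g⁻¹ * k * g ∈ D.K c := by
  have := D.Kconj g⁻¹ _ _ hk
  simpa using this

/-- translating gates -/
theorem gate_smul {D : Faces Γ V F} {S : Set V} {x p : V} (g : Γ) (h : D.T.IsGate S x p)
    {S' : Set V} (hS' : ∀ y, y ∈ S' ↔ g⁻¹ • y ∈ S) : D.T.IsGate S' (g • x) (g • p) := by
  refine ⟨?_, fun s hs => ?_⟩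
  · rw [hS']; simpa using h.1
  · rw [hS'] at hs
    have := h.2 _ hs
    have e1 := D.iso g x (g⁻¹ • s)
    have e2 := D.iso g p (g⁻¹ • s)
    rw [smul_inv_smul] at e1 e2
    rw [D.iso, e1, e2]; exact this

theorem gate_face {D : Faces Γ V F} {c : F} {x p : V} {k : Γ} (hk : k ∈ D.K c)
    (h : D.T.IsGate (D.Y c) x p) : D.T.IsGate (D.Y c) (k • x) (k • p) := by
  apply gate_smul k h
  intro y
  constructor
  · intro hy; exact Kpres (inv_mem hk) hy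
  · intro hy
    have := Kpres hk hy
    simpa using this

end Faces

/-- A windmill. -/
structure Mill (D : Faces Γ V F) (H M : Subgroup Γ) where
  W : Set V
  N : Subgroup Γ
  C : Set F
  w0 : D.T.Convex W
  w0' : W.Nonempty
  w1 : ∀ n ∈ N, ∀ x ∈ W, n • x ∈ W
  w1' : ∀ n ∈ N, ∀ c ∈ C, n • c ∈ C
  w2 : ∀ c ∈ C, D.Y c ⊆ W
  w2' : ∀ c ∈ C, D.K c ≤ N
  w3 : ∀ c ∉ C, ∀ x ∈ D.Y c, ∀ y ∈ D.Y c, x ∈ W → y ∈ W → D.T.d x y ≤ 4
  w4 : ∀ n ∈ N, n ≠ 1 → ∀ v ∈ W, 5 ≤ D.T.d v (n • v)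
  w5 : ∀ c ∈ C, ∀ n ∈ N, ∀ v ∈ D.Y c, n • v ∈ D.Y c → n ∈ D.K c
  w6 : ∀ u ∈ W, ∀ c ∉ C, u ∈ D.Y c → ∀ d₁ ∈ C, ∀ d₂ ∈ C, ∀ d₃ ∈ C, u ∈ D.Y d₁ → u ∈ D.Y d₂ →
    u ∈ D.Y d₃ → d₁ = d₂ ∨ d₁ = d₃ ∨ d₂ = d₃
  w7 : ∀ x ∈ W, ∃ c ∈ C, x ∈ D.Y c
  w8 : ∀ h ∈ H, ∀ x ∈ W, h • x ∈ W
  w8' : ∀ h ∈ H, ∀ c ∈ C, h • c ∈ C
  w8'' : ∀ h ∈ H, ∀ n ∈ N, h * n * h⁻¹ ∈ N
  w9 : N ≤ M

namespace Mill

variable {D : Faces Γ V F} {H M : Subgroup Γ} (m : Mill D H M)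

/-- new faces -/
def Dn : Set F := {c | c ∉ m.C ∧ ∃ x, x ∈ D.Y c ∧ x ∈ m.W}

def E : Set F := {c | c ∈ m.C ∨ c ∈ m.Dn}

def Wh : Set V := {x | ∃ c ∈ m.E, x ∈ D.Y c}

def N' : Subgroup Γ := Subgroup.closure {g | g ∈ m.N ∨ ∃ d ∈ m.Dn, g ∈ D.K d}

def W' : Set V := {x | ∃ g ∈ m.N', g • x ∈ m.Wh}

def C' : Set F := {c | ∃ g ∈ m.N', g • c ∈ m.E}

def Z (d : F) : Set V := {x | x ∈ D.Y d ∧ ∃ z, z ∈ D.Y d ∧ z ∈ m.W ∧ D.T.d x z ≤ 2}

inductive Gal : Option F → Γ → Prop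
  | nil (ν : Γ) (h : ν ∈ m.N) : Gal none ν
  | cons (o : Option F) (d : F) (k g : Γ) (hd : d ∈ m.Dn) (hk : k ∈ D.K d) (hk1 : k ≠ 1)
      (hg : Gal o g) (ho : o ≠ some d) : Gal (some d) (k * g)

variable {m}

theorem W_sub_Wh {x : V} (hx : x ∈ m.W) : x ∈ m.Wh := by
  obtain ⟨c, hc, h⟩ := m.w7 x hx
  exact ⟨c, Or.inl hc, h⟩

theorem Y_sub_Wh {c : F} (hc : c ∈ m.E) : D.Y c ⊆ m.Wh := fun _ hx => ⟨c, hc, hx⟩

theorem Yd_sub_Wh {c : F} (hc : c ∈ m.Dn) : D.Y c ⊆ m.Wh := fun _ hx => ⟨c, Or.inr hc, hx⟩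

theorem N_smul_W_iff {n : Γ} (hn : n ∈ m.N) {x : V} : n • x ∈ m.W ↔ x ∈ m.W := by
  constructor
  · intro h
    have := m.w1 _ (inv_mem hn) _ h
    simpa using this
  · exact m.w1 n hn x

theorem N_smul_C_iff {n : Γ} (hn : n ∈ m.N) {c : F} : n • c ∈ m.C ↔ c ∈ m.C := by
  constructor
  · intro h
    have := m.w1' _ (inv_mem hn) _ h
    simpa using this
  · exact m.w1' n hn c

theorem N_Dn {n : Γ} (hn : n ∈ m.N) {c : F} (hc : c ∈ m.Dn) : n • c ∈ m.Dn := by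
  obtain ⟨h1, x, h2, h3⟩ := hc
  exact ⟨fun h => h1 ((N_smul_C_iff hn).1 h), n • x, D.Ysmul n c x h2, m.w1 n hn x h3⟩

theorem N_E {n : Γ} (hn : n ∈ m.N) {c : F} (hc : c ∈ m.E) : n • c ∈ m.E := by
  rcases hc with hc | hc
  · left; exact m.w1' n hn c hc
  · right; exact N_Dn hn hc

theorem N_Wh {n : Γ} (hn : n ∈ m.N) {x : V} (hx : x ∈ m.Wh) : n • x ∈ m.Wh := by
  obtain ⟨c, hc, h⟩ := hx
  exact ⟨n • c, N_E hn hc, D.Ysmul n c x h⟩

theorem N_le_N' : m.N ≤ m.N' := fun _ hx => Subgroup.subset_closure (Or.inl hx)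

theorem K_le_N'_of_Dn {d : F} (hd : d ∈ m.Dn) : D.K d ≤ m.N' :=
  fun _ hx => Subgroup.subset_closure (Or.inr ⟨d, hd, hx⟩)

theorem K_le_N' {d : F} (hd : d ∈ m.E) : D.K d ≤ m.N' := by
  rcases hd with hd | hd
  · exact (m.w2' d hd).trans N_le_N'
  · exact K_le_N'_of_Dn hd

/-- Lemma B -/
theorem gateW_mem {d : F} (hd : d ∈ m.Dn) {x p : V} (hx : x ∈ D.Y d)
    (hp : D.T.IsGate m.W x p) : p ∈ D.Y d := by
  obtain ⟨_, w, hw1, hw2⟩ := hd
  exact D.Yconv d x hx w hw1 p (hp.2 w hw2).symm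

theorem exists_gateW (x : V) : ∃ p, D.T.IsGate m.W x p := gate_exists m.w0 m.w0' x

theorem exists_gateY (c : F) (x : V) : ∃ p, D.T.IsGate (D.Y c) x p :=
  gate_exists (D.Yconv c) (D.Yne c) x

/-- Lemma P -/
theorem lemP {d c : F} (hd : d ∈ m.Dn) (hc : c ∈ m.E) (hcd : c ≠ d) {x : V}
    (hx : x ∈ D.Y d) (hx' : x ∈ D.Y c) : x ∈ m.Z d := by
  refine ⟨hx, ?_⟩
  by_cases hxW : x ∈ m.W
  · exact ⟨x, hx, hxW, by rw [D.T.d_self]; omega⟩
  · have hc' : c ∈ m.Dn := by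
      rcases hc with hc | hc
      · exact absurd (m.w2 c hc hx') hxW
      · exact hc
    obtain ⟨p, hp⟩ := exists_gateW (m := m) x
    have h1 := gateW_mem hd hx hp
    have h2 := gateW_mem hc' hx' hp
    exact ⟨p, h1, hp.1, D.A1 c d x p hcd hx' hx h2 h1⟩

theorem Wh_convex : D.T.Convex m.Wh := by
  -- any two points of `Wh` lie in a convex subset
  have h1 : ∀ c ∈ m.E, ∃ S : Set V, D.T.Convex S ∧ D.Y c ⊆ S ∧ m.W ⊆ S ∧ S ⊆ m.Wh := by
    intro c hc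
    rcases hc with hc | hc
    · exact ⟨m.W, m.w0, m.w2 c hc, subset_rfl, fun x hx => W_sub_Wh hx⟩
    · obtain ⟨_, w, hw1, hw2⟩ := id hc
      refine ⟨D.Y c ∪ m.W, union_convex (D.Yconv c) m.w0 hw1 hw2, Set.subset_union_left,
        Set.subset_union_right, ?_⟩
      rintro x (hx | hx)
      · exact Yd_sub_Wh hc hx
      · exact W_sub_Wh hx
  intro x hx y hy z hz
  obtain ⟨c, hc, hxc⟩ := hx
  obtain ⟨c', hc', hyc'⟩ := hy
  obtain ⟨S, s1, s2, s3, s4⟩ := h1 c hc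
  obtain ⟨S', s1', s2', s3', s4'⟩ := h1 c' hc'
  obtain ⟨w, hw⟩ := m.w0'
  have := union_convex s1 s1' (s3 hw) (s3' hw) x (Or.inl (s2 hxc)) y (Or.inr (s2' hyc')) z hz
  rcases this with h | h
  · exact s4 h
  · exact s4' h

theorem Wh_ne : m.Wh.Nonempty := by
  obtain ⟨w, hw⟩ := m.w0'
  exact ⟨w, W_sub_Wh hw⟩

theorem exists_gateWh (x : V) : ∃ p, D.T.IsGate m.Wh x p := gate_exists Wh_convex Wh_ne x

/-- Lemma S -/
theorem lemS {d : F} (hd : d ∈ m.Dn) {x w : V} (hx : x ∈ D.Y d) (hw : w ∈ m.Wh)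
    (hwd : w ∉ D.Y d) (hxw : D.T.d x w = 1) : x ∈ m.Z d := by
  by_cases hxW : x ∈ m.W
  · exact ⟨hx, x, hx, hxW, by rw [D.T.d_self]; omega⟩
  obtain ⟨p, hp⟩ := exists_gateW (m := m) x
  have hpd := gateW_mem hd hx hp
  have hwW : w ∉ m.W := by
    intro hwW
    have h1 := hp.2 w hwW
    have hpos : 0 < D.T.d x p := by
      apply d_pos
      intro h; subst h; exact hxW hp.1
    have h2 : D.T.d p w = 0 := by omega
    have := D.T.eq_of_d _ _ h2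
    subst this
    exact hwd hpd
  obtain ⟨c, hc, hwc⟩ := hw
  have hc' : c ∈ m.Dn := by
    rcases hc with hc | hc
    · exact absurd (m.w2 c hc hwc) hwW
    · exact hc
  obtain ⟨p', hp'⟩ := exists_gateW (m := m) w
  have hpp : p = p' := by
    apply gate_eq_of_avoid hp hp'
    intro z hz hzW
    unfold TreeDist.Btw at hz
    rcases Nat.eq_zero_or_pos (D.T.d x z) with h0 | h0
    · have := D.T.eq_of_d _ _ h0
      subst this; exact hxW hzW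
    · have h0' : D.T.d z w = 0 := by omega
      have := D.T.eq_of_d _ _ h0'
      subst this; exact hwW hzW
  subst hpp
  have hpc := gateW_mem hc' hwc hp'
  rcases adj_diff (T := D.T) hxw p with h | h
  · -- d p x = d p w + 1 : w between p and x
    exfalso
    apply hwd
    refine D.Yconv d p hpd x hx w ?_
    unfold TreeDist.Btw
    rw [D.T.symm w x]; omega
  · have hxc : x ∈ D.Y c := by
      refine D.Yconv c p hpc w hwc x ?_
      unfold TreeDist.Btw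
      omega
    apply lemP hd hc _ hx hxc
    intro h; subst h; exact hwd hwc

/-- Lemma G -/
theorem lemG {d : F} (hd : d ∈ m.Dn) {y q : V} (hy : y ∈ m.Wh) (hyd : y ∉ D.Y d)
    (hq : D.T.IsGate (D.Y d) y q) : q ∈ m.Z d := by
  have hne : q ≠ y := by
    intro h; subst h; exact hyd hq.1
  obtain ⟨w, hw1, hw2⟩ := D.T.disc q y hne
  have hwd := adj_of_next_gate hq hw1 hw2
  have hwW : w ∈ m.Wh := Wh_convex q (Yd_sub_Wh hd hq.1) y hy w hw2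
  exact lemS hd hq.1 hwW hwd hw1

theorem lemZ0 {d : F} (hd : d ∈ m.Dn) {x x' : V} (hx : x ∈ m.Z d) (hx' : x' ∈ m.Z d) :
    D.T.d x x' ≤ 8 := by
  obtain ⟨_, z, hz1, hz2, hz3⟩ := hx
  obtain ⟨_, z', hz1', hz2', hz3'⟩ := hx'
  have := m.w3 d hd.1 z hz1 z' hz1' hz2 hz2'
  have t1 := D.T.tri x z x'
  have t2 := D.T.tri z z' x'
  have := D.T.symm z' x'
  omega

/-- Lemma Z -/
theorem lemZ {d : F} (hd : d ∈ m.Dn) {k : Γ} (hk : k ∈ D.K d) (hk1 : k ≠ 1) {x x' : V}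
    (hx : x ∈ m.Z d) (hx' : x' ∈ m.Z d) : 12 ≤ D.T.d x (k • x') := by
  have h1 := D.A3 d k hk hk1 x hx.1
  have h2 := lemZ0 hd hx hx'
  have h3 := D.iso k x x'
  have t := D.T.tri x (k • x') (k • x)
  have := D.T.symm (k • x') (k • x)
  omega

/-- Lemma GL2 -/
theorem GL2 {d : F} (hd : d ∈ m.Dn) {k : Γ} (hk : k ∈ D.K d) (hk1 : k ≠ 1) {x p : V}
    (hp : D.T.IsGate (D.Y d) x p) (hpZ : p ∈ m.Z d) : D.T.IsGate m.Wh (k • x) (k • p) := by
  obtain ⟨q, hq⟩ := exists_gateWh (m := m) (k • x)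
  have hkp := Faces.gate_face hk hp
  have h1 : D.T.IsGate (D.Y d) q (k • p) := gate_sub (Yd_sub_Wh hd) hq hkp
  by_cases hqd : q ∈ D.Y d
  · have := gate_eq_self h1 hqd
    rw [this]; exact hq
  · exfalso
    have h2 := lemG hd hq.1 hqd h1
    have := lemZ hd hk hk1 h2 hpZ
    rw [D.T.d_self] at this
    omega

/-- Lemma GL1 -/
theorem GL1 {o : Option F} {g : Γ} (hg : m.Gal o g) : ∀ d ∈ m.Dn, o ≠ some d → ∀ y ∈ m.Wh,
    (∃ p, D.T.IsGate (D.Y d) (g • y) p ∧ p ∈ m.Z d) ∨ (g ∈ m.N ∧ g • y ∈ D.Y d) := by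
  induction hg with
  | nil ν hν =>
    intro d hd _ y hy
    by_cases h : ν • y ∈ D.Y d
    · right; exact ⟨hν, h⟩
    · left
      obtain ⟨p, hp⟩ := exists_gateY (D := D) d (ν • y)
      exact ⟨p, hp, lemG hd (N_Wh hν hy) h hp⟩
  | cons o' d' k' g' hd' hk' hk1' hg' ho' ih =>
    intro d hd hne y hy
    left
    have hdd' : d' ≠ d := fun h => hne (by rw [h])
    -- gate in `Wh`
    have key : ∃ q, D.T.IsGate m.Wh ((k' * g') • y) q ∧ q ∈ D.Y d' := by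
      rcases ih d' hd' ho' y hy with ⟨p', hp', hpZ'⟩ | ⟨_, h2⟩
      · refine ⟨k' • p', ?_, Faces.Kpres hk' hpZ'.1⟩
        rw [mul_smul]
        exact GL2 hd' hk' hk1' hp' hpZ'
      · have h3 : (k' * g') • y ∈ D.Y d' := by
          rw [mul_smul]; exact Faces.Kpres hk' h2
        exact ⟨_, gate_of_mem (Yd_sub_Wh hd' h3), h3⟩
    obtain ⟨q, hq, hqd'⟩ := key
    by_cases hqd : q ∈ D.Y d
    · exact ⟨q, gate_sub' (Yd_sub_Wh hd) hq (gate_of_mem hqd),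
        lemP hd (Or.inr hd') hdd' hqd hqd'⟩
    · obtain ⟨p, hp⟩ := exists_gateY (D := D) d q
      exact ⟨p, gate_sub' (Yd_sub_Wh hd) hq hp, lemG hd hq.1 hqd hp⟩

/-- Lemma R -/
theorem lemR0 {o : Option F} {n : Γ} (hn : m.Gal o n) : ∀ c ∈ m.E, ∀ c' ∈ m.E, ∀ v ∈ D.Y c,
    n • v ∈ D.Y c' → ∃ κ' ∈ D.K c', ∃ ν ∈ m.N, ∃ κ ∈ D.K c, n = κ' * ν * κ := by
  induction hn with
  | nil ν hν =>
    intro c _ c' _ v _ _
    exact ⟨1, one_mem _, ν, hν, 1, one_mem _, by simp⟩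
  | cons o d k g hd hk hk1 hg ho ih =>
    intro c hc c' hc' v hv hnv
    rw [mul_smul] at hnv
    have hvW : v ∈ m.Wh := Y_sub_Wh hc hv
    rcases GL1 hg d hd ho v hvW with ⟨p, hp, hpZ⟩ | ⟨hgN, hgv⟩
    · have hq := GL2 hd hk hk1 hp hpZ
      have h1 := gate_eq_self hq (Y_sub_Wh hc' hnv)
      have h2 : p = g • v := by
        have := congrArg (fun x => k⁻¹ • x) h1
        simpa using this
      subst h2
      by_cases hcd : c' = d
      · subst hcd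
        obtain ⟨κ', h1, ν, h2, κ, h3, h4⟩ := ih c hc c' hc' v hv hpZ.1
        exact ⟨k * κ', mul_mem hk h1, ν, h2, κ, h3, by rw [h4]; group⟩
      · exfalso
        have h3 := lemP hd hc' hcd (Faces.Kpres hk hpZ.1) hnv
        have := lemZ hd hk hk1 h3 hpZ
        rw [D.T.d_self] at this
        omega
    · by_cases hcd : c' = d
      · subst hcd
        exact ⟨k, hk, g, hgN, 1, one_mem _, by simp⟩
      · have h3 := lemP hd hc' hcd (Faces.Kpres hk hgv) hnv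
        have h4 : g • v ∈ D.Y (g • c) := D.Ysmul g c v hv
        by_cases hgc : g • c = d
        · refine ⟨1, one_mem _, g, hgN, g⁻¹ * k * g, ?_, by group⟩
          apply Faces.Kconj'
          rw [hgc]; exact hk
        · exfalso
          have h5 := lemP hd (N_E hgN hc) hgc hgv h4
          have := lemZ hd hk hk1 h3 h5
          rw [D.T.d_self] at this
          omega

/-- conjugating a Galois word by an element of `N` -/
theorem gal_N_mul {o : Option F} {g : Γ} (hg : m.Gal o g) : ∀ ν ∈ m.N, m.Gal (o.map (ν • ·)) (ν * g) := by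
  induction hg with
  | nil ν' hν' =>
    intro ν hν
    exact Gal.nil _ (mul_mem hν hν')
  | cons o d k g hd hk hk1 hg ho ih =>
    intro ν hν
    have e : ν * (k * g) = (ν * k * ν⁻¹) * (ν * g) := by group
    rw [e]
    refine Gal.cons _ _ _ _ (N_Dn hν hd) (D.Kconj ν d k hk) ?_ (ih ν hν) ?_
    · intro h
      apply hk1
      have : k = ν⁻¹ * (ν * k * ν⁻¹) * ν := by group
      rw [this, h]; group
    · intro h
      apply ho
      cases o with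
      | none => simp at h
      | some d' =>
        simp only [Option.map_some, Option.some.injEq] at h ⊢
        exact MulAction.injective ν h

theorem gal_K_mul {o : Option F} {g : Γ} (hg : m.Gal o g) {d : F} (hd : d ∈ m.Dn) {k : Γ}
    (hk : k ∈ D.K d) : ∃ o', m.Gal o' (k * g) := by
  by_cases hk1 : k = 1
  · subst hk1; exact ⟨o, by simpa using hg⟩
  by_cases ho : o = some d
  · cases hg with
    | nil ν hν => simp at ho
    | cons o'' d'' k' g' hd' hk' hk1' hg' ho' =>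
      simp only [Option.some.injEq] at ho
      subst ho
      rw [← mul_assoc]
      by_cases hkk : k * k' = 1
      · rw [hkk, one_mul]; exact ⟨_, hg'⟩
      · exact ⟨_, Gal.cons _ _ _ _ hd' (mul_mem hk hk') hkk hg' ho'⟩
  · exact ⟨_, Gal.cons _ _ _ _ hd hk hk1 hg ho⟩

theorem gal_all {n : Γ} (hn : n ∈ m.N') : ∃ o, m.Gal o n := by
  induction hn using Subgroup.closure_induction_left with
  | one => exact ⟨none, Gal.nil _ (one_mem _)⟩
  | mul_left x hx y hy ih =>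
    obtain ⟨o, ho⟩ := ih
    rcases hx with hx | ⟨d, hd, hx⟩
    · exact ⟨_, gal_N_mul ho x hx⟩
    · exact gal_K_mul ho hd hx
  | inv_mul_cancel x hx y hy ih =>
    obtain ⟨o, ho⟩ := ih
    rcases hx with hx | ⟨d, hd, hx⟩
    · exact ⟨_, gal_N_mul ho _ (inv_mem hx)⟩
    · exact gal_K_mul ho hd (inv_mem hx)

theorem lemR {n : Γ} (hn : n ∈ m.N') {c c' : F} (hc : c ∈ m.E) (hc' : c' ∈ m.E) {v : V}
    (hv : v ∈ D.Y c) (hnv : n • v ∈ D.Y c') :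
    ∃ κ' ∈ D.K c', ∃ ν ∈ m.N, ∃ κ ∈ D.K c, n = κ' * ν * κ := by
  obtain ⟨o, ho⟩ := gal_all hn
  exact lemR0 ho c hc c' hc' v hv hnv

end Mill

end S2T
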