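import Pool.Agent.S2T.Windmill

set_option autoImplicit false

namespace S2T

open TreeDist

variable {Γ V F : Type*} [Group Γ] [MulAction Γ V] [MulAction Γ F]

namespace Mill

variable {D : Faces Γ V F} {H M : Subgroup Γ} {m : Mill D H M}

theorem N'_W' {n : Γ} (hn : n ∈ m.N') {x : V} (hx : x ∈ m.W') : n • x ∈ m.W' := by
  obtain ⟨g, hg, h⟩ := hx
  refine ⟨g * n⁻¹, mul_mem hg (inv_mem hn), ?_⟩
  rw [mul_smul, inv_smul_smul]; exact h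

theorem N'_C' {n : Γ} (hn : n ∈ m.N') {x : F} (hx : x ∈ m.C') : n • x ∈ m.C' := by
  obtain ⟨g, hg, h⟩ := hx
  refine ⟨g * n⁻¹, mul_mem hg (inv_mem hn), ?_⟩
  rw [mul_smul, inv_smul_smul]; exact h

theorem Wh_sub_W' {x : V} (hx : x ∈ m.Wh) : x ∈ m.W' := ⟨1, one_mem _, by simpa using hx⟩

theorem E_sub_C' {x : F} (hx : x ∈ m.E) : x ∈ m.C' := ⟨1, one_mem _, by simpa using hx⟩

theorem C'_Y {c : F} (hc : c ∈ m.C') : D.Y c ⊆ m.W' := by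
  obtain ⟨g, hg, h⟩ := hc
  intro x hx
  exact ⟨g, hg, Y_sub_Wh h (D.Ysmul g c x hx)⟩

theorem C'_K {c : F} (hc : c ∈ m.C') : D.K c ≤ m.N' := by
  obtain ⟨g, hg, h⟩ := hc
  intro k hk
  have h1 := K_le_N' h (D.Kconj g c k hk)
  have e : k = g⁻¹ * (g * k * g⁻¹) * g := by group
  rw [e]
  exact mul_mem (mul_mem (inv_mem hg) h1) hg

theorem W'_cover {x : V} (hx : x ∈ m.W') : ∃ c ∈ m.C', x ∈ D.Y c := by
  obtain ⟨g, hg, c, hc, h⟩ := hx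
  refine ⟨g⁻¹ • c, ⟨g, hg, by simpa using hc⟩, ?_⟩
  have := D.Ysmul g⁻¹ _ _ h
  simpa using this

theorem gen_meet {s : Γ} (hs : s ∈ {g | g ∈ m.N ∨ ∃ d ∈ m.Dn, g ∈ D.K d}) :
    ∃ w ∈ m.Wh, s • w ∈ m.Wh := by
  rcases hs with hs | ⟨d, hd, hs⟩
  · obtain ⟨w, hw⟩ := m.w0'
    exact ⟨w, W_sub_Wh hw, W_sub_Wh (m.w1 s hs w hw)⟩
  · obtain ⟨w, hw⟩ := D.Yne d
    exact ⟨w, Yd_sub_Wh hd hw, Yd_sub_Wh hd (Faces.Kpres hs hw)⟩

theorem gen_inv {s : Γ} (hs : s ∈ {g | g ∈ m.N ∨ ∃ d ∈ m.Dn, g ∈ D.K d}) :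
    s⁻¹ ∈ {g | g ∈ m.N ∨ ∃ d ∈ m.Dn, g ∈ D.K d} := by
  rcases hs with hs | ⟨d, hd, hs⟩
  · exact Or.inl (inv_mem hs)
  · exact Or.inr ⟨d, hd, inv_mem hs⟩

theorem conv_aux {g : Γ} (hg : g ∈ m.N') : ∃ S : Set V, D.T.Convex S ∧ m.Wh ⊆ S ∧
    (∀ x, g • x ∈ m.Wh → x ∈ S) ∧ S ⊆ m.W' := by
  have step : ∀ (x s : Γ), x ∈ m.N' → s ∈ {g | g ∈ m.N ∨ ∃ d ∈ m.Dn, g ∈ D.K d} →
      (∃ S : Set V, D.T.Convex S ∧ m.Wh ⊆ S ∧ (∀ y, x • y ∈ m.Wh → y ∈ S) ∧ S ⊆ m.W') →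
      (∃ S : Set V, D.T.Convex S ∧ m.Wh ⊆ S ∧ (∀ y, (x * s) • y ∈ m.Wh → y ∈ S) ∧ S ⊆ m.W') := by
    rintro x s hx hs ⟨S, h1, h2, h3, h4⟩
    obtain ⟨w, hw, hsw⟩ := gen_meet hs
    have hsN : s ∈ m.N' := Subgroup.subset_closure hs
    have hc : D.T.Convex {y | s • y ∈ S} := by
      intro a ha b hb z hz
      refine h1 _ ha _ hb _ ?_
      unfold TreeDist.Btw at *
      rw [D.iso, D.iso, D.iso]; exact hz
    refine ⟨m.Wh ∪ {y | s • y ∈ S}, union_convex Wh_convex hc hw (h2 hsw),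
      Set.subset_union_left, ?_, ?_⟩
    · intro y hy
      right
      rw [mul_smul] at hy
      exact h3 _ hy
    · rintro y (hy | hy)
      · exact Wh_sub_W' hy
      · have := N'_W' (inv_mem hsN) (h4 hy)
        simpa using this
  induction hg using Subgroup.closure_induction_right with
  | one => exact ⟨m.Wh, Wh_convex, subset_rfl, fun x hx => by simpa using hx, fun x hx => Wh_sub_W' hx⟩
  | mul_right x hx y hy ih => exact step x y hx hy ih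
  | mul_inv_cancel x hx y hy ih => exact step x y⁻¹ hx (gen_inv hy) ih

theorem W'_convex : D.T.Convex m.W' := by
  intro x hx y hy z hz
  obtain ⟨g, hg, hgx⟩ := hx
  obtain ⟨h, hh, hhy⟩ := hy
  obtain ⟨S, h1, h2, h3, h4⟩ := conv_aux (mul_mem hh (inv_mem hg))
  have e1 : g • x ∈ S := h2 hgx
  have e2 : g • y ∈ S := by
    apply h3
    rw [mul_smul, inv_smul_smul]; exact hhy
  have e3 : g • z ∈ S := by
    refine h1 _ e1 _ e2 _ ?_
    unfold TreeDist.Btw at *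
    rw [D.iso, D.iso, D.iso]; exact hz
  have := N'_W' (inv_mem hg) (h4 e3)
  simpa using this

theorem E1 {o : Option F} {h : Γ} (hh : m.Gal o h) : ∀ x ∈ m.Wh, ∀ y ∈ m.Wh,
    D.T.d x (h • y) = 1 → ∃ g ∈ m.N', g • x ∈ m.Wh ∧ g • (h • y) ∈ m.Wh := by
  induction hh with
  | nil ν hν =>
    intro x hx y hy _
    exact ⟨1, one_mem _, by simpa using hx, by simpa using N_Wh hν hy⟩
  | cons o d k g' hd hk hk1 hg ho ih =>
    intro x hx y hy hxy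
    by_cases hW : (k * g') • y ∈ m.Wh
    · exact ⟨1, one_mem _, by simpa using hx, by simpa using hW⟩
    · rcases GL1 hg d hd ho y hy with ⟨p, hp, hpZ⟩ | ⟨_, h2⟩
      · have hq := GL2 hd hk hk1 hp hpZ
        rw [mul_smul] at hW hxy ⊢
        have h1 := hq.2 x hx
        have h2 : 0 < D.T.d (k • g' • y) (k • p) := by
          apply d_pos
          intro h
          rw [h] at hW
          exact hW hq.1
        have h3 := D.T.symm x (k • g' • y)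
        have h4 : D.T.d (k • p) x = 0 := by omega
        have h5 := D.T.eq_of_d _ _ h4
        subst h5
        rw [D.iso] at hxy
        obtain ⟨g, hgN, e1, e2⟩ := ih p (Yd_sub_Wh hd hpZ.1) y hy hxy
        refine ⟨g * k⁻¹, mul_mem hgN (inv_mem (K_le_N'_of_Dn hd hk)), ?_, ?_⟩
        · rw [mul_smul, inv_smul_smul]; exact e1
        · rw [mul_smul, inv_smul_smul]; exact e2
      · exfalso
        apply hW
        rw [mul_smul]
        exact Yd_sub_Wh hd (Faces.Kpres hk h2)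

theorem E1' {x x' : V} (hx : x ∈ m.W') (hx' : x' ∈ m.W') (h : D.T.d x x' = 1) :
    ∃ g ∈ m.N', g • x ∈ m.Wh ∧ g • x' ∈ m.Wh := by
  obtain ⟨g₁, hg₁, h₁⟩ := hx
  obtain ⟨g₂, hg₂, h₂⟩ := hx'
  have hh : g₁ * g₂⁻¹ ∈ m.N' := mul_mem hg₁ (inv_mem hg₂)
  obtain ⟨o, ho⟩ := gal_all hh
  have e : (g₁ * g₂⁻¹) • (g₂ • x') = g₁ • x' := by
    rw [mul_smul, inv_smul_smul]
  obtain ⟨g, hg, a1, a2⟩ := E1 ho (g₁ • x) h₁ (g₂ • x') h₂ (by rw [e, D.iso]; exact h)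
  rw [e] at a2
  exact ⟨g * g₁, mul_mem hg hg₁, by rwa [mul_smul], by rwa [mul_smul]⟩

theorem E2 {x x' : V} (hx : x ∈ m.Wh) (hx' : x' ∈ m.Wh) (h : D.T.d x x' = 1) (hxW : x ∉ m.W) :
    ∃ c ∈ m.E, x ∈ D.Y c ∧ x' ∈ D.Y c := by
  obtain ⟨d, hd, hxd⟩ := hx
  have hd' : d ∈ m.Dn := by
    rcases hd with hd | hd
    · exact absurd (m.w2 d hd hxd) hxW
    · exact hd
  by_cases hx'd : x' ∈ D.Y d
  · exact ⟨d, hd, hxd, hx'd⟩
  obtain ⟨p, hp⟩ := exists_gateW (m := m) x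
  have hpd := gateW_mem hd' hxd hp
  have hx'W : x' ∉ m.W := by
    intro hwW
    have h1 := hp.2 x' hwW
    have hpos : 0 < D.T.d x p := by
      apply d_pos
      intro h; subst h; exact hxW hp.1
    have h2 : D.T.d p x' = 0 := by omega
    have := D.T.eq_of_d _ _ h2
    subst this
    exact hx'd hpd
  obtain ⟨c, hc, hx'c⟩ := hx'
  have hc' : c ∈ m.Dn := by
    rcases hc with hc | hc
    · exact absurd (m.w2 c hc hx'c) hx'W
    · exact hc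
  obtain ⟨p', hp'⟩ := exists_gateW (m := m) x'
  have hpp : p = p' := by
    apply gate_eq_of_avoid hp hp'
    intro z hz hzW
    unfold TreeDist.Btw at hz
    rcases Nat.eq_zero_or_pos (D.T.d x z) with h0 | h0
    · have := D.T.eq_of_d _ _ h0
      subst this; exact hxW hzW
    · have h0' : D.T.d z x' = 0 := by omega
      have := D.T.eq_of_d _ _ h0'
      subst this; exact hx'W hzW
  subst hpp
  have hpc := gateW_mem hc' hx'c hp'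
  rcases adj_diff (T := D.T) h p with h' | h'
  · exfalso
    apply hx'd
    refine D.Yconv d p hpd x hxd x' ?_
    unfold TreeDist.Btw
    rw [D.T.symm x' x]; omega
  · refine ⟨c, hc, ?_, hx'c⟩
    refine D.Yconv c p hpc x' hx'c x ?_
    unfold TreeDist.Btw
    omega

theorem E3 {x x' : V} (hx : x ∈ m.W') (hx' : x' ∈ m.W') (h : D.T.d x x' = 1)
    (hxW : ∀ g ∈ m.N', g • x ∉ m.W) : ∃ c ∈ m.C', x ∈ D.Y c ∧ x' ∈ D.Y c := by
  obtain ⟨g, hg, h1, h2⟩ := E1' hx hx' h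
  obtain ⟨c, hc, a1, a2⟩ := E2 h1 h2 (by rw [D.iso]; exact h) (hxW g hg)
  refine ⟨g⁻¹ • c, ⟨g, hg, by simpa using hc⟩, ?_, ?_⟩
  · have := D.Ysmul g⁻¹ _ _ a1
    simpa using this
  · have := D.Ysmul g⁻¹ _ _ a2
    simpa using this

/-- Lemma Q1 -/
theorem lemQ1 {f d : F} (hf : f ∈ m.C') (hd : d ∈ m.Dn) (hfd : f ≠ d) {u : V}
    (h1 : u ∈ D.Y f) (h2 : u ∈ D.Y d) :
    ∃ κ ∈ D.K d, κ⁻¹ • f ∈ m.E ∧ κ⁻¹ • f ≠ d ∧ κ⁻¹ • u ∈ m.Z d := by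
  obtain ⟨g, hg, hgf⟩ := hf
  have e1 : g⁻¹ • (g • u) = u := inv_smul_smul _ _
  obtain ⟨κ', hκ', ν, hν, κ, hκ, e⟩ := lemR (inv_mem hg) hgf (Or.inr hd) (v := g • u)
    (D.Ysmul g f u h1) (by rw [e1]; exact h2)
  have e2 : κ'⁻¹ • f = ν • (g • f) := by
    have a1 : κ • (g • f) = g • f := D.Kfix _ κ hκ
    have a2 : f = (κ' * ν * κ) • (g • f) := by rw [← e, inv_smul_smul]
    rw [mul_smul, a1, mul_smul] at a2
    calc κ'⁻¹ • f = κ'⁻¹ • (κ' • ν • g • f) := by rw [← a2]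
      _ = ν • (g • f) := inv_smul_smul _ _
  have e3 : κ'⁻¹ • f ∈ m.E := by rw [e2]; exact N_E hν hgf
  have e4 : κ'⁻¹ • f ≠ d := by
    intro h
    apply hfd
    have : f = κ' • d := by rw [← h, smul_inv_smul]
    rw [this, D.Kfix d κ' hκ']
  refine ⟨κ', hκ', e3, e4, ?_⟩
  exact lemP hd e3 e4 (Faces.Kpres (inv_mem hκ') h2) (D.Ysmul _ _ _ h1)

theorem mem_Dn_of {e : F} (he : e ∈ m.E) {u : V} (hu : u ∈ D.Y e) (huW : u ∉ m.W) : e ∈ m.Dn := by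
  rcases he with he | he
  · exact absurd (m.w2 e he hu) huW
  · exact he

theorem lemQ0 {f₁ d f₃ : F} (h1 : f₁ ∈ m.C') (hd : d ∈ m.E) (h3 : f₃ ∈ m.C') (h12 : f₁ ≠ d)
    (h32 : f₃ ≠ d) {u u' : V} (u1 : u ∈ D.Y f₁) (u2 : u ∈ D.Y d) (u2' : u' ∈ D.Y d)
    (u3 : u' ∈ D.Y f₃) (huu : D.T.d u u' ≤ 2)
    (hav : ∀ z, D.T.Btw u z u' → ∀ g ∈ m.N', g • z ∉ m.W) : f₁ = f₃ := by
  have bu : D.T.Btw u u u' := by unfold TreeDist.Btw; rw [D.T.d_self]; omega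
  have bu' : D.T.Btw u u' u' := by unfold TreeDist.Btw; rw [D.T.d_self]; omega
  have huW : u ∉ m.W := by have := hav u bu 1 (one_mem _); simpa using this
  have hdn : d ∈ m.Dn := mem_Dn_of hd u2 huW
  obtain ⟨κ, hκ, a1, a2, a3⟩ := lemQ1 h1 hdn h12 u1 u2
  obtain ⟨κ₃, hκ₃, b1, b2, b3⟩ := lemQ1 h3 hdn h32 u3 u2'
  have hkk : κ = κ₃ := by
    by_contra hne
    have hk : κ⁻¹ * κ₃ ∈ D.K d := mul_mem (inv_mem hκ) hκ₃
    have hk1 : κ⁻¹ * κ₃ ≠ 1 := by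
      intro h; apply hne
      exact inv_mul_eq_one.1 h
    have := lemZ hdn hk hk1 a3 b3
    rw [mul_smul, smul_inv_smul, D.iso] at this
    omega
  subst hkk
  have hκN : κ⁻¹ ∈ m.N' := K_le_N'_of_Dn hdn (inv_mem hκ)
  have hav' : ∀ z, D.T.Btw (κ⁻¹ • u) z (κ⁻¹ • u') → z ∉ m.W := by
    intro z hz
    have h5 : D.T.Btw u (κ • z) u' := by
      unfold TreeDist.Btw at *
      have e1 := D.iso κ (κ⁻¹ • u) z
      have e2 := D.iso κ z (κ⁻¹ • u')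
      have e3 := D.iso κ⁻¹ u u'
      rw [smul_inv_smul] at e1 e2
      omega
    have := hav _ h5 _ hκN
    simpa using this
  have v1 : κ⁻¹ • u ∉ m.W := hav u bu _ hκN
  have v2 : κ⁻¹ • u' ∉ m.W := hav u' bu' _ hκN
  have p1 : κ⁻¹ • u ∈ D.Y (κ⁻¹ • f₁) := D.Ysmul _ _ _ u1
  have p3 : κ⁻¹ • u' ∈ D.Y (κ⁻¹ • f₃) := D.Ysmul _ _ _ u3
  have p2 : κ⁻¹ • u ∈ D.Y d := Faces.Kpres (inv_mem hκ) u2
  have p2' : κ⁻¹ • u' ∈ D.Y d := Faces.Kpres (inv_mem hκ) u2'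
  have e1 := mem_Dn_of a1 p1 v1
  have e3 := mem_Dn_of b1 p3 v2
  obtain ⟨q, hq⟩ := exists_gateW (m := m) (κ⁻¹ • u)
  obtain ⟨q', hq'⟩ := exists_gateW (m := m) (κ⁻¹ • u')
  have hqq : q = q' := gate_eq_of_avoid hq hq' hav'
  subst hqq
  have q1 := gateW_mem e1 p1 hq
  have q2 := gateW_mem hdn p2 hq
  have q3 := gateW_mem e3 p3 hq'
  have hqne : q ≠ κ⁻¹ • u := by
    intro h; rw [← h] at v1; exact v1 hq.1
  obtain ⟨p, hp1, hp2⟩ := D.T.disc q (κ⁻¹ • u) hqne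
  have hp3 : D.T.Btw q p (κ⁻¹ • u') := next_same hq.1 hav' hp1 hp2
  have r1 := D.Yconv _ _ q1 _ p1 p hp2
  have r2 := D.Yconv _ _ q2 _ p2 p hp2
  have r3 := D.Yconv _ _ q3 _ p3 p hp3
  rcases D.A2 q p _ _ _ hp1 q1 r1 q2 r2 q3 r3 with h | h | h
  · exact absurd h a2
  · exact MulAction.injective κ⁻¹ h
  · exact absurd h.symm b2

theorem lemQ {f₁ f₂ f₃ : F} (h1 : f₁ ∈ m.C') (h2 : f₂ ∈ m.C') (h3 : f₃ ∈ m.C') (h12 : f₁ ≠ f₂)
    (h32 : f₃ ≠ f₂) {u u' : V} (u1 : u ∈ D.Y f₁) (u2 : u ∈ D.Y f₂) (u2' : u' ∈ D.Y f₂)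
    (u3 : u' ∈ D.Y f₃) (huu : D.T.d u u' ≤ 2)
    (hav : ∀ z, D.T.Btw u z u' → ∀ g ∈ m.N', g • z ∉ m.W) : f₁ = f₃ := by
  obtain ⟨g, hg, hgf⟩ := h2
  have := lemQ0 (m := m) (f₁ := g • f₁) (d := g • f₂) (f₃ := g • f₃) (u := g • u) (u' := g • u')
    (N'_C' hg h1) hgf (N'_C' hg h3)
    (fun h => h12 (MulAction.injective g h)) (fun h => h32 (MulAction.injective g h))
    (D.Ysmul _ _ _ u1) (D.Ysmul _ _ _ u2) (D.Ysmul _ _ _ u2') (D.Ysmul _ _ _ u3)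
    (by rw [D.iso]; exact huu) (by
      intro z hz g' hg' hzW
      have h5 : D.T.Btw u (g⁻¹ • z) u' := by
        unfold TreeDist.Btw at *
        have e1 := D.iso g u (g⁻¹ • z)
        have e2 := D.iso g (g⁻¹ • z) u'
        have e3 := D.iso g u u'
        rw [smul_inv_smul] at e1 e2
        omega
      apply hav _ h5 (g' * g) (mul_mem hg' hg)
      rw [mul_smul, smul_inv_smul]; exact hzW)
  exact MulAction.injective g this

theorem not_NW {c : F} (hc : c ∉ m.C') {z : V} (hz : z ∈ D.Y c) : ∀ g ∈ m.N', g • z ∉ m.W := by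
  intro g hg hgz
  apply hc
  refine ⟨g, hg, ?_⟩
  by_cases h : g • c ∈ m.C
  · exact Or.inl h
  · exact Or.inr ⟨h, g • z, D.Ysmul g c z hz, hgz⟩

theorem w3n {c : F} (hc : c ∉ m.C') {x y : V} (hx : x ∈ D.Y c) (hy : y ∈ D.Y c)
    (hxW : x ∈ m.W') (hyW : y ∈ m.W') : D.T.d x y ≤ 4 := by
  by_contra hcon
  obtain ⟨f₁, hf₁, hxf₁⟩ := W'_cover hxW
  have hcf : ∀ f ∈ m.C', c ≠ f := fun f hf h => hc (h ▸ hf)
  obtain ⟨u, hu⟩ := exists_gateY (D := D) f₁ y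
  have hu1 := hu.2 x hxf₁
  have s1 := D.T.symm x y
  have s2 := D.T.symm y u
  have s3 := D.T.symm u x
  have bxu : D.T.Btw x u y := by unfold TreeDist.Btw; omega
  have huc := D.Yconv c x hx y hy u bxu
  have huW := W'_convex x hxW y hyW u bxu
  have dxu := D.A1 c f₁ x u (hcf f₁ hf₁) hx hxf₁ huc hu.1
  have huy : u ≠ y := by
    intro h; subst h; omega
  obtain ⟨p₁, hp1, hp1'⟩ := D.T.disc u y huy
  have hp1f := adj_of_next_gate hu hp1 hp1'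
  have hp1c := D.Yconv c u huc y hy p₁ hp1'
  have hp1W := W'_convex u huW y hyW p₁ hp1'
  obtain ⟨f₂, hf₂, g1, g2⟩ := E3 huW hp1W hp1 (not_NW hc huc)
  have h12 : f₁ ≠ f₂ := fun h => hp1f (h ▸ g2)
  obtain ⟨u', hu'⟩ := exists_gateY (D := D) f₂ y
  have hu'1 := hu'.2 u g1
  have s4 := D.T.symm y u'
  have s5 := D.T.symm u' u
  have buu' : D.T.Btw u u' y := by unfold TreeDist.Btw; omega
  have hu'c := D.Yconv c u huc y hy u' buu'
  have hu'W := W'_convex u huW y hyW u' buu'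
  have duu' := D.A1 c f₂ u u' (hcf f₂ hf₂) huc g1 hu'c hu'.1
  have hu'y : u' ≠ y := by
    intro h; subst h
    have := D.T.tri x u u'
    omega
  obtain ⟨p₂, hp2, hp2'⟩ := D.T.disc u' y hu'y
  have hp2f := adj_of_next_gate hu' hp2 hp2'
  have hp2c := D.Yconv c u' hu'c y hy p₂ hp2'
  have hp2W := W'_convex u' hu'W y hyW p₂ hp2'
  obtain ⟨f₃, hf₃, k1, k2⟩ := E3 hu'W hp2W hp2 (not_NW hc hu'c)
  have h32 : f₃ ≠ f₂ := fun h => hp2f (h ▸ k2)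
  have h13 : f₁ ≠ f₃ := by
    intro h
    have := hu.2 p₂ (h ▸ k2)
    unfold TreeDist.Btw at buu'
    have := D.T.symm y p₂
    omega
  apply h13
  exact lemQ hf₁ hf₂ hf₃ h12 h32 hu.1 g1 hu'.1 k1 duu'
    (fun z hz => not_NW hc (D.Yconv c u huc u' hu'c z hz))

theorem w6n {u : V} {c : F} (hc : c ∉ m.C') (huc : u ∈ D.Y c) {d₁ d₂ d₃ : F}
    (h1 : d₁ ∈ m.C') (h2 : d₂ ∈ m.C') (h3 : d₃ ∈ m.C') (u1 : u ∈ D.Y d₁) (u2 : u ∈ D.Y d₂)
    (u3 : u ∈ D.Y d₃) : d₁ = d₂ ∨ d₁ = d₃ ∨ d₂ = d₃ := by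
  by_cases h12 : d₁ = d₂
  · exact Or.inl h12
  by_cases h32 : d₂ = d₃
  · exact Or.inr (Or.inr h32)
  right; left
  refine lemQ h1 h2 h3 h12 (fun h => h32 h.symm) u1 u2 u2 u3 (by rw [D.T.d_self]; omega) ?_
  intro z hz
  unfold TreeDist.Btw at hz
  rw [D.T.d_self] at hz
  have h0 : D.T.d u z = 0 := by omega
  have := D.T.eq_of_d _ _ h0
  subst this
  exact not_NW hc huc

/-- Lemma N1 -/
theorem lemN1 {ν : Γ} (hν : ν ∈ m.N) {c : F} (hc : c ∈ m.Dn) {u : V} (hu : u ∈ D.Y c)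
    (hνu : ν • u ∈ D.Y c) : ν = 1 := by
  by_contra hne
  obtain ⟨p, hp⟩ := exists_gateW (m := m) u
  have hνp : D.T.IsGate m.W (ν • u) (ν • p) := by
    apply Faces.gate_smul ν hp
    intro y
    exact (N_smul_W_iff (inv_mem hν)).symm
  have h1 := gateW_mem hc hu hp
  have h2 := gateW_mem hc hνu hνp
  have := m.w3 c hc.1 p h1 _ h2 hp.1 hνp.1
  have := m.w4 ν hν hne p hp.1
  omega

theorem w5n {c : F} (hc : c ∈ m.C') {n : Γ} (hn : n ∈ m.N') {v : V} (hv : v ∈ D.Y c)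
    (hnv : n • v ∈ D.Y c) : n ∈ D.K c := by
  obtain ⟨g, hg, hgc⟩ := hc
  have hv1 : g • v ∈ D.Y (g • c) := D.Ysmul _ _ _ hv
  have e1 : (g * n * g⁻¹) • (g • v) = g • (n • v) := by
    rw [← mul_smul, ← mul_smul]; congr 1; group
  have hnv1 : (g * n * g⁻¹) • (g • v) ∈ D.Y (g • c) := by
    rw [e1]; exact D.Ysmul _ _ _ hnv
  obtain ⟨κ', hκ', ν, hν, κ, hκ, e⟩ := lemR (mul_mem (mul_mem hg hn) (inv_mem hg)) hgc hgc hv1 hnv1
  have h1 : κ • (g • v) ∈ D.Y (g • c) := Faces.Kpres hκ hv1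
  have h2 : ν • (κ • (g • v)) ∈ D.Y (g • c) := by
    have h3 := Faces.Kpres (inv_mem hκ') hnv1
    rw [e] at h3
    rw [mul_smul, mul_smul, inv_smul_smul] at h3
    exact h3
  have h4 : ν ∈ D.K (g • c) := by
    rcases hgc with hgc | hgc
    · exact m.w5 _ hgc ν hν _ h1 h2
    · rw [lemN1 hν hgc h1 h2]; exact one_mem _
  have h5 : g * n * g⁻¹ ∈ D.K (g • c) := by
    rw [e]; exact mul_mem (mul_mem hκ' h4) hκ
  have := Faces.Kconj' h5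
  have e2 : g⁻¹ * (g * n * g⁻¹) * g = n := by group
  rwa [e2] at this

theorem lemD1 {y : V} (hy : y ∈ m.Wh) {r : ℕ} (hr : ∃ w ∈ m.W, D.T.d y w = r)
    (hmin : ∀ g ∈ m.N', g • y ∈ m.Wh → ∀ w ∈ m.W, r ≤ D.T.d (g • y) w) {d : F} (hd : d ∈ m.Dn)
    {k : Γ} (hk : k ∈ D.K d) (hk1 : k ≠ 1) {p : V} (hp : p ∈ m.Z d) : 6 ≤ D.T.d y (k • p) := by
  by_cases hyd : y ∈ D.Y d
  · obtain ⟨w₀, hw₀, hr₀⟩ := hr
    obtain ⟨p₀, hp₀⟩ := exists_gateW (m := m) y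
    have h0 := hp₀.2 w₀ hw₀
    have hp₀d := gateW_mem hd hyd hp₀
    obtain ⟨hpd, z, hz1, hz2, hz3⟩ := hp
    have h1 : r ≤ D.T.d (k⁻¹ • y) z :=
      hmin k⁻¹ (K_le_N'_of_Dn hd (inv_mem hk)) (Yd_sub_Wh hd (Faces.Kpres (inv_mem hk) hyd)) z hz2
    have h2 : D.T.d (k⁻¹ • y) z = D.T.d y (k • z) := by
      have := D.iso k (k⁻¹ • y) z
      rw [smul_inv_smul] at this
      exact this.symm
    have h3 := D.A3 d k hk hk1 p₀ hp₀d
    have h4 := m.w3 d hd.1 p₀ hp₀d z hz1 hp₀.1 hz2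
    have h5 := D.iso k p₀ z
    have t1 := D.T.tri p₀ (k • z) (k • p₀)
    have t2 := D.T.tri p₀ y (k • z)
    have t3 := D.T.tri y (k • p) (k • z)
    have h6 := D.iso k p z
    have s1 := D.T.symm (k • z) (k • p₀)
    have s2 := D.T.symm p₀ y
    omega
  · obtain ⟨g₀, hg₀⟩ := exists_gateY (D := D) d y
    have h1 := lemG hd hy hyd hg₀
    have h2 := lemZ hd hk hk1 h1 hp
    have h3 := hg₀.2 (k • p) (Faces.Kpres hk hp.1)
    omega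

theorem lemD2 {y : V} (hy : y ∈ m.Wh) {r : ℕ} (hr : ∃ w ∈ m.W, D.T.d y w = r)
    (hmin : ∀ g ∈ m.N', g • y ∈ m.Wh → ∀ w ∈ m.W, r ≤ D.T.d (g • y) w) {d : F} (hd : d ∈ m.Dn)
    {k g : Γ} (hk : k ∈ D.K d) (hk1 : k ≠ 1) {p : V} (hp : D.T.IsGate (D.Y d) (g • y) p)
    (hpZ : p ∈ m.Z d) : 6 ≤ D.T.d y ((k * g) • y) := by
  have h1 := GL2 hd hk hk1 hp hpZ
  have h2 := lemD1 hy hr hmin hd hk hk1 hpZ
  have h3 := h1.2 y hy
  rw [mul_smul, D.T.symm y (k • g • y)]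
  have := D.T.symm y (k • p)
  omega

theorem w4n {n : Γ} (hn : n ∈ m.N') (hn1 : n ≠ 1) {v : V} (hv : v ∈ m.W') :
    5 ≤ D.T.d v (n • v) := by
  classical
  have hex : ∃ r, ∃ h ∈ m.N', h • v ∈ m.Wh ∧ ∃ w ∈ m.W, D.T.d (h • v) w = r := by
    obtain ⟨g, hg, h⟩ := hv
    obtain ⟨w, hw⟩ := m.w0'
    exact ⟨_, g, hg, h, w, hw, rfl⟩
  obtain ⟨h, hh, hy, hr⟩ := Nat.find_spec hex
  set r := Nat.find hex with hrdef
  have hmin : ∀ g ∈ m.N', g • (h • v) ∈ m.Wh → ∀ w ∈ m.W, r ≤ D.T.d (g • (h • v)) w := by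
    intro g hg h1 w hw
    apply Nat.find_min' hex
    exact ⟨g * h, mul_mem hg hh, by rwa [mul_smul], w, hw, by rw [mul_smul]⟩
  -- translate
  have e1 : D.T.d v (n • v) = D.T.d (h • v) ((h * n * h⁻¹) • (h • v)) := by
    rw [← D.iso h v (n • v)]
    congr 1
    rw [← mul_smul, ← mul_smul]; congr 1; group
  rw [e1]
  have hn' : h * n * h⁻¹ ∈ m.N' := mul_mem (mul_mem hh hn) (inv_mem hh)
  have hn1' : h * n * h⁻¹ ≠ 1 := by
    intro hc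
    apply hn1
    have : n = h⁻¹ * (h * n * h⁻¹) * h := by group
    rw [this, hc]; group
  generalize h * n * h⁻¹ = n₁ at *
  generalize h • v = y at *
  obtain ⟨o, ho⟩ := gal_all hn'
  cases ho with
  | nil ν hν =>
    obtain ⟨p, hp⟩ := exists_gateW (m := m) y
    have hνp : D.T.IsGate m.W (n₁ • y) (n₁ • p) := by
      apply Faces.gate_smul n₁ hp
      intro y
      exact (N_smul_W_iff (inv_mem hν)).symm
    have h1 := gate_lip hp hνp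
    have h2 := m.w4 n₁ hν hn1' p hp.1
    omega
  | cons o d k g hd hk hk1 hg ho =>
    rcases GL1 hg d hd ho y hy with ⟨p, hp, hpZ⟩ | ⟨hgN, hgy⟩
    · have := lemD2 hy hr hmin hd hk hk1 hp hpZ
      omega
    · by_cases hg1 : g = 1
      · subst hg1
        rw [one_smul] at hgy
        rw [mul_one]
        have := D.A3 d k hk hk1 y hgy
        omega
      · have hd' : g⁻¹ • d ∈ m.Dn := N_Dn (inv_mem hgN) hd
        have hk' : g⁻¹ * k⁻¹ * g ∈ D.K (g⁻¹ • d) := by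
          have := D.Kconj g⁻¹ d k⁻¹ (inv_mem hk)
          simpa using this
        have hk1' : g⁻¹ * k⁻¹ * g ≠ 1 := by
          intro h1
          apply hk1
          have : k = g * (g⁻¹ * k⁻¹ * g)⁻¹ * g⁻¹ := by group
          rw [this, h1]; group
        rcases GL1 (Gal.nil g⁻¹ (inv_mem hgN)) (g⁻¹ • d) hd' (by simp) y hy with
          ⟨p, hp, hpZ⟩ | ⟨_, h2⟩
        · have h3 := lemD2 hy hr hmin hd' hk' hk1' hp hpZ
          have h4 : g⁻¹ * k⁻¹ * g * g⁻¹ = (k * g)⁻¹ := by group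
          rw [h4] at h3
          have h5 := D.iso (k * g) y ((k * g)⁻¹ • y)
          rw [smul_inv_smul] at h5
          rw [D.T.symm]
          omega
        · exfalso
          have h3 : y ∈ D.Y d := Faces.Ysmul_iff.1 h2
          exact hg1 (lemN1 hgN hd h3 hgy)

theorem H_W_iff {h : Γ} (hh : h ∈ H) {x : V} : h • x ∈ m.W ↔ x ∈ m.W := by
  constructor
  · intro h1
    have := m.w8 _ (inv_mem hh) _ h1
    simpa using this
  · exact m.w8 h hh x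

theorem H_C_iff {h : Γ} (hh : h ∈ H) {x : F} : h • x ∈ m.C ↔ x ∈ m.C := by
  constructor
  · intro h1
    have := m.w8' _ (inv_mem hh) _ h1
    simpa using this
  · exact m.w8' h hh x

theorem H_Dn {h : Γ} (hh : h ∈ H) {c : F} (hc : c ∈ m.Dn) : h • c ∈ m.Dn := by
  obtain ⟨h1, x, h2, h3⟩ := hc
  exact ⟨fun h' => h1 ((H_C_iff hh).1 h'), h • x, D.Ysmul _ _ _ h2, m.w8 h hh x h3⟩

theorem H_E {h : Γ} (hh : h ∈ H) {c : F} (hc : c ∈ m.E) : h • c ∈ m.E := by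
  rcases hc with hc | hc
  · exact Or.inl (m.w8' h hh c hc)
  · exact Or.inr (H_Dn hh hc)

theorem H_Wh {h : Γ} (hh : h ∈ H) {x : V} (hx : x ∈ m.Wh) : h • x ∈ m.Wh := by
  obtain ⟨c, hc, h1⟩ := hx
  exact ⟨h • c, H_E hh hc, D.Ysmul _ _ _ h1⟩

theorem H_N' {h : Γ} (hh : h ∈ H) {n : Γ} (hn : n ∈ m.N') : h * n * h⁻¹ ∈ m.N' := by
  induction hn using Subgroup.closure_induction with
  | mem x hx =>
    apply Subgroup.subset_closure
    rcases hx with hx | ⟨d, hd, hx⟩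
    · exact Or.inl (m.w8'' h hh x hx)
    · exact Or.inr ⟨h • d, H_Dn hh hd, D.Kconj h d x hx⟩
  | one => simp
  | mul x y _ _ hx hy =>
    have : h * (x * y) * h⁻¹ = (h * x * h⁻¹) * (h * y * h⁻¹) := by group
    rw [this]; exact mul_mem hx hy
  | inv x _ hx =>
    have : h * x⁻¹ * h⁻¹ = (h * x * h⁻¹)⁻¹ := by group
    rw [this]; exact inv_mem hx

/-- the next windmill -/
def next (hM : ∀ c, D.K c ≤ M) (m : Mill D H M) : Mill D H M where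
  W := m.W'
  N := m.N'
  C := m.C'
  w0 := W'_convex
  w0' := by
    obtain ⟨w, hw⟩ := m.w0'
    exact ⟨w, Wh_sub_W' (W_sub_Wh hw)⟩
  w1 := fun n hn x hx => N'_W' hn hx
  w1' := fun n hn x hx => N'_C' hn hx
  w2 := fun c hc => C'_Y hc
  w2' := fun c hc => C'_K hc
  w3 := fun c hc x hx y hy hxW hyW => w3n hc hx hy hxW hyW
  w4 := fun n hn hn1 v hv => w4n hn hn1 hv
  w5 := fun c hc n hn v hv hnv => w5n hc hn hv hnv
  w6 := fun u _ c hc huc d₁ h1 d₂ h2 d₃ h3 u1 u2 u3 => w6n hc huc h1 h2 h3 u1 u2 u3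
  w7 := fun x hx => W'_cover hx
  w8 := fun h hh x hx => by
    obtain ⟨g, hg, h1⟩ := hx
    refine ⟨h * g * h⁻¹, H_N' hh hg, ?_⟩
    rw [mul_smul, inv_smul_smul, mul_smul]
    exact H_Wh hh h1
  w8' := fun h hh x hx => by
    obtain ⟨g, hg, h1⟩ := hx
    refine ⟨h * g * h⁻¹, H_N' hh hg, ?_⟩
    rw [mul_smul, inv_smul_smul, mul_smul]
    exact H_E hh h1
  w8'' := fun h hh n hn => H_N' hh hn
  w9 := by
    unfold N'
    rw [Subgroup.closure_le]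
    rintro x (hx | ⟨d, _, hx⟩)
    · exact m.w9 hx
    · exact hM d hx

end Mill

end S2T
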